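import Mathlib

/-!
# Continuous association schemes on discrete spaces

On discrete spaces all maps are continuous, the compact sets are the finite sets, and bounded
measures with compact support are finitely supported functions. Definitions of discrete
hypergroups, of CAS `(X, D, K)` on discrete spaces and of the properties (T1) and (T2).

A homogeneous partition of `X × X` with finite classes gives a CAS with (T1).
-/

namespace Pool.Agent.Q23.Cas

open Finsupp

/-- A discrete hypergroup: `conv a b` is the probability measure `δ_a * δ_b` (a finitely supported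
function). -/
structure Hypergroup (D : Type) where
  /-- the convolution of two point measures -/
  conv : D → D → (D →₀ ℝ)
  /-- the neutral element -/
  e : D
  /-- the involution -/
  inv : D → D
  nonneg : ∀ a b c, 0 ≤ conv a b c
  mass : ∀ a b, (conv a b).sum (fun _ r => r) = 1
  assoc : ∀ a b c d, (conv a b).sum (fun m r => r * conv m c d) =
    (conv b c).sum (fun m r => r * conv a m d)
  e_conv : ∀ a, conv e a = single a 1
  conv_e : ∀ a, conv a e = single a 1
  inv_inv : ∀ a, inv (inv a) = a
  mem_supp : ∀ a b, conv a b e ≠ 0 ↔ b = inv a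
  inv_conv : ∀ a b c, conv (inv b) (inv a) (inv c) = conv a b c

/-- `(X, D, K)` is a CAS on the discrete spaces `X` and `D` with the partition map `π`. Here
`K h x` is the probability measure `K(x, h; ·)`; its support is `{y | π x y = h}`. -/
structure CAS {X D : Type} (π : X → X → D) where
  /-- the hypergroup structure -/
  H : Hypergroup D
  /-- the kernel -/
  K : D → X → (X →₀ ℝ)
  nonneg : ∀ h x y, 0 ≤ K h x y
  mass : ∀ h x, (K h x).sum (fun _ r => r) = 1
  supp : ∀ h x y, K h x y ≠ 0 ↔ π x y = h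
  comp : ∀ h₁ h₂ x y, (K h₁ x).sum (fun w r => r * K h₂ w y) =
    (H.conv h₁ h₂).sum (fun h r => r * K h x y)
  unit : ∀ x, K H.e x = single x 1
  measure : ∃ ω : X → ℝ, (∀ x, 0 < ω x) ∧ ∀ h x y, ω x * K (H.inv h) x y = ω y * K h y x

variable {X D : Type} {π : X → X → D}

/-- `ω` is a measure with full support on `X` as in condition 4 (for indicator functions of
points `f = 1_y`, `g = 1_x`, which implies the condition for all `f`, `g` with finite support). -/
def CAS.IsMeasure (S : CAS π) (ω : X → ℝ) : Prop :=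
  (∀ x, 0 < ω x) ∧ ∀ h x y, ω x * S.K (S.H.inv h) x y = ω y * S.K h y x

/-- `ω` is a left Haar measure of the discrete hypergroup:
`∑_b ω(b) (δ_a * δ_b)(c) = ω(c)` for all `a`, `c`. -/
def Hypergroup.IsHaar (H : Hypergroup D) (ω : D → ℝ) : Prop :=
  (∀ a, 0 < ω a) ∧ ∀ a c, HasSum (fun b => ω b * H.conv a b c) (ω c)

open Classical in
/-- Property (T2), for `f` and `g` the indicator functions of points `h` and `y`. -/
def CAS.T2 (S : CAS π) : Prop :=
  ∃ (ωX : X → ℝ) (ωD : D → ℝ), S.IsMeasure ωX ∧ S.H.IsHaar ωD ∧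
    ∀ h x y, S.K h x y * ωD h = if π x y = h then ωX y else 0

open Classical in
/-- Property (T1), for `f` the indicator function of the point `d`. -/
def CAS.T1 (S : CAS π) : Prop :=
  ∀ x y h d, (S.K h y).sum (fun w r => if π x w = d then r else 0) = S.H.conv (π x y) h d

/-- The CAS is commutative. -/
def CAS.Commutative (S : CAS π) : Prop := ∀ a b, S.H.conv a b = S.H.conv b a

/-- If a CAS has (T2), then the classes of `h` and of the inverse of `h` have the same number of
elements. -/
theorem T2_card (S : CAS π) (h2 : S.T2) (x y : X) :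
    Nat.card {w // π x w = π x y} = Nat.card {w // π x w = π y x} := by
  classical
  obtain ⟨ωX, ωD, ⟨hX, h4⟩, ⟨hD, _⟩, hT⟩ := h2
  have hK : ∀ h x y, π x y = h → S.K h x y = ωX y / ωD h := by
    intro h x y hxy
    have := hT h x y
    rw [if_pos hxy] at this
    rw [eq_div_iff (hD h).ne', this]
  have hinv : ∀ x y, π x y = S.H.inv (π y x) := by
    intro x y
    rw [← S.supp]
    intro h0
    have h1 := h4 (π y x) x y
    rw [h0, mul_zero] at h1
    have h2 : S.K (π y x) y x ≠ 0 := (S.supp _ _ _).2 rfl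
    exact (mul_ne_zero (hX y).ne' h2) h1.symm
  have hDinv : ∀ x y, ωD (S.H.inv (π y x)) = ωD (π y x) := by
    intro x y
    have h1 := h4 (π y x) x y
    rw [hK _ x y (hinv x y), hK _ y x rfl] at h1
    have h3 := hX x
    have h5 := hX y
    have h6 := hD (S.H.inv (π y x))
    have h7 := hD (π y x)
    field_simp at h1
    exact h1.symm
  have hdiag : ∀ x, π x x = S.H.e := by
    intro x
    rw [← S.supp, S.unit]
    simp
  -- the measure on `X` is constant
  have hconst : ∀ x y z, ωX z = ωD (π x y) * S.H.conv (π x y) (S.H.inv (π x y)) S.H.e := by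
    intro x y z
    have h1 := S.comp (π x y) (S.H.inv (π x y)) z z
    have h3 : (S.H.conv (π x y) (S.H.inv (π x y))).sum (fun h r => r * S.K h z z) =
        S.H.conv (π x y) (S.H.inv (π x y)) S.H.e := by
      rw [Finsupp.sum, Finset.sum_eq_single S.H.e]
      · rw [S.unit]; simp
      · intro h _ hh
        have : S.K h z z = 0 := by
          by_contra hc
          exact hh (((S.supp _ _ _).1 hc).symm.trans (hdiag z))
        rw [this, mul_zero]
      · intro hh
        rw [Finsupp.notMem_support_iff.1 hh, zero_mul]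
    rw [h3] at h1
    have h5 : (S.K (π x y) z).sum (fun w r => r * S.K (S.H.inv (π x y)) w z) =
        ωX z / ωD (S.H.inv (π x y)) * (S.K (π x y) z).sum (fun _ r => r) := by
      rw [Finsupp.sum, Finsupp.sum, Finset.mul_sum]
      refine Finset.sum_congr rfl fun w hw => ?_
      have h6 : π z w = π x y := (S.supp _ _ _).1 (Finsupp.mem_support_iff.1 hw)
      have h7 : π w z = S.H.inv (π x y) := by rw [hinv w z, h6]
      rw [hK _ w z h7]
      ring
    rw [h5, S.mass, mul_one] at h1
    have h8 : ωD (S.H.inv (π x y)) = ωD (π x y) := hDinv y x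
    rw [h8] at h1
    rw [← h1]
    have := hD (π x y)
    field_simp
  have hc : ∀ z w, ωX z = ωX w := fun z w => (hconst x y z).trans (hconst x y w).symm
  -- the cardinalities
  have hcard : ∀ h, (Nat.card {w // π x w = h} : ℝ) * ωX x = ωD h := by
    intro h
    have h1 := S.mass h x
    have h3 : (S.K h x).sum (fun _ r => r) = ((S.K h x).support.card : ℝ) * (ωX x / ωD h) := by
      rw [Finsupp.sum, ← nsmul_eq_mul]
      apply Finset.sum_eq_card_nsmul
      intro w hw
      rw [hK h x w ((S.supp _ _ _).1 (Finsupp.mem_support_iff.1 hw)), hc w x]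
    have h5 : Nat.card {w // π x w = h} = (S.K h x).support.card := by
      have : {w | π x w = h} = ((S.K h x).support : Set X) := by
        ext w
        rw [Finset.mem_coe, Finsupp.mem_support_iff, S.supp]
        rfl
      change Nat.card ({w | π x w = h} : Set X) = _
      rw [this, Nat.card_coe_set_eq, Set.ncard_coe_finset]
    rw [h3] at h1
    rw [h5]
    have := hD h
    field_simp at h1
    linarith
  have h1 := hcard (π x y)
  have h3 := hcard (π y x)
  have h5 : ωD (π x y) = ωD (π y x) := by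
    rw [hinv x y]
    exact hDinv x y
  have h6 : (Nat.card {w // π x w = π x y} : ℝ) = Nat.card {w // π x w = π y x} := by
    have := hX x
    rw [h5, ← h3] at h1
    exact mul_right_cancel₀ this.ne' h1
  exact_mod_cast h6

/-! ### Homogeneous partitions -/

open Classical in
/-- A partition of `X × X` with finite classes and a group of automorphisms which is transitive on
every class, and a relatively invariant measure. -/
structure Homog (π : X → X → D) where
  /-- the neutral element -/
  e : D
  /-- the involution -/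
  inv : D → D
  /-- the measure -/
  ω : X → ℝ
  /-- a base point -/
  x₀ : X
  diag : ∀ x y, π x y = e ↔ x = y
  swap : ∀ x y, π y x = inv (π x y)
  inv_inv : ∀ a, inv (inv a) = a
  surj : ∀ x d, ∃ y, π x y = d
  fin : ∀ x d, {y | π x y = d}.Finite
  hom : ∀ x y x' y', π x y = π x' y' → ∃ φ : X ≃ X, (∀ u v, π (φ u) (φ v) = π u v) ∧
    φ x = x' ∧ φ y = y'
  pos : ∀ x, 0 < ω x
  rel : ∀ x y, ω x * Nat.card {w // π x₀ w = π y x} = ω y * Nat.card {w // π x₀ w = π x y}

namespace Homog

noncomputable section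

open Classical

variable (A : Homog π)

/-- The class of `d` at `x`. -/
def cls (x : X) (d : D) : Finset X := (A.fin x d).toFinset

theorem mem_cls {x y : X} {d : D} : y ∈ A.cls x d ↔ π x y = d := by
  unfold cls
  simp

/-- The number of elements of a class. -/
def n (d : D) : ℝ := (A.cls A.x₀ d).card

/-- The intersection numbers at `x`, `y`. -/
def q (a b : D) (x y : X) : ℝ := ((A.cls x a).filter (fun w => π w y = b)).card

theorem mem_q {a b : D} {x y w : X} :
    w ∈ (A.cls x a).filter (fun w => π w y = b) ↔ π x w = a ∧ π w y = b := by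
  rw [Finset.mem_filter, mem_cls]

theorem q_eq {a b : D} {x y x' y' : X} (h : π x y = π x' y') : A.q a b x y = A.q a b x' y' := by
  obtain ⟨φ, hφ, rfl, rfl⟩ := A.hom x y x' y' h
  unfold q
  congr 1
  refine Finset.card_equiv φ fun w => ?_
  rw [mem_q, mem_q, hφ, hφ]

theorem cls_card (x : X) (d : D) : ((A.cls x d).card : ℝ) = A.n d := by
  have h : π x x = π A.x₀ A.x₀ := by rw [(A.diag x x).2 rfl, (A.diag _ _).2 rfl]
  obtain ⟨φ, hφ, h1, _⟩ := A.hom x x A.x₀ A.x₀ h
  unfold n
  congr 1
  refine Finset.card_equiv φ fun w => ?_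
  rw [mem_cls, mem_cls, ← h1, hφ]

theorem n_pos (d : D) : 0 < A.n d := by
  unfold n
  obtain ⟨y, hy⟩ := A.surj A.x₀ d
  exact_mod_cast Finset.card_pos.2 ⟨y, A.mem_cls.2 hy⟩

theorem n_eq (d : D) : A.n d = Nat.card {w // π A.x₀ w = d} := by
  unfold n cls
  change _ = ((Nat.card ({w | π A.x₀ w = d} : Set X) : ℕ) : ℝ)
  rw [Nat.card_coe_set_eq, ← Set.ncard_coe_finset, Set.Finite.coe_toFinset]

/-- The uniform kernel. -/
def K (d : D) (x : X) : X →₀ ℝ :=
  Finsupp.onFinset (A.cls x d) (fun y => if π x y = d then (A.n d)⁻¹ else 0) (by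
    intro y hy
    rw [mem_cls]
    by_contra h
    exact hy (if_neg h))

theorem K_apply (d : D) (x y : X) : A.K d x y = if π x y = d then (A.n d)⁻¹ else 0 := rfl

theorem K_sum (d : D) (x : X) (f : X → ℝ → ℝ) (hf : ∀ y, f y 0 = 0) :
    (A.K d x).sum f = ∑ y ∈ A.cls x d, f y (A.n d)⁻¹ := by
  unfold K
  rw [Finsupp.onFinset_sum _ hf]
  refine Finset.sum_congr rfl fun y hy => ?_
  rw [if_pos (A.mem_cls.1 hy)]

/-- A point in the class of `d` at the base point. -/
def pt (d : D) : X := (A.surj A.x₀ d).choose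

theorem pt_spec (d : D) : π A.x₀ (A.pt d) = d := (A.surj A.x₀ d).choose_spec

/-- The finite set of all classes met by `K a ∘ K b`. -/
def range (a b : D) : Finset D :=
  ((A.cls A.x₀ a).biUnion (fun w => A.cls w b)).image (π A.x₀)

theorem mem_range_of_q {a b : D} {x y : X} (h : A.q a b x y ≠ 0) : π x y ∈ A.range a b := by
  have h1 : A.q a b A.x₀ (A.pt (π x y)) ≠ 0 := by
    rwa [A.q_eq (x' := x) (y' := y) (A.pt_spec _)]
  unfold q at h1
  rw [Nat.cast_ne_zero, ← Nat.pos_iff_ne_zero, Finset.card_pos] at h1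
  obtain ⟨w, hw⟩ := h1
  rw [mem_q] at hw
  unfold range
  rw [Finset.mem_image]
  refine ⟨A.pt (π x y), ?_, A.pt_spec _⟩
  rw [Finset.mem_biUnion]
  exact ⟨w, A.mem_cls.2 hw.1, A.mem_cls.2 hw.2⟩

/-- The convolution. -/
def conv (a b : D) : D →₀ ℝ :=
  Finsupp.onFinset (A.range a b)
    (fun c => A.q a b A.x₀ (A.pt c) * A.n c * ((A.n a)⁻¹ * (A.n b)⁻¹)) (by
      intro c hc
      have h : A.q a b A.x₀ (A.pt c) ≠ 0 := by
        intro h
        apply hc
        rw [h]; ring
      have := A.mem_range_of_q h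
      rwa [A.pt_spec] at this)

theorem conv_apply (a b : D) (x y : X) :
    A.conv a b (π x y) = A.q a b x y * A.n (π x y) * ((A.n a)⁻¹ * (A.n b)⁻¹) := by
  change A.q a b A.x₀ (A.pt (π x y)) * A.n (π x y) * ((A.n a)⁻¹ * (A.n b)⁻¹) = _
  rw [A.q_eq (A.pt_spec (π x y))]

include A in
theorem exists_pair (d : D) : ∃ x y, π x y = d := ⟨A.x₀, A.pt d, A.pt_spec d⟩

/-- Composition of kernels. -/
theorem comp_apply (a b : D) (x y : X) : (A.K a x).sum (fun w r => r * A.K b w y) =
    A.q a b x y * ((A.n a)⁻¹ * (A.n b)⁻¹) := by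
  rw [A.K_sum a x (fun w r => r * A.K b w y) (fun y => zero_mul _)]
  unfold q
  rw [Finset.card_eq_sum_ones, Finset.sum_filter, Nat.cast_sum, Finset.sum_mul]
  refine Finset.sum_congr rfl fun w _ => ?_
  rw [K_apply]
  split_ifs <;> simp

theorem sum_K (f : D →₀ ℝ) (x y : X) :
    f.sum (fun h r => r * A.K h x y) = f (π x y) * (A.n (π x y))⁻¹ := by
  rw [Finsupp.sum, Finset.sum_eq_single (π x y)]
  · rw [K_apply, if_pos rfl]
  · intro h _ hh
    rw [K_apply, if_neg (fun h' => hh h'.symm), mul_zero]
  · intro hh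
    rw [Finsupp.notMem_support_iff.1 hh, zero_mul]

theorem comp' (a b : D) (x y : X) : (A.K a x).sum (fun w r => r * A.K b w y) =
    (A.conv a b).sum (fun h r => r * A.K h x y) := by
  rw [comp_apply, sum_K, conv_apply]
  have := A.n_pos (π x y)
  field_simp

theorem mass' (d : D) (x : X) : (A.K d x).sum (fun _ r => r) = 1 := by
  rw [A.K_sum _ _ _ (fun _ => rfl), Finset.sum_const, nsmul_eq_mul, cls_card]
  exact mul_inv_cancel₀ (A.n_pos d).ne'

theorem n_e : A.n A.e = 1 := by
  unfold n
  have : A.cls A.x₀ A.e = {A.x₀} := by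
    ext y
    rw [mem_cls, A.diag, Finset.mem_singleton, eq_comm]
  rw [this]
  simp

theorem rel' (x y : X) : A.ω x * A.n (π y x) = A.ω y * A.n (π x y) := by
  rw [n_eq, n_eq]
  exact A.rel x y

theorem unit' (x : X) : A.K A.e x = single x 1 := by
  ext y
  rw [K_apply, n_e, Finsupp.single_apply, inv_one]
  simp only [A.diag]

/-- The operator of a kernel. -/
def P (a : D) : (X →₀ ℝ) →ₗ[ℝ] (X →₀ ℝ) := Finsupp.linearCombination ℝ (A.K a)

/-- Linear combinations of the operators. -/
def L : (D →₀ ℝ) →ₗ[ℝ] ((X →₀ ℝ) →ₗ[ℝ] (X →₀ ℝ)) := Finsupp.linearCombination ℝ A.P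

theorem P_single (a : D) (x : X) : A.P a (single x 1) = A.K a x := by
  unfold P
  rw [Finsupp.linearCombination_single, one_smul]

theorem L_single (a : D) : A.L (single a 1) = A.P a := by
  unfold L
  rw [Finsupp.linearCombination_single, one_smul]

theorem L_apply (f : D →₀ ℝ) (x y : X) :
    A.L f (single x 1) y = f (π x y) * (A.n (π x y))⁻¹ := by
  rw [← sum_K]
  unfold L
  rw [Finsupp.linearCombination_apply, Finsupp.sum, Finsupp.sum, LinearMap.sum_apply,
    Finsupp.finsetSum_apply]
  refine Finset.sum_congr rfl fun h _ => ?_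
  rw [LinearMap.smul_apply, P_single, Finsupp.smul_apply, smul_eq_mul]

theorem L_inj {f g : D →₀ ℝ} (h : A.L f = A.L g) : f = g := by
  ext d
  obtain ⟨x, y, rfl⟩ := A.exists_pair d
  have h1 := A.L_apply f x y
  rw [h, L_apply] at h1
  exact (mul_right_cancel₀ (inv_ne_zero (A.n_pos _).ne') h1).symm

theorem P_comp (a b : D) : (A.P b) ∘ₗ (A.P a) = A.L (A.conv a b) := by
  apply Finsupp.lhom_ext'
  intro x
  apply LinearMap.ext_ring
  ext y
  change A.P b (A.P a (single x 1)) y = A.L (A.conv a b) (single x 1) y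
  rw [P_single, L_apply, ← sum_K, ← comp']
  unfold P
  rw [Finsupp.linearCombination_apply, Finsupp.sum, Finsupp.sum, Finsupp.finsetSum_apply]
  refine Finset.sum_congr rfl fun h _ => ?_
  rw [Finsupp.smul_apply, smul_eq_mul]

theorem assoc' (a b c : D) : (A.conv a b).sum (fun m r => r • A.conv m c) =
    (A.conv b c).sum (fun m r => r • A.conv a m) := by
  apply A.L_inj
  rw [Finsupp.sum, Finsupp.sum, map_sum, map_sum]
  simp_rw [map_smul, ← P_comp]
  have h1 : ∑ m ∈ (A.conv a b).support, (A.conv a b) m • A.P c ∘ₗ A.P m =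
      A.P c ∘ₗ (A.L (A.conv a b)) := by
    unfold L
    rw [Finsupp.linearCombination_apply, Finsupp.sum]
    apply LinearMap.ext
    intro v
    rw [LinearMap.sum_apply, LinearMap.comp_apply, LinearMap.sum_apply, map_sum]
    refine Finset.sum_congr rfl fun m _ => ?_
    rw [LinearMap.smul_apply, LinearMap.smul_apply, map_smul, LinearMap.comp_apply]
  have h2 : ∑ m ∈ (A.conv b c).support, (A.conv b c) m • A.P m ∘ₗ A.P a =
      (A.L (A.conv b c)) ∘ₗ A.P a := by
    unfold L
    rw [Finsupp.linearCombination_apply, Finsupp.sum]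
    apply LinearMap.ext
    intro v
    rw [LinearMap.sum_apply, LinearMap.comp_apply, LinearMap.sum_apply]
    refine Finset.sum_congr rfl fun m _ => ?_
    rw [LinearMap.smul_apply, LinearMap.smul_apply, LinearMap.comp_apply]
  rw [h1, h2, ← P_comp, ← P_comp, LinearMap.comp_assoc]

theorem P_e : A.P A.e = LinearMap.id := by
  apply Finsupp.lhom_ext'
  intro x
  apply LinearMap.ext_ring
  change A.P A.e (single x 1) = single x 1
  rw [P_single, unit']

/-- The total mass. -/
def mas : (X →₀ ℝ) →ₗ[ℝ] ℝ := Finsupp.linearCombination ℝ (fun _ => (1 : ℝ))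

theorem mas_apply (f : X →₀ ℝ) : mas f = f.sum (fun _ r => r) := by
  unfold mas
  rw [Finsupp.linearCombination_apply]
  simp

theorem mas_P (a : D) : mas ∘ₗ A.P a = mas := by
  apply Finsupp.lhom_ext'
  intro x
  apply LinearMap.ext_ring
  change mas (A.P a (single x 1)) = mas (single x 1)
  rw [P_single, mas_apply, mas_apply, mass']
  simp

theorem sum_conv (a b : D) : (A.conv a b).sum (fun _ r => r) = 1 := by
  have h1 : mas ∘ₗ (A.L (A.conv a b)) = mas := by
    rw [← P_comp, ← LinearMap.comp_assoc, mas_P, mas_P]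
  have h2 := congrArg (fun f => f (single A.x₀ 1)) h1
  have h3 : mas (single A.x₀ (1 : ℝ)) = 1 := by
    rw [mas_apply]; simp
  have h4 : mas (A.L (A.conv a b) (single A.x₀ 1)) = (A.conv a b).sum (fun _ r => r) := by
    unfold L
    rw [Finsupp.linearCombination_apply, Finsupp.sum, Finsupp.sum, LinearMap.sum_apply, map_sum]
    refine Finset.sum_congr rfl fun h _ => ?_
    rw [LinearMap.smul_apply, map_smul, P_single, mas_apply, mass', smul_eq_mul, mul_one]
  have h5 : mas (A.L (A.conv a b) (single A.x₀ 1)) = mas (single A.x₀ (1 : ℝ)) := h2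
  rw [h4, h3] at h5
  exact h5

theorem conv_ne_zero {a b : D} {x y : X} : A.conv a b (π x y) ≠ 0 ↔ ∃ w, π x w = a ∧ π w y = b := by
  rw [conv_apply]
  have h1 := A.n_pos (π x y)
  have h2 := A.n_pos a
  have h3 := A.n_pos b
  have h4 : A.q a b x y * A.n (π x y) * ((A.n a)⁻¹ * (A.n b)⁻¹) ≠ 0 ↔ A.q a b x y ≠ 0 := by
    constructor
    · intro h h'
      apply h
      rw [h']; ring
    · intro h
      positivity
  rw [h4]
  unfold q
  rw [Nat.cast_ne_zero, ← Nat.pos_iff_ne_zero, Finset.card_pos]
  constructor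
  · rintro ⟨w, hw⟩
    exact ⟨w, A.mem_q.1 hw⟩
  · rintro ⟨w, hw⟩
    exact ⟨w, A.mem_q.2 hw⟩

theorem inv_conv' (a b c : D) : A.conv (A.inv b) (A.inv a) (A.inv c) = A.conv a b c := by
  obtain ⟨x, y, rfl⟩ := A.exists_pair c
  rw [← A.swap, conv_apply, conv_apply]
  have h1 : A.q (A.inv b) (A.inv a) y x = A.q a b x y := by
    unfold q
    congr 2
    ext w
    rw [mem_q, mem_q]
    constructor
    · rintro ⟨h1, h2⟩
      refine ⟨?_, ?_⟩
      · rw [A.swap, h2, A.inv_inv]
      · rw [A.swap, h1, A.inv_inv]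
    · rintro ⟨h1, h2⟩
      refine ⟨?_, ?_⟩
      · rw [A.swap, h2]
      · rw [A.swap, h1]
  rw [h1]
  by_cases h0 : A.q a b x y = 0
  · rw [h0]; ring
  · have h2 : A.q a b x y ≠ 0 := h0
    unfold q at h2
    rw [Nat.cast_ne_zero, ← Nat.pos_iff_ne_zero, Finset.card_pos] at h2
    obtain ⟨w, hw⟩ := h2
    obtain ⟨rfl, rfl⟩ := A.mem_q.1 hw
    have e1 := A.rel' x y
    have e2 := A.rel' x w
    have e3 := A.rel' w y
    rw [← A.swap, ← A.swap]
    have p1 := A.pos x
    have p2 := A.pos y
    have p3 := A.pos w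
    have n1 := A.n_pos (π x y)
    have n2 := A.n_pos (π y x)
    have n3 := A.n_pos (π x w)
    have n4 := A.n_pos (π w x)
    have n5 := A.n_pos (π w y)
    have n6 := A.n_pos (π y w)
    have f1 : A.n (π y x) = A.ω y / A.ω x * A.n (π x y) := by
      field_simp
      linarith
    have f2 : A.n (π w x) = A.ω w / A.ω x * A.n (π x w) := by
      field_simp
      linarith
    have f3 : A.n (π y w) = A.ω y / A.ω w * A.n (π w y) := by
      field_simp
      linarith
    rw [f1, f2, f3]
    field_simp

/-- The hypergroup. -/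
def hyp : Hypergroup D where
  conv := A.conv
  e := A.e
  inv := A.inv
  nonneg a b c := by
    change 0 ≤ A.q a b A.x₀ (A.pt c) * A.n c * ((A.n a)⁻¹ * (A.n b)⁻¹)
    have h1 := A.n_pos c
    have h2 := A.n_pos a
    have h3 := A.n_pos b
    have h4 : 0 ≤ A.q a b A.x₀ (A.pt c) := Nat.cast_nonneg _
    positivity
  mass := A.sum_conv
  assoc a b c d := by
    have h := congrArg (fun f : D →₀ ℝ => f d) (A.assoc' a b c)
    simpa [Finsupp.sum, Finsupp.finsetSum_apply] using h
  e_conv a := by
    apply A.L_inj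
    rw [← P_comp, L_single, P_e]
    rfl
  conv_e a := by
    apply A.L_inj
    rw [← P_comp, L_single, P_e]
    rfl
  inv_inv := A.inv_inv
  mem_supp a b := by
    have h : A.e = π A.x₀ A.x₀ := ((A.diag _ _).2 rfl).symm
    conv_lhs => rw [h]
    rw [conv_ne_zero]
    constructor
    · rintro ⟨w, rfl, rfl⟩
      exact A.swap _ _
    · rintro rfl
      obtain ⟨w, hw⟩ := A.surj A.x₀ a
      exact ⟨w, hw, by rw [A.swap, hw]⟩
  inv_conv := A.inv_conv'

/-- The CAS. -/
def cas : CAS π where
  H := A.hyp
  K := A.K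
  nonneg h x y := by
    rw [K_apply]
    have := A.n_pos h
    split_ifs
    · positivity
    · exact le_rfl
  mass := A.mass'
  supp h x y := by
    rw [K_apply]
    have := A.n_pos h
    constructor
    · intro h1
      by_contra h2
      exact h1 (if_neg h2)
    · intro h1
      rw [if_pos h1]
      positivity
  comp := A.comp'
  unit := A.unit'
  measure := by
    refine ⟨A.ω, A.pos, fun h x y => ?_⟩
    change A.ω x * A.K (A.inv h) x y = A.ω y * A.K h y x
    rw [K_apply, K_apply]
    by_cases hh : π y x = h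
    · have h2 : π x y = A.inv h := by rw [A.swap, hh]
      rw [if_pos hh, if_pos h2, ← hh, ← A.swap]
      have h3 := A.rel' x y
      have h4 := A.n_pos (π x y)
      have h5 := A.n_pos (π y x)
      field_simp
      linarith
    · have h2 : π x y ≠ A.inv h := by
        intro h2
        apply hh
        rw [A.swap, h2, A.inv_inv]
      rw [if_neg hh, if_neg h2, mul_zero, mul_zero]

theorem cas_T1 : A.cas.T1 := by
  intro x y h d
  change (A.K h y).sum (fun w r => if π x w = d then r else 0) = A.conv (π x y) h d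
  rw [A.K_sum h y (fun w r => if π x w = d then r else 0) (fun _ => by simp)]
  -- `s` is the number of `w` with `π x w = d`, `π y w = h`
  have hs : ∀ y' : X, π x y' = π x y → ((A.cls y' h).filter (fun w => π x w = d)).card =
      ((A.cls y h).filter (fun w => π x w = d)).card := by
    intro y' hy'
    obtain ⟨φ, hφ, h1, h2⟩ := A.hom x y' x y hy'
    refine Finset.card_equiv φ fun w => ?_
    rw [Finset.mem_filter, Finset.mem_filter, mem_cls, mem_cls]
    conv_rhs => rw [← h1, ← h2, hφ, hφ]
  have e1 : ∑ w ∈ A.cls y h, (if π x w = d then (A.n h)⁻¹ else 0) =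
      ((A.cls y h).filter (fun w => π x w = d)).card * (A.n h)⁻¹ := by
    rw [← Finset.sum_filter, Finset.sum_const, nsmul_eq_mul]
  rw [e1]
  obtain ⟨z, rfl⟩ := A.surj x d
  rw [conv_apply]
  -- double counting
  have e2 : (A.cls x (π x y)).card * ((A.cls y h).filter (fun w => π x w = π x z)).card =
      ∑ w ∈ A.cls x (π x z), ((A.cls x (π x y)).filter (fun y' => π y' w = h)).card := by
    rw [← Finset.card_sigma]
    have e3 : (A.cls x (π x y)).card * ((A.cls y h).filter (fun w => π x w = π x z)).card =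
        ∑ y' ∈ A.cls x (π x y), ((A.cls y' h).filter (fun w => π x w = π x z)).card := by
      rw [← smul_eq_mul]
      symm
      apply Finset.sum_eq_card_nsmul
      intro y' hy'
      exact hs y' (A.mem_cls.1 hy')
    rw [e3, ← Finset.card_sigma]
    refine Finset.card_bij' (fun p _ => ⟨p.2, p.1⟩) (fun p _ => ⟨p.2, p.1⟩) ?_ ?_ ?_ ?_
    · rintro ⟨y', w⟩ hp
      rw [Finset.mem_sigma, Finset.mem_filter, mem_cls, mem_cls] at hp
      rw [Finset.mem_sigma, Finset.mem_filter, mem_cls, mem_cls]
      exact ⟨hp.2.2, hp.1, hp.2.1⟩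
    · rintro ⟨w, y'⟩ hp
      rw [Finset.mem_sigma, Finset.mem_filter, mem_cls, mem_cls] at hp
      rw [Finset.mem_sigma, Finset.mem_filter, mem_cls, mem_cls]
      exact ⟨hp.2.1, hp.2.2, hp.1⟩
    · intro _ _; rfl
    · intro _ _; rfl
  have e4 : ((∑ w ∈ A.cls x (π x z), ((A.cls x (π x y)).filter (fun y' => π y' w = h)).card : ℕ) :
      ℝ) = A.n (π x z) * A.q (π x y) h x z := by
    rw [← A.cls_card x (π x z), ← nsmul_eq_mul, Nat.cast_sum]
    apply Finset.sum_eq_card_nsmul
    intro w hw
    exact A.q_eq (A.mem_cls.1 hw)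
  rw [← e2, Nat.cast_mul, cls_card] at e4
  have h1 := A.n_pos (π x y)
  have h2 := A.n_pos h
  field_simp
  linarith

end

end Homog

end Pool.Agent.Q23.Cas
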