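import Pool.Agent.Q23.Cas

/-!
# A non-unimodular discrete CAS

The points are the cosets `b + 2 ^ k ℤ` in `ℚ` (for all integers `k` and rational numbers `b`), the
classes are the orbits of the group of the maps `t ↦ 2 ^ m t + c` on the pairs of points.
-/

namespace Pool.Agent.Q23.Cas.Example

/-- The coset `b + 2 ^ k ℤ` is represented by `(k, b)`. -/
def rX : Setoid (ℤ × ℚ) where
  r a b := a.1 = b.1 ∧ ∃ n : ℤ, b.2 - a.2 = 2 ^ a.1 * n
  iseqv :=
    { refl := fun a => ⟨rfl, 0, by simp⟩
      symm := by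
        rintro a b ⟨h1, n, hn⟩
        refine ⟨h1.symm, -n, ?_⟩
        rw [← h1]
        push_cast
        linarith
      trans := by
        rintro a b c ⟨h1, n, hn⟩ ⟨h2, m, hm⟩
        refine ⟨h1.trans h2, n + m, ?_⟩
        rw [← h1] at hm
        push_cast
        linarith }

/-- The classes. -/
def rD : Setoid (ℤ × ℚ) where
  r a b := a.1 = b.1 ∧ ∃ n : ℤ, b.2 - a.2 = 2 ^ (min 0 a.1) * n
  iseqv :=
    { refl := fun a => ⟨rfl, 0, by simp⟩
      symm := by
        rintro a b ⟨h1, n, hn⟩
        refine ⟨h1.symm, -n, ?_⟩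
        rw [← h1]
        push_cast
        linarith
      trans := by
        rintro a b c ⟨h1, n, hn⟩ ⟨h2, m, hm⟩
        refine ⟨h1.trans h2, n + m, ?_⟩
        rw [← h1] at hm
        push_cast
        linarith }

/-- The points. -/
abbrev X := Quotient rX

/-- The classes. -/
abbrev D := Quotient rD

theorem rX_iff {a b : ℤ × ℚ} : (Quotient.mk rX a = Quotient.mk rX b) ↔
    a.1 = b.1 ∧ ∃ n : ℤ, b.2 - a.2 = 2 ^ a.1 * n := Quotient.eq (r := rX)

theorem rD_iff {a b : ℤ × ℚ} : (Quotient.mk rD a = Quotient.mk rD b) ↔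
    a.1 = b.1 ∧ ∃ n : ℤ, b.2 - a.2 = 2 ^ (min 0 a.1) * n := Quotient.eq (r := rD)

theorem zpow_split {a b c : ℤ} (h : a = b + c) : (2 : ℚ) ^ a = 2 ^ b * 2 ^ c := by
  rw [h, zpow_add₀ two_ne_zero]

theorem zpow_nonneg_int {a : ℤ} (h : 0 ≤ a) : ∃ n : ℤ, (2 : ℚ) ^ a = n :=
  ⟨2 ^ a.toNat, by
    push_cast
    rw [← zpow_natCast, Int.toNat_of_nonneg h]⟩

/-- The partition map. -/
def π : X → X → D := Quotient.map₂ (fun a b => (b.1 - a.1, 2 ^ (-a.1) * (b.2 - a.2))) (by
  rintro a a' ⟨h1, n, hn⟩ b b' ⟨h2, m, hm⟩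
  refine ⟨by dsimp only; omega, ?_⟩
  dsimp only
  obtain ⟨r, hr⟩ := zpow_nonneg_int (a := b.1 - a.1 - min 0 (b.1 - a.1)) (by omega)
  obtain ⟨s, hs⟩ := zpow_nonneg_int (a := - min 0 (b.1 - a.1)) (by omega)
  refine ⟨r * m - s * n, ?_⟩
  have e1 : (2 : ℚ) ^ (min 0 (b.1 - a.1)) * r = 2 ^ (-a.1) * 2 ^ b.1 := by
    rw [← hr, ← zpow_add₀ two_ne_zero, ← zpow_add₀ two_ne_zero]
    congr 1
    ring
  have e2 : (2 : ℚ) ^ (min 0 (b.1 - a.1)) * s = 2 ^ (-a.1) * 2 ^ a.1 := by
    rw [← hs, ← zpow_add₀ two_ne_zero, ← zpow_add₀ two_ne_zero]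
    congr 1
    ring
  push_cast
  have e3 : (2 : ℚ) ^ (min 0 (b.1 - a.1)) * (r * m - s * n) =
      2 ^ (-a.1) * (2 ^ b.1 * m) - 2 ^ (-a.1) * (2 ^ a.1 * n) := by
    linear_combination (m : ℚ) * e1 - (n : ℚ) * e2
  rw [e3, ← hm, ← hn, ← h1]
  ring)

theorem π_mk (a b : ℤ × ℚ) : π (Quotient.mk rX a) (Quotient.mk rX b) =
    Quotient.mk rD (b.1 - a.1, 2 ^ (-a.1) * (b.2 - a.2)) := rfl

/-- The involution. -/
def inv : D → D := Quotient.map (fun a => (-a.1, -(2 ^ (-a.1) * a.2))) (by
  rintro a b ⟨h1, n, hn⟩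
  refine ⟨by dsimp only; omega, -n, ?_⟩
  dsimp only
  have e : (2 : ℚ) ^ (min 0 (-a.1)) = 2 ^ (-a.1) * 2 ^ (min 0 a.1) :=
    zpow_split (by omega)
  rw [e, ← h1]
  push_cast
  linear_combination -(2 : ℚ) ^ (-a.1) * hn)

theorem inv_mk (a : ℤ × ℚ) : inv (Quotient.mk rD a) = Quotient.mk rD (-a.1, -(2 ^ (-a.1) * a.2)) :=
  rfl

/-- The automorphisms. -/
def move (t : ℤ) (c : ℚ) : X → X := Quotient.map (fun a => (a.1 + t, 2 ^ t * a.2 + c)) (by
  rintro a b ⟨h1, n, hn⟩
  refine ⟨by dsimp only; omega, n, ?_⟩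
  dsimp only
  rw [zpow_split (rfl : a.1 + t = a.1 + t)]
  linear_combination (2 : ℚ) ^ t * hn)

theorem move_mk (t : ℤ) (c : ℚ) (a : ℤ × ℚ) : move t c (Quotient.mk rX a) =
    Quotient.mk rX (a.1 + t, 2 ^ t * a.2 + c) := rfl

theorem move_move (t s : ℤ) (c d : ℚ) (x : X) : move t c (move s d x) =
    move (t + s) (2 ^ t * d + c) x := by
  induction x using Quotient.ind with
  | _ a =>
    rw [move_mk, move_mk, move_mk, zpow_split (rfl : t + s = t + s)]
    congr 2
    · ring
    · ring

theorem move_zero (x : X) : move 0 0 x = x := by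
  induction x using Quotient.ind with
  | _ a =>
    rw [move_mk]
    congr 1
    ext <;> simp

/-- The automorphisms as permutations. -/
def moveEquiv (t : ℤ) (c : ℚ) : X ≃ X where
  toFun := move t c
  invFun := move (-t) (-(2 ^ (-t) * c))
  left_inv x := by
    rw [move_move]
    have h1 : -t + t = 0 := by ring
    have h2 : (2 : ℚ) ^ (-t) * c + -(2 ^ (-t) * c) = 0 := by ring
    rw [h1, h2, move_zero]
  right_inv x := by
    rw [move_move]
    have h1 : t + -t = 0 := by ring
    have h2 : (2 : ℚ) ^ t * -(2 ^ (-t) * c) + c = 0 := by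
      have : (2 : ℚ) ^ t * 2 ^ (-t) = 1 := by
        rw [← zpow_add₀ two_ne_zero]; simp
      linear_combination -c * this
    rw [h1, h2, move_zero]

theorem moveEquiv_apply (t : ℤ) (c : ℚ) (x : X) : moveEquiv t c x = move t c x := rfl

theorem move_π (t : ℤ) (c : ℚ) (x y : X) : π (move t c x) (move t c y) = π x y := by
  induction x using Quotient.ind with
  | _ a =>
    induction y using Quotient.ind with
    | _ b =>
      rw [move_mk, move_mk, π_mk, π_mk]
      congr 2
      · ring
      · dsimp only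
        rw [zpow_split (by ring : -(a.1 + t) = -a.1 + -t)]
        have : (2 : ℚ) ^ t * 2 ^ (-t) = 1 := by
          rw [← zpow_add₀ two_ne_zero]; simp
        linear_combination (2 : ℚ) ^ (-a.1) * (b.2 - a.2) * this

/-- The base point. -/
def x₀ : X := Quotient.mk rX (0, 0)

theorem π_x₀ (b : ℤ × ℚ) : π x₀ (Quotient.mk rX b) = Quotient.mk rD b := by
  unfold x₀
  rw [π_mk]
  congr 1
  ext <;> simp

theorem swap (x y : X) : π y x = inv (π x y) := by
  induction x using Quotient.ind with
  | _ a =>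
    induction y using Quotient.ind with
    | _ b =>
      rw [π_mk, π_mk, inv_mk]
      congr 2
      · dsimp only; ring
      · dsimp only
        have : (2 : ℚ) ^ (-b.1) = 2 ^ (-(b.1 - a.1)) * 2 ^ (-a.1) := zpow_split (by ring)
        rw [this]
        ring

theorem inv_inv (d : D) : inv (inv d) = d := by
  induction d using Quotient.ind with
  | _ a =>
    rw [inv_mk, inv_mk]
    congr 1
    ext
    · simp
    · dsimp only
      have : (2 : ℚ) ^ (- -a.1) * 2 ^ (-a.1) = 1 := by
        rw [← zpow_add₀ two_ne_zero]; simp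
      linear_combination a.2 * this

theorem diag (x y : X) : π x y = Quotient.mk rD (0, 0) ↔ x = y := by
  induction x using Quotient.ind with
  | _ a =>
    induction y using Quotient.ind with
    | _ b =>
      rw [π_mk, rD_iff, rX_iff]
      dsimp only
      have h1 : (2 : ℚ) ^ a.1 * 2 ^ (-a.1) = 1 := by
        rw [← zpow_add₀ two_ne_zero]; simp
      constructor
      · rintro ⟨h, n, hn⟩
        refine ⟨by omega, -n, ?_⟩
        rw [h] at hn
        simp only [min_self, zpow_zero, one_mul] at hn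
        push_cast
        linear_combination (-(2 : ℚ) ^ a.1) * hn - (b.2 - a.2) * h1
      · rintro ⟨h, n, hn⟩
        refine ⟨by omega, -n, ?_⟩
        have h2 : b.1 - a.1 = 0 := by omega
        rw [h2]
        simp only [min_self, zpow_zero, one_mul]
        rw [hn]
        push_cast
        linear_combination (-(n : ℚ)) * h1

theorem homogeneous (x y x' y' : X) (h : π x y = π x' y') : ∃ φ : X ≃ X,
    (∀ u v, π (φ u) (φ v) = π u v) ∧ φ x = x' ∧ φ y = y' := by
  induction x using Quotient.ind with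
  | _ a =>
    induction y using Quotient.ind with
    | _ b =>
      induction x' using Quotient.ind with
      | _ a' =>
        induction y' using Quotient.ind with
        | _ b' =>
          rw [π_mk, π_mk, rD_iff] at h
          dsimp only at h
          obtain ⟨h1, n, hn⟩ := h
          -- the integer `m`
          obtain ⟨m, r, hmr⟩ : ∃ m r : ℤ, (m : ℚ) - 2 ^ (min 0 (b.1 - a.1)) * n =
              2 ^ (b.1 - a.1) * r := by
            rcases le_total (b.1 - a.1) 0 with h | h
            · refine ⟨0, -n, ?_⟩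
              rw [min_eq_right h]
              push_cast
              ring
            · refine ⟨n, 0, ?_⟩
              rw [min_eq_left h]
              simp
          set t := a'.1 - a.1 with ht
          set s : ℚ := a'.2 - 2 ^ t * a.2 + 2 ^ a'.1 * m with hs
          refine ⟨moveEquiv t s, fun u v => move_π t s u v, ?_, ?_⟩
          · rw [moveEquiv_apply, move_mk, rX_iff]
            refine ⟨by dsimp only; omega, -m, ?_⟩
            dsimp only
            have e : a.1 + t = a'.1 := by omega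
            rw [e, hs]
            push_cast
            ring
          · rw [moveEquiv_apply, move_mk, rX_iff]
            refine ⟨by dsimp only; omega, -r, ?_⟩
            dsimp only
            have e : b.1 + t = b'.1 := by omega
            rw [e, hs]
            have e1 : (2 : ℚ) ^ b'.1 = 2 ^ a'.1 * 2 ^ (b.1 - a.1) := zpow_split (by omega)
            have e2 : (2 : ℚ) ^ a'.1 * 2 ^ (-a.1) = 2 ^ t := (zpow_split (by omega)).symm
            have e3 : (2 : ℚ) ^ a'.1 * 2 ^ (-a'.1) = 1 := by
              rw [← zpow_add₀ two_ne_zero]; simp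
            rw [e1]
            push_cast
            linear_combination (2 : ℚ) ^ a'.1 * hn - (2 : ℚ) ^ a'.1 * hmr +
              (b.2 - a.2) * e2 - (b'.2 - a'.2) * e3

/-- The number of elements of a class. -/
theorem card_cls (l : ℤ) (u : ℚ) :
    Nat.card {w // π x₀ w = Quotient.mk rD (l, u)} = 2 ^ l.toNat := by
  have hml : (2 : ℚ) ^ (min 0 l) * 2 ^ l.toNat = 2 ^ l := by
    rw [← zpow_natCast, ← zpow_add₀ two_ne_zero]
    congr 1
    omega
  have h1 : Function.Bijective (fun n : Fin (2 ^ l.toNat) =>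
      (⟨Quotient.mk rX (l, u + 2 ^ (min 0 l) * (n : ℕ)), by
        rw [π_x₀, rD_iff]
        exact ⟨rfl, -((n : ℕ) : ℤ), by push_cast; ring⟩⟩ :
        {w // π x₀ w = Quotient.mk rD (l, u)})) := by
    constructor
    · intro n m h
      have h2 := congrArg Subtype.val h
      dsimp only at h2
      rw [rX_iff] at h2
      obtain ⟨_, k, hk⟩ := h2
      dsimp only at hk
      rw [← hml] at hk
      have h3 : (2 : ℚ) ^ (min 0 l) ≠ 0 := by positivity
      have h4 : ((m : ℕ) : ℚ) - (n : ℕ) = 2 ^ l.toNat * k := by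
        apply mul_left_cancel₀ h3
        linear_combination hk
      have h5 : ((m : ℕ) : ℤ) - (n : ℕ) = 2 ^ l.toNat * k := by exact_mod_cast h4
      have h6 : ((n : ℕ) : ℤ) ≡ (m : ℕ) [ZMOD ((2 ^ l.toNat : ℕ) : ℤ)] := by
        rw [Int.modEq_iff_dvd]
        exact ⟨k, by rw [h5]; push_cast; ring⟩
      rw [Int.natCast_modEq_iff] at h6
      have h7 := Nat.ModEq.eq_of_lt_of_lt h6 n.2 m.2
      exact Fin.ext h7
    · rintro ⟨w, hw⟩
      induction w using Quotient.ind with
      | _ b =>
        have hw' := hw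
        rw [π_x₀, rD_iff] at hw'
        obtain ⟨h2, N, hN⟩ := hw'
        dsimp only at h2 hN
        have hpos : (0 : ℤ) < ((2 ^ l.toNat : ℕ) : ℤ) := by positivity
        have h3 := Int.emod_nonneg (-N) hpos.ne'
        have h4 := Int.emod_lt_of_pos (-N) hpos
        refine ⟨⟨((-N) % ((2 ^ l.toNat : ℕ) : ℤ)).toNat, by omega⟩, ?_⟩
        apply Subtype.ext
        dsimp only
        rw [rX_iff]
        refine ⟨h2.symm, (-N) / ((2 ^ l.toNat : ℕ) : ℤ), ?_⟩
        dsimp only
        have h5 : ((((-N) % ((2 ^ l.toNat : ℕ) : ℤ)).toNat : ℕ) : ℚ) =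
            ((-N) % ((2 ^ l.toNat : ℕ) : ℤ) : ℤ) := by
          rw [← Int.cast_natCast, Int.toNat_of_nonneg h3]
        have h6 : ((-N : ℤ) : ℚ) = (((-N) % ((2 ^ l.toNat : ℕ) : ℤ) : ℤ) : ℚ) +
            2 ^ l.toNat * (((-N) / ((2 ^ l.toNat : ℕ) : ℤ) : ℤ) : ℚ) := by
          have := Int.emod_add_mul_ediv (-N) ((2 ^ l.toNat : ℕ) : ℤ)
          exact_mod_cast this.symm
        rw [h5]
        push_cast at h6 ⊢
        rw [h2] at hN
        linear_combination (-1 : ℚ) * hN + (2 : ℚ) ^ (min 0 l) * h6 +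
          ((-N / 2 ^ l.toNat : ℤ) : ℚ) * hml
  rw [← Nat.card_eq_of_bijective _ h1, Nat.card_fin]

theorem finite_cls (x : X) (d : D) : {y | π x y = d}.Finite := by
  obtain ⟨φ, hφ, h1, _⟩ := homogeneous x x x₀ x₀ (by rw [(diag x x).2 rfl, (diag _ _).2 rfl])
  have h2 : Finite {w // π x₀ w = d} := by
    induction d using Quotient.ind with
    | _ a =>
      apply Nat.finite_of_card_ne_zero
      rw [card_cls]
      positivity
  have h3 : {y | π x y = d} = φ ⁻¹' {w | π x₀ w = d} := by
    ext y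
    change π x y = d ↔ π x₀ (φ y) = d
    rw [← h1, hφ]
  rw [h3]
  exact Set.Finite.preimage φ.injective.injOn h2

/-- The homogeneous partition. -/
noncomputable def homog : Homog π where
  e := Quotient.mk rD (0, 0)
  inv := inv
  ω := Quotient.lift (fun a => (2 : ℝ) ^ (-a.1)) (by
    rintro a b ⟨h, _⟩
    rw [h])
  x₀ := x₀
  diag := diag
  swap := swap
  inv_inv := inv_inv
  surj x d := by
    induction x using Quotient.ind with
    | _ a =>
      induction d using Quotient.ind with
      | _ b =>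
        refine ⟨Quotient.mk rX (b.1 + a.1, 2 ^ a.1 * b.2 + a.2), ?_⟩
        rw [π_mk]
        congr 1
        have h1 : (2 : ℚ) ^ (-a.1) * 2 ^ a.1 = 1 := by
          rw [← zpow_add₀ two_ne_zero]; simp
        ext
        · simp
        · dsimp only
          linear_combination b.2 * h1
  fin := finite_cls
  hom := homogeneous
  pos x := by
    induction x using Quotient.ind with
    | _ a =>
      change 0 < (2 : ℝ) ^ (-a.1)
      positivity
  rel x y := by
    induction x using Quotient.ind with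
    | _ a =>
      induction y using Quotient.ind with
      | _ b =>
        change (2 : ℝ) ^ (-a.1) * _ = (2 : ℝ) ^ (-b.1) * _
        rw [π_mk, π_mk, card_cls, card_cls]
        push_cast
        rw [← zpow_natCast, ← zpow_natCast, ← zpow_add₀ two_ne_zero, ← zpow_add₀ two_ne_zero]
        congr 1
        omega

/-- The CAS. -/
noncomputable def scheme : CAS π := homog.cas

theorem scheme_T1 : scheme.T1 := homog.cas_T1

/-- No CAS with this partition map has (T2). -/
theorem not_T2 (S : CAS π) : ¬ S.T2 := by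
  intro h
  have h1 := T2_card S h x₀ (Quotient.mk rX (1, 0))
  rw [π_x₀, card_cls, show π (Quotient.mk rX (1, 0)) x₀ =
    Quotient.mk rD (0 - 1, 2 ^ (-(1 : ℤ)) * (0 - 0)) from rfl, card_cls] at h1
  simp at h1

end Pool.Agent.Q23.Cas.Example
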