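import Mathlib

/-!
# Cones in abelian groups invariant under a commuting set of endomorphisms
-/

namespace Q23Cvx

theorem lemmaO {U : Type*} [CommGroup U] (N : Subgroup U) (Φ : Set (U →* U))
    (hid : ∃ r ∈ Φ, ∀ u, r u = u)
    (hmul : ∀ p ∈ Φ, ∀ q ∈ Φ, ∃ r ∈ Φ, ∀ u, r u = p u * q u)
    (hcomp : ∀ p ∈ Φ, ∀ q ∈ Φ, ∃ r ∈ Φ, ∀ u, r u = p (q u))
    (hcomm : ∀ p ∈ Φ, ∀ q ∈ Φ, ∀ u, p (q u) = q (p u))
    (hN : ∀ p ∈ Φ, ∀ u, p u ∈ N ↔ u ∈ N) :
    ∃ C : Set U, (∀ a ∈ C, ∀ b ∈ C, a * b ∈ C) ∧ (∀ p ∈ Φ, ∀ a ∈ C, p a ∈ C) ∧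
      (∀ a ∈ C, a ∉ N) ∧ (∀ u, u ∈ N ∨ u ∈ C ∨ u⁻¹ ∈ C) := by
  classical
  let S : Set (Set U) := {C | (N : Set U) ⊆ C ∧ (∀ a ∈ C, ∀ b ∈ C, a * b ∈ C) ∧
    (∀ p ∈ Φ, ∀ a ∈ C, p a ∈ C) ∧ (∀ a ∈ C, a⁻¹ ∈ C → a ∈ N)}
  have hNS : (N : Set U) ∈ S := by
    refine ⟨subset_rfl, fun a ha b hb => N.mul_mem ha hb, fun p hp a ha => (hN p hp a).2 ha,
      fun a ha _ => ha⟩
  obtain ⟨C, hNC, hmax⟩ := zorn_subset_nonempty S (by
    intro c hc hchain hne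
    obtain ⟨c0, hc0⟩ := hne
    refine ⟨⋃₀ c, ⟨?_, ?_, ?_, ?_⟩, fun s hs => Set.subset_sUnion_of_mem hs⟩
    · exact fun x hx => ⟨c0, hc0, (hc hc0).1 hx⟩
    · rintro a ⟨s, hs, ha⟩ b ⟨t, ht, hb⟩
      rcases hchain.total hs ht with h | h
      · exact ⟨t, ht, (hc ht).2.1 a (h ha) b hb⟩
      · exact ⟨s, hs, (hc hs).2.1 a ha b (h hb)⟩
    · rintro p hp a ⟨s, hs, ha⟩
      exact ⟨s, hs, (hc hs).2.2.1 p hp a ha⟩
    · rintro a ⟨s, hs, ha⟩ ⟨t, ht, hb⟩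
      rcases hchain.total hs ht with h | h
      · exact (hc ht).2.2.2 a (h ha) hb
      · exact (hc hs).2.2.2 a ha (h hb)) (N : Set U) hNS
  obtain ⟨hC1, hC2, hC3, hC4⟩ := hmax.prop
  have key : ∀ w, w ∉ C → ∃ q ∈ Φ, (q w)⁻¹ ∈ C := by
    intro w hw
    by_contra hcon
    push Not at hcon
    let C' : Set U := C ∪ {u | ∃ c ∈ C, ∃ p ∈ Φ, u = c * p w}
    have hC'S : C' ∈ S := by
      refine ⟨hC1.trans Set.subset_union_left, ?_, ?_, ?_⟩
      · rintro a (ha | ⟨c, hc, p, hp, rfl⟩) b (hb | ⟨d, hd, q, hq, rfl⟩)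
        · exact Or.inl (hC2 a ha b hb)
        · exact Or.inr ⟨a * d, hC2 a ha d hd, q, hq, by rw [mul_assoc]⟩
        · exact Or.inr ⟨c * b, hC2 c hc b hb, p, hp, by rw [mul_assoc, mul_assoc, mul_comm b]⟩
        · obtain ⟨r, hr, hr'⟩ := hmul p hp q hq
          exact Or.inr ⟨c * d, hC2 c hc d hd, r, hr, by
            rw [hr', mul_assoc, mul_assoc, mul_left_comm d]⟩
      · rintro q hq a (ha | ⟨c, hc, p, hp, rfl⟩)
        · exact Or.inl (hC3 q hq a ha)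
        · obtain ⟨r, hr, hr'⟩ := hcomp q hq p hp
          exact Or.inr ⟨q c, hC3 q hq c hc, r, hr, by rw [hr', map_mul]⟩
      · rintro a (ha | ⟨c, hc, p, hp, rfl⟩) (hb | ⟨d, hd, q, hq, hdq⟩)
        · exact hC4 a ha hb
        · exfalso
          refine hcon q hq ?_
          have : (q w)⁻¹ = a * d := by
            have h1 : a * (d * q w) = 1 := by rw [← hdq]; simp
            rw [inv_eq_iff_eq_inv]
            rw [← mul_assoc] at h1
            exact (inv_eq_of_mul_eq_one_right h1).symm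
          rw [this]; exact hC2 a ha d hd
        · exfalso
          refine hcon p hp ?_
          have : (p w)⁻¹ = c * (c * p w)⁻¹ := by simp
          rw [this]; exact hC2 c hc _ hb
        · exfalso
          obtain ⟨r, hr, hr'⟩ := hmul p hp q hq
          refine hcon r hr ?_
          have : (r w)⁻¹ = c * d := by
            rw [hr']
            have h1 : (c * p w) * (d * q w) = 1 := by rw [← hdq]; simp
            rw [inv_eq_iff_eq_inv]
            have h2 : (c * d) * (p w * q w) = 1 := by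
              rw [← h1]; rw [mul_assoc, mul_assoc, mul_left_comm d]
            exact (inv_eq_of_mul_eq_one_right h2).symm
          rw [this]; exact hC2 c hc d hd
    have hsub : C' ⊆ C := hmax.le_of_ge hC'S Set.subset_union_left
    obtain ⟨r, hr, hr'⟩ := hid
    exact hw (hsub (Or.inr ⟨1, hC1 N.one_mem, r, hr, by rw [hr', one_mul]⟩))
  have htot : ∀ w, w ∈ C ∨ w⁻¹ ∈ C := by
    intro w
    by_contra hcon
    push Not at hcon
    obtain ⟨q, hq, h1⟩ := key w hcon.1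
    obtain ⟨q', hq', h2⟩ := key w⁻¹ hcon.2
    rw [map_inv, inv_inv] at h2
    have h3 := hC3 q hq _ h2
    have h4 := hC3 q' hq' _ h1
    rw [map_inv, hcomm q' hq' q hq] at h4
    have h5 := hC4 _ h3 h4
    exact hcon.1 (hC1 ((hN q' hq' w).1 ((hN q hq _).1 h5)))
  refine ⟨C \ N, ?_, ?_, fun a ha => ha.2, ?_⟩
  · rintro a ⟨ha, ha'⟩ b ⟨hb, hb'⟩
    refine ⟨hC2 a ha b hb, fun hab => ha' (hC4 a ha ?_)⟩
    have : a⁻¹ = b * (a * b)⁻¹ := by simp
    rw [this]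
    exact hC2 b hb _ (hC1 (N.inv_mem hab))
  · rintro p hp a ⟨ha, ha'⟩
    exact ⟨hC3 p hp a ha, fun h => ha' ((hN p hp a).1 h)⟩
  · intro u
    by_cases hu : u ∈ N
    · exact Or.inl hu
    · refine Or.inr ?_
      rcases htot u with h | h
      · exact Or.inl ⟨h, hu⟩
      · exact Or.inr ⟨h, fun h' => hu (by simpa using N.inv_mem h')⟩

end Q23Cvx
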