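import Mathlib
import Pool.Agent.Q23.CvxO

/-!
# Relative cones, isolators, and the cone on `D / [D, D]`
-/

namespace Q23Cvx

variable {G : Type*} [Group G]

/-- `P` is the positive cone of a bi-invariant order on `G / M` (pulled back to `G`). -/
structure RelCone (M : Subgroup G) (P : Set G) : Prop where
  mul : ∀ a ∈ P, ∀ b ∈ P, a * b ∈ P
  conj : ∀ g, ∀ a ∈ P, g * a * g⁻¹ ∈ P
  tri : ∀ a, a ∈ M ∨ a ∈ P ∨ a⁻¹ ∈ P
  nmem : ∀ a ∈ P, a ∉ M

theorem RelCone.mul_left {M : Subgroup G} {P : Set G} (h : RelCone M P) {m a : G}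
    (hm : m ∈ M) (ha : a ∈ P) : m * a ∈ P := by
  rcases h.tri (m * a) with h1 | h1 | h1
  · exact absurd ((M.mul_mem_cancel_left hm).1 h1) (h.nmem a ha)
  · exact h1
  · have h2 := h.mul a ha _ h1
    have h3 : a * (m * a)⁻¹ = m⁻¹ := by group
    rw [h3] at h2
    exact absurd (M.inv_mem hm) (h.nmem _ h2)

theorem RelCone.mul_right {M : Subgroup G} {P : Set G} (h : RelCone M P) {m a : G}
    (hm : m ∈ M) (ha : a ∈ P) : a * m ∈ P := by
  rcases h.tri (a * m) with h1 | h1 | h1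
  · exact absurd ((M.mul_mem_cancel_right hm).1 h1) (h.nmem a ha)
  · exact h1
  · have h2 := h.mul _ h1 a ha
    have h3 : (a * m)⁻¹ * a = m⁻¹ := by group
    rw [h3] at h2
    exact absurd (M.inv_mem hm) (h.nmem _ h2)

theorem RelCone.comap {Q : Type*} [Group Q] {M : Subgroup Q} {P : Set Q} (h : RelCone M P)
    (f : G →* Q) : RelCone (M.comap f) (f ⁻¹' P) where
  mul a ha b hb := by
    simp only [Set.mem_preimage, map_mul] at *
    exact h.mul _ ha _ hb
  conj g a ha := by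
    simp only [Set.mem_preimage, map_mul, map_inv] at *
    exact h.conj _ _ ha
  tri a := by
    simp only [Set.mem_preimage, map_inv, Subgroup.mem_comap]
    exact h.tri _
  nmem a ha := by
    simp only [Set.mem_preimage, Subgroup.mem_comap] at *
    exact h.nmem _ ha

theorem RelCone.quot {N : Subgroup G} [N.Normal] {P : Set G} (h : RelCone N P) :
    ∃ P' : Set (G ⧸ N), RelCone (⊥ : Subgroup (G ⧸ N)) P' := by
  refine ⟨{q | ∃ a ∈ P, (QuotientGroup.mk a : G ⧸ N) = q}, ?_, ?_, ?_, ?_⟩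
  · rintro _ ⟨a, ha, rfl⟩ _ ⟨b, hb, rfl⟩
    exact ⟨a * b, h.mul a ha b hb, rfl⟩
  · rintro g _ ⟨a, ha, rfl⟩
    obtain ⟨g, rfl⟩ := QuotientGroup.mk_surjective g
    exact ⟨g * a * g⁻¹, h.conj g a ha, rfl⟩
  · intro q
    obtain ⟨a, rfl⟩ := QuotientGroup.mk_surjective q
    rcases h.tri a with h1 | h1 | h1
    · left
      rw [Subgroup.mem_bot]
      exact (QuotientGroup.eq_one_iff a).2 h1
    · exact Or.inr (Or.inl ⟨a, h1, rfl⟩)
    · exact Or.inr (Or.inr ⟨a⁻¹, h1, rfl⟩)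
  · rintro _ ⟨a, ha, rfl⟩ h1
    rw [Subgroup.mem_bot] at h1
    exact h.nmem a ha ((QuotientGroup.eq_one_iff a).1 h1)

/-- A bi-invariant order from a positive cone. -/
theorem exists_order (Pos : Set G) (h1 : 1 ∈ Pos) (hmul : ∀ a ∈ Pos, ∀ b ∈ Pos, a * b ∈ Pos)
    (hanti : ∀ a ∈ Pos, a⁻¹ ∈ Pos → a = 1)
    (htot : ∀ a, a ∈ Pos ∨ a⁻¹ ∈ Pos) :
    ∃ lo : LinearOrder G, (∀ a b : G, lo.le a b ↔ a⁻¹ * b ∈ Pos) := by
  classical
  refine ⟨{ le := fun a b => a⁻¹ * b ∈ Pos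
            le_refl := ?_
            le_trans := ?_
            le_antisymm := ?_
            le_total := ?_
            toDecidableLE := Classical.decRel _ }, fun a b => Iff.rfl⟩
  · intro a
    simpa using h1
  · intro a b c hab hbc
    have := hmul _ hab _ hbc
    simpa [mul_assoc] using this
  · intro a b hab hba
    have := hanti _ hab (by simpa using hba)
    exact (inv_mul_eq_one.1 this)
  · intro a b
    have := htot (a⁻¹ * b)
    simpa using this

theorem biorder_of_pos {Pos : Set G} (hconj : ∀ g, ∀ a ∈ Pos, g * a * g⁻¹ ∈ Pos)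
    (lo : LinearOrder G) (hlo : ∀ a b : G, lo.le a b ↔ a⁻¹ * b ∈ Pos) :
    (∀ a b c : G, lo.le a b → lo.le (c * a) (c * b)) ∧
      (∀ a b c : G, lo.le a b → lo.le (a * c) (b * c)) := by
  constructor
  · intro a b c hab
    rw [hlo] at *
    simpa [mul_assoc] using hab
  · intro a b c hab
    rw [hlo] at *
    have := hconj c⁻¹ _ hab
    simpa [mul_assoc] using this

/-- From a two-sided order and a relative cone for `M` one gets a two-sided order making `M`
convex. -/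
theorem order_of_relCone [lo : LinearOrder G] [MulLeftMono G] [MulRightMono G]
    (M : Subgroup G) [hM : M.Normal] {P : Set G} (h : RelCone M P) :
    ∃ lo' : LinearOrder G, ((∀ a b c : G, lo'.le a b → lo'.le (c * a) (c * b)) ∧
      (∀ a b c : G, lo'.le a b → lo'.le (a * c) (b * c))) ∧
      ∀ h₁ ∈ M, ∀ h₂ ∈ M, ∀ g, lo'.le h₁ g → lo'.le g h₂ → g ∈ M := by
  let Pos : Set G := {x | x ∈ P ∨ (x ∈ M ∧ 1 ≤ x)}
  have hconj : ∀ g, ∀ a ∈ Pos, g * a * g⁻¹ ∈ Pos := by
    rintro g a (ha | ⟨ha, ha'⟩)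
    · exact Or.inl (h.conj g a ha)
    · refine Or.inr ⟨hM.conj_mem a ha g, ?_⟩
      have : g * 1 * g⁻¹ ≤ g * a * g⁻¹ := by gcongr
      simpa using this
  obtain ⟨lo', hlo'⟩ := exists_order Pos (Or.inr ⟨M.one_mem, le_rfl⟩) (by
      rintro a (ha | ⟨ha, ha'⟩) b (hb | ⟨hb, hb'⟩)
      · exact Or.inl (h.mul a ha b hb)
      · exact Or.inl (h.mul_right hb ha)
      · exact Or.inl (h.mul_left ha hb)
      · exact Or.inr ⟨M.mul_mem ha hb, one_le_mul ha' hb'⟩) (by
      rintro a (ha | ⟨ha, ha'⟩) (hb | ⟨hb, hb'⟩)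
      · exact absurd (h.mul a ha _ hb) (fun h' => h.nmem _ h' (by simp))
      · exact absurd (by simpa using M.inv_mem hb) (h.nmem a ha)
      · exact absurd (M.inv_mem ha) (h.nmem _ hb)
      · exact le_antisymm (by simpa using hb') ha') (by
      intro a
      rcases h.tri a with h1 | h1 | h1
      · rcases le_total 1 a with h2 | h2
        · exact Or.inl (Or.inr ⟨h1, h2⟩)
        · exact Or.inr (Or.inr ⟨M.inv_mem h1, by simpa using h2⟩)
      · exact Or.inl (Or.inl h1)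
      · exact Or.inr (Or.inl h1))
  refine ⟨lo', biorder_of_pos hconj lo' hlo', ?_⟩
  intro h₁ hh₁ h₂ hh₂ g h1 h2
  rw [hlo'] at h1 h2
  by_contra hg
  have h1' : h₁⁻¹ * g ∈ P := by
    rcases h1 with h1 | ⟨h1, _⟩
    · exact h1
    · exact absurd ((M.mul_mem_cancel_left (M.inv_mem hh₁)).1 h1) hg
  have h2' : g⁻¹ * h₂ ∈ P := by
    rcases h2 with h2 | ⟨h2, _⟩
    · exact h2
    · exact absurd ((M.mul_mem_cancel_right hh₂).1 h2) (fun h' => hg (by simpa using M.inv_mem h'))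
  have h3 := h.mul _ h1' _ h2'
  refine h.nmem _ h3 ?_
  have : h₁⁻¹ * g * (g⁻¹ * h₂) = h₁⁻¹ * h₂ := by group
  rw [this]
  exact M.mul_mem (M.inv_mem hh₁) hh₂

theorem relCone_of_convex [LinearOrder G] [MulLeftMono G] [MulRightMono G]
    (M : Subgroup G) [hM : M.Normal] (hconv : ∀ x y : G, 1 ≤ x → x ≤ y → y ∈ M → x ∈ M) :
    RelCone M {a | 1 < a ∧ a ∉ M} where
  mul := by
    rintro a ⟨ha, ha'⟩ b ⟨hb, hb'⟩
    refine ⟨one_lt_mul' ha hb, fun h => ha' (hconv a (a * b) ha.le ?_ h)⟩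
    exact le_mul_of_one_le_right' hb.le
  conj := by
    rintro g a ⟨ha, ha'⟩
    refine ⟨?_, fun h => ha' ?_⟩
    · have : g * 1 * g⁻¹ < g * a * g⁻¹ := by gcongr
      simpa using this
    · have := hM.conj_mem _ h g⁻¹
      simpa [mul_assoc] using this
  tri := by
    intro a
    by_cases ha : a ∈ M
    · exact Or.inl ha
    · refine Or.inr ?_
      rcases lt_trichotomy 1 a with h | h | h
      · exact Or.inl ⟨h, ha⟩
      · exact absurd (h ▸ M.one_mem) ha
      · exact Or.inr ⟨by simpa using h, fun h' => ha (by simpa using M.inv_mem h')⟩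
  nmem := by
    rintro a ⟨_, ha⟩
    exact ha

theorem order_of_bot {P : Set G} (h : RelCone (⊥ : Subgroup G) P) :
    ∃ lo : LinearOrder G, (∀ a b c : G, lo.le a b → lo.le (c * a) (c * b)) ∧
      (∀ a b c : G, lo.le a b → lo.le (a * c) (b * c)) := by
  let Pos : Set G := {x | x ∈ P ∨ x = 1}
  have hconj : ∀ g, ∀ a ∈ Pos, g * a * g⁻¹ ∈ Pos := by
    rintro g a (ha | rfl)
    · exact Or.inl (h.conj g a ha)
    · exact Or.inr (by simp)
  obtain ⟨lo, hlo⟩ := exists_order Pos (Or.inr rfl) (by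
    rintro a (ha | rfl) b (hb | rfl)
    · exact Or.inl (h.mul a ha b hb)
    · rw [mul_one]; exact Or.inl ha
    · rw [one_mul]; exact Or.inl hb
    · exact Or.inr (by simp)) (by
    rintro a (ha | rfl) (hb | hb)
    · exact absurd (h.mul a ha _ hb) (fun h' => h.nmem _ h' (by simp))
    · simpa using hb
    · rfl
    · rfl) (by
    intro a
    rcases h.tri a with h1 | h1 | h1
    · exact Or.inl (Or.inr (by simpa using h1))
    · exact Or.inl (Or.inl h1)
    · exact Or.inr (Or.inl h1))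
  exact ⟨lo, biorder_of_pos hconj lo hlo⟩

/-- Isolators of subgroups containing the commutator subgroup have relative cones. -/
theorem exists_isolator (J : Subgroup G) (hJ : commutator G ≤ J) :
    ∃ M : Subgroup G, M.Normal ∧ (∀ g, g ∈ M ↔ ∃ m : ℕ, 1 ≤ m ∧ g ^ m ∈ J) ∧
      ∃ P, RelCone M P := by
  let f : G →* Abelianization G := Abelianization.of
  let J' : Subgroup (Abelianization G) := J.map f
  have hJ' : ∀ g, f g ∈ J' ↔ g ∈ J := by
    intro g
    constructor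
    · rintro ⟨j, hj, hjg⟩
      have h1 : j⁻¹ * g ∈ commutator G := by
        rw [← Abelianization.ker_of, MonoidHom.mem_ker]
        change f (j⁻¹ * g) = 1
        rw [map_mul, map_inv, hjg]
        simp
      have := J.mul_mem hj (hJ h1)
      simpa using this
    · intro hg
      exact ⟨g, hg, rfl⟩
  let N : Subgroup (Abelianization G) :=
    { carrier := {u | ∃ m : ℕ, 1 ≤ m ∧ u ^ m ∈ J'}
      one_mem' := ⟨1, le_rfl, by simp⟩
      mul_mem' := by
        rintro a b ⟨m, hm, ha⟩ ⟨n, hn, hb⟩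
        refine ⟨m * n, Nat.mul_pos hm hn, ?_⟩
        rw [mul_pow, pow_mul, mul_comm m n, pow_mul b]
        exact J'.mul_mem (J'.pow_mem ha n) (J'.pow_mem hb m)
      inv_mem' := by
        rintro a ⟨m, hm, ha⟩
        exact ⟨m, hm, by rw [inv_pow]; exact J'.inv_mem ha⟩ }
  have hN : ∀ u, u ∈ N ↔ ∃ m : ℕ, 1 ≤ m ∧ u ^ m ∈ J' := fun u => Iff.rfl
  let Φ : Set (Abelianization G →* Abelianization G) :=
    {p | ∃ n : ℕ, 1 ≤ n ∧ p = powMonoidHom n}
  obtain ⟨C, hC1, hC2, hC3, hC4⟩ := lemmaO N Φ ⟨powMonoidHom 1, ⟨1, le_rfl, rfl⟩, fun u => by simp⟩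
    (by
      rintro _ ⟨m, hm, rfl⟩ _ ⟨n, hn, rfl⟩
      refine ⟨powMonoidHom (m + n), ⟨m + n, by omega, rfl⟩, fun u => by simp [pow_add]⟩)
    (by
      rintro _ ⟨m, hm, rfl⟩ _ ⟨n, hn, rfl⟩
      refine ⟨powMonoidHom (n * m), ⟨n * m, Nat.mul_pos hn hm, rfl⟩, fun u => by simp [pow_mul]⟩)
    (by
      rintro _ ⟨m, hm, rfl⟩ _ ⟨n, hn, rfl⟩ u
      simp [← pow_mul, mul_comm])
    (by
      rintro _ ⟨n, hn, rfl⟩ u
      rw [hN, hN]
      constructor
      · rintro ⟨m, hm, h⟩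
        refine ⟨n * m, Nat.mul_pos hn hm, ?_⟩
        simpa [pow_mul] using h
      · rintro ⟨m, hm, h⟩
        refine ⟨m, hm, ?_⟩
        simp only [powMonoidHom_apply]
        rw [← pow_mul, mul_comm, pow_mul]
        exact J'.pow_mem h n)
  refine ⟨N.comap f, inferInstance, ?_, f ⁻¹' C, ?_⟩
  · intro g
    rw [Subgroup.mem_comap, hN]
    simp only [← map_pow, hJ']
  · refine (⟨hC1, ?_, hC4, hC3⟩ : RelCone N C).comap f
    intro g a ha
    have : g * a * g⁻¹ = a := by rw [mul_comm g a]; simp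
    rwa [this]

end Q23Cvx
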