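import Mathlib
import Pool.Agent.Q23.CvxA

/-!
# The cone on `D / [D, D]`
-/

open scoped commutatorElement

namespace Q23Cvx

variable {G : Type*} [Group G]

/-- The product of the conjugates of `h` by the elements of the list `l`. -/
def cprod (l : List G) (h : G) : G := (l.map (fun g => g * h * g⁻¹)).prod

theorem exists_cone_D (D : Subgroup G) [hD : D.Normal] (hcom : ∀ a b : G, ⁅a, b⁆ ∈ D) :
    ∃ (P : Subgroup G) (C : Set G),
      (∀ h, h ∈ P ↔ h ∈ D ∧ ∃ l : List G, l ≠ [] ∧ cprod l h ∈ ⁅D, D⁆) ∧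
      (∀ a ∈ C, a ∈ D) ∧ (∀ a ∈ C, ∀ b ∈ C, a * b ∈ C) ∧ (∀ g, ∀ a ∈ C, g * a * g⁻¹ ∈ C) ∧
      (∀ a ∈ C, a ∉ P) ∧ (∀ a ∈ D, a ∈ P ∨ a ∈ C ∨ a⁻¹ ∈ C) := by
  classical
  let U := Abelianization D
  let f : D →* U := Abelianization.of
  have hf : Function.Surjective f := fun x => QuotientGroup.mk_surjective x
  have hker : ∀ x : D, f x = 1 ↔ (x : G) ∈ ⁅D, D⁆ := by
    intro x
    have h1 : f x = 1 ↔ x ∈ commutator D := by
      rw [← Abelianization.ker_of, MonoidHom.mem_ker]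
    rw [h1, ← D.map_subtype_commutator]
    constructor
    · intro h
      exact ⟨x, h, rfl⟩
    · rintro ⟨y, hy, hyx⟩
      have : y = x := Subtype.ext hyx
      rwa [← this]
  let tw : G → (U →* U) := fun g => Abelianization.map (MulAut.conjNormal g).toMonoidHom
  have htw : ∀ g (x : D), tw g (f x) = f (MulAut.conjNormal g x) := fun g x => rfl
  have htwmul : ∀ g g' u, tw g (tw g' u) = tw (g * g') u := by
    intro g g' u
    obtain ⟨x, rfl⟩ := hf u
    rw [htw, htw, htw, map_mul, MulAut.mul_apply]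
  have htwone : ∀ u, tw 1 u = u := by
    intro u
    obtain ⟨x, rfl⟩ := hf u
    rw [htw, map_one, MulAut.one_apply]
  have htwD : ∀ d ∈ D, ∀ u, tw d u = u := by
    intro d hd u
    obtain ⟨x, rfl⟩ := hf u
    have : (MulAut.conjNormal d x : D) = ⟨d, hd⟩ * x * ⟨d, hd⟩⁻¹ := by
      ext
      simp [MulAut.conjNormal_apply]
    rw [htw, this, map_mul, map_mul, map_inv, mul_comm (f ⟨d, hd⟩)]
    simp
  have htwcomm : ∀ g g' u, tw (g * g') u = tw (g' * g) u := by
    intro g g' u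
    have h1 : g * g' = ⁅g, g'⁆ * (g' * g) := by simp [commutatorElement_def, mul_assoc]
    rw [h1, ← htwmul, htwD _ (hcom g g')]
  let pl : List G → (U →* U) := fun l => (l.map tw).prod
  have hpl : ∀ l u, pl l u = (l.map (fun g => tw g u)).prod := by
    intro l u
    induction l with
    | nil => simp [pl]
    | cons a l ih =>
      simp only [pl, List.map_cons, List.prod_cons, MonoidHom.mul_apply] at ih ⊢
      rw [ih]
  have hplcomp : ∀ l l' u, pl l (pl l' u) = pl (l.flatMap (fun g => l'.map (g * ·))) u := by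
    intro l l' u
    induction l with
    | nil => simp [pl]
    | cons a l ih =>
      have e1 : pl (a :: l) (pl l' u) = tw a (pl l' u) * pl l (pl l' u) := by
        simp [pl]
      have e2 : pl ((a :: l).flatMap (fun g => l'.map (g * ·))) u =
          pl (l'.map (a * ·)) u * pl (l.flatMap (fun g => l'.map (g * ·))) u := by
        simp [pl]
      rw [e1, e2, ih]
      congr 1
      rw [hpl, hpl, map_list_prod, List.map_map, List.map_map]
      congr 1
      apply List.map_congr_left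
      intro g _
      simp [htwmul]
  have hcprod : ∀ l (x : D), ((x : G) ∈ D) → (pl l (f x) = 1 ↔ cprod l (x : G) ∈ ⁅D, D⁆) := by
    intro l x _
    have h1 : pl l (f x) = f ((l.map (fun g => MulAut.conjNormal g x)).prod) := by
      rw [hpl, map_list_prod, List.map_map]
      rfl
    rw [h1, hker]
    have h2 : (((l.map (fun g => (MulAut.conjNormal g x : D))).prod : D) : G) = cprod l (x : G) := by
      unfold cprod
      induction l with
      | nil => simp
      | cons a l ih =>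
        simp only [List.map_cons, List.prod_cons, Subgroup.coe_mul] at ih ⊢
        rw [← D.coe_mul, D.coe_mul] 
        have : (((l.map (fun g => (MulAut.conjNormal g x : D))).prod : D) : G) =
          (l.map (fun g => g * (x : G) * g⁻¹)).prod := by
          apply ih
          rw [hpl, map_list_prod, List.map_map]
          rfl
        rw [this]
        simp [MulAut.conjNormal_apply]
    rw [h2]
  let Φ : Set (U →* U) := {p | ∃ l : List G, l ≠ [] ∧ p = pl l}
  have hΦcomm : ∀ p ∈ Φ, ∀ q ∈ Φ, ∀ u, p (q u) = q (p u) := by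
    rintro _ ⟨l, hl, rfl⟩ _ ⟨l', hl', rfl⟩ u
    have aux : ∀ g l u, tw g (pl l u) = pl l (tw g u) := by
      intro g l u
      rw [hpl, hpl, map_list_prod, List.map_map]
      congr 1
      apply List.map_congr_left
      intro g' _
      simp only [Function.comp]
      rw [htwmul, htwmul, htwcomm]
    clear hl
    induction l with
    | nil => simp [pl]
    | cons a l ih =>
      have e1 : ∀ w, pl (a :: l) w = tw a w * pl l w := by
        intro w; simp [pl]
      rw [e1, e1, map_mul, ih, aux]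
  have hΦcomp : ∀ p ∈ Φ, ∀ q ∈ Φ, ∃ r ∈ Φ, ∀ u, r u = p (q u) := by
    rintro _ ⟨l, hl, rfl⟩ _ ⟨l', hl', rfl⟩
    refine ⟨_, ⟨l.flatMap (fun g => l'.map (g * ·)), ?_, rfl⟩, fun u => (hplcomp l l' u).symm⟩
    intro h
    rw [List.flatMap_eq_nil_iff] at h
    obtain ⟨a, ha⟩ := List.exists_mem_of_ne_nil l hl
    have := h a ha
    rw [List.map_eq_nil_iff] at this
    exact hl' this
  let N : Subgroup U :=
    { carrier := {u | ∃ p ∈ Φ, p u = 1}
      one_mem' := ⟨_, ⟨[1], by simp, rfl⟩, by simp⟩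
      mul_mem' := by
        rintro a b ⟨p, hp, ha⟩ ⟨q, hq, hb⟩
        obtain ⟨r, hr, hr'⟩ := hΦcomp p hp q hq
        refine ⟨r, hr, ?_⟩
        rw [hr', map_mul, hb, mul_one, hΦcomm p hp q hq, ha, map_one]
      inv_mem' := by
        rintro a ⟨p, hp, ha⟩
        exact ⟨p, hp, by rw [map_inv, ha, inv_one]⟩ }
  have hN : ∀ u, u ∈ N ↔ ∃ p ∈ Φ, p u = 1 := fun u => Iff.rfl
  obtain ⟨C, hC1, hC2, hC3, hC4⟩ := lemmaO N Φ
    ⟨_, ⟨[1], by simp, rfl⟩, fun u => by rw [hpl]; simp [htwone]⟩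
    (by
      rintro _ ⟨l, hl, rfl⟩ _ ⟨l', hl', rfl⟩
      refine ⟨_, ⟨l ++ l', by simp [hl], rfl⟩, fun u => by simp [hpl]⟩)
    hΦcomp hΦcomm (by
      intro p hp u
      rw [hN, hN]
      constructor
      · rintro ⟨q, hq, h⟩
        obtain ⟨r, hr, hr'⟩ := hΦcomp q hq p hp
        exact ⟨r, hr, by rw [hr', h]⟩
      · rintro ⟨q, hq, h⟩
        exact ⟨q, hq, by rw [hΦcomm q hq p hp, h, map_one]⟩)
  refine ⟨(N.comap f).map D.subtype, {a | ∃ ha : a ∈ D, f ⟨a, ha⟩ ∈ C}, ?_, ?_, ?_, ?_, ?_, ?_⟩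
  · intro h
    constructor
    · rintro ⟨x, hx, rfl⟩
      refine ⟨x.2, ?_⟩
      obtain ⟨_, ⟨l, hl, rfl⟩, h1⟩ := hx
      exact ⟨l, hl, (hcprod l x x.2).1 h1⟩
    · rintro ⟨hh, l, hl, h1⟩
      exact ⟨⟨h, hh⟩, ⟨_, ⟨l, hl, rfl⟩, (hcprod l ⟨h, hh⟩ hh).2 h1⟩, rfl⟩
  · rintro a ⟨ha, _⟩
    exact ha
  · rintro a ⟨ha, ha'⟩ b ⟨hb, hb'⟩
    refine ⟨D.mul_mem ha hb, ?_⟩
    have : (⟨a * b, D.mul_mem ha hb⟩ : D) = ⟨a, ha⟩ * ⟨b, hb⟩ := rfl
    rw [this, map_mul]
    exact hC1 _ ha' _ hb'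
  · rintro g a ⟨ha, ha'⟩
    refine ⟨hD.conj_mem a ha g, ?_⟩
    have h1 : (⟨g * a * g⁻¹, hD.conj_mem a ha g⟩ : D) = MulAut.conjNormal g ⟨a, ha⟩ := by
      ext
      simp [MulAut.conjNormal_apply]
    rw [h1, ← htw]
    have h2 := hC2 _ ⟨[g], by simp, rfl⟩ _ ha'
    rw [hpl] at h2
    simpa using h2
  · rintro a ⟨ha, ha'⟩ ⟨x, hx, hxa⟩
    have : x = ⟨a, ha⟩ := Subtype.ext hxa
    rw [this] at hx
    exact hC3 _ ha' hx
  · intro a ha
    rcases hC4 (f ⟨a, ha⟩) with h | h | h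
    · exact Or.inl ⟨⟨a, ha⟩, h, rfl⟩
    · exact Or.inr (Or.inl ⟨ha, h⟩)
    · refine Or.inr (Or.inr ⟨D.inv_mem ha, ?_⟩)
      rw [← map_inv] at h
      exact h

end Q23Cvx
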