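import Mathlib
import Pool.Agent.Q23.CvxB

/-!
# Convex hulls of commutator groups `[K, k]`
-/

open scoped commutatorElement

namespace Q23Cvx

variable {G : Type*} [Group G]

/-- `E` is convex (for a subgroup it suffices to look above `1`). -/
def Cv [LE G] (E : Subgroup G) : Prop := ∀ x y : G, 1 ≤ x → x ≤ y → y ∈ E → x ∈ E

/-- `c` acts trivially on `K` modulo `E`. -/
def Triv (K E : Subgroup G) (c : G) : Prop := ∀ x ∈ K, ⁅c, x⁆ ∈ E

theorem triv_mul {K E : Subgroup G} {a b : G} (ha : Triv K E a) (hb : Triv K E b)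
    (hn : ∀ e ∈ E, a * e * a⁻¹ ∈ E) : Triv K E (a * b) := by
  intro x hx
  have : ⁅a * b, x⁆ = (a * ⁅b, x⁆ * a⁻¹) * ⁅a, x⁆ := by
    simp [commutatorElement_def, mul_assoc]
  rw [this]
  exact E.mul_mem (hn _ (hb x hx)) (ha x hx)

theorem triv_inv {K E : Subgroup G} {a : G} (ha : Triv K E a)
    (hn : ∀ e ∈ E, a⁻¹ * e * a ∈ E) : Triv K E a⁻¹ := by
  intro x hx
  have : ⁅a⁻¹, x⁆ = a⁻¹ * ⁅a, x⁆⁻¹ * a := by
    simp [commutatorElement_def, mul_assoc]
  rw [this]
  exact hn _ (E.inv_mem (ha x hx))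

theorem triv_conj {K E : Subgroup G} (hK : K.Normal) {a h : G} (ha : Triv K E a)
    (hn : ∀ e ∈ E, h * e * h⁻¹ ∈ E) : Triv K E (h * a * h⁻¹) := by
  intro x hx
  have : ⁅h * a * h⁻¹, x⁆ = h * ⁅a, h⁻¹ * x * h⁆ * h⁻¹ := by
    simp [commutatorElement_def, mul_assoc]
  rw [this]
  refine hn _ (ha _ ?_)
  simpa using hK.conj_mem x hx h⁻¹

theorem triv_of_comm {K E : Subgroup G} {a : G} (ha : ∀ x ∈ K, a * x = x * a) : Triv K E a := by
  intro x hx
  have : ⁅a, x⁆ = 1 := by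
    rw [commutatorElement_eq_one_iff_mul_comm]
    exact ha x hx
  rw [this]
  exact E.one_mem

theorem triv_mono {K E E' : Subgroup G} (h : E ≤ E') {a : G} (ha : Triv K E a) : Triv K E' a :=
  fun x hx => h (ha x hx)

section Ordered

variable [LinearOrder G] [MulLeftMono G] [MulRightMono G]

theorem conj_le {g x y : G} (h : x ≤ y) : g * x * g⁻¹ ≤ g * y * g⁻¹ := by gcongr

theorem one_le_conj {g x : G} (h : 1 ≤ x) : 1 ≤ g * x * g⁻¹ := by
  have := conj_le (g := g) h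
  simpa using this

theorem conj_le_one {g x : G} (h : x ≤ 1) : g * x * g⁻¹ ≤ 1 := by
  have := conj_le (g := g) h
  simpa using this

theorem triv_pow {K E : Subgroup G} (hE : Cv E) {a : G} {m : ℕ} (hm : 1 ≤ m)
    (ha : Triv K E (a ^ m)) : Triv K E a := by
  intro x hx
  have key : ∀ n : ℕ, ⁅a ^ (n + 1), x⁆ = (a ^ n * ⁅a, x⁆ * (a ^ n)⁻¹) * ⁅a ^ n, x⁆ := by
    intro n
    simp [commutatorElement_def, pow_succ, mul_assoc]
  obtain ⟨n, rfl⟩ : ∃ n, m = n + 1 := ⟨m - 1, by omega⟩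
  rcases le_total 1 ⁅a, x⁆ with h | h
  · have h1 : ∀ n : ℕ, ⁅a, x⁆ ≤ ⁅a ^ (n + 1), x⁆ := by
      intro n
      induction n with
      | zero => simp
      | succ n ih =>
        rw [key]
        exact ih.trans (le_mul_of_one_le_left' (one_le_conj h))
    exact hE _ _ h (h1 n) (ha x hx)
  · have h1 : ∀ n : ℕ, ⁅a ^ (n + 1), x⁆ ≤ ⁅a, x⁆ := by
      intro n
      induction n with
      | zero => simp
      | succ n ih =>
        rw [key]
        exact le_trans (mul_le_of_le_one_left' (conj_le_one h)) ih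
    have h2 := hE ⁅a, x⁆⁻¹ ⁅a ^ (n + 1), x⁆⁻¹ (one_le_inv'.2 h) (inv_le_inv_iff.2 (h1 n))
      (E.inv_mem (ha x hx))
    simpa using E.inv_mem h2

/-- The convex hull of a subgroup. -/
def convHull (S : Subgroup G) : Subgroup G where
  carrier := {y | ∃ s ∈ S, s⁻¹ ≤ y ∧ y ≤ s}
  one_mem' := ⟨1, S.one_mem, by simp⟩
  mul_mem' := by
    rintro a b ⟨s, hs, hs1, hs2⟩ ⟨t, ht, ht1, ht2⟩
    have h1 : a * b ≤ s * t := mul_le_mul' hs2 ht2
    have h2 : s⁻¹ * t⁻¹ ≤ a * b := mul_le_mul' hs1 ht1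
    rcases le_total (s * t) (t * s) with h | h
    · refine ⟨t * s, S.mul_mem ht hs, ?_, h1.trans h⟩
      rw [mul_inv_rev]
      exact h2
    · refine ⟨s * t, S.mul_mem hs ht, ?_, h1⟩
      refine le_trans ?_ h2
      rw [← mul_inv_rev]
      exact inv_le_inv_iff.2 h
  inv_mem' := by
    rintro a ⟨s, hs, hs1, hs2⟩
    exact ⟨s, hs, by simpa using hs2, by rw [inv_le']; exact hs1⟩

theorem mem_convHull {S : Subgroup G} {y : G} : y ∈ convHull S ↔ ∃ s ∈ S, s⁻¹ ≤ y ∧ y ≤ s :=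
  Iff.rfl

theorem convHull_cv (S : Subgroup G) : Cv (convHull S) := by
  rintro x y hx hxy ⟨s, hs, hs1, hs2⟩
  have h1 : 1 ≤ s := hx.trans (hxy.trans hs2)
  refine ⟨s, hs, le_trans ?_ hx, hxy.trans hs2⟩
  simpa using h1

theorem le_convHull (S : Subgroup G) : S ≤ convHull S := by
  intro y hy
  rcases le_total 1 y with h | h
  · exact ⟨y, hy, le_trans (by simpa using h) h, le_rfl⟩
  · exact ⟨y⁻¹, S.inv_mem hy, by simp, h.trans (by simpa using h)⟩

theorem convHull_le {S E : Subgroup G} (hE : Cv E) (h : S ≤ E) : convHull S ≤ E := by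
  rintro y ⟨s, hs, hs1, hs2⟩
  rcases le_total 1 y with h' | h'
  · exact hE y s h' hs2 (h hs)
  · have := hE y⁻¹ s (by simpa using h') (by rw [inv_le']; exact hs1) (h hs)
    simpa using E.inv_mem this

/-- The convex hull of `[K, k]`. -/
def Zc (K : Subgroup G) (k : G) : Subgroup G :=
  convHull (Subgroup.closure {y | ∃ x ∈ K, ⁅x, k⁆ = y})

theorem Zc_cv (K : Subgroup G) (k : G) : Cv (Zc K k) := convHull_cv _

theorem triv_Zc (K : Subgroup G) (k : G) : Triv K (Zc K k) k := by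
  intro x hx
  have h1 : ⁅x, k⁆ ∈ Zc K k := le_convHull _ (Subgroup.subset_closure ⟨x, hx, rfl⟩)
  have : ⁅k, x⁆ = ⁅x, k⁆⁻¹ := (commutatorElement_inv x k).symm
  rw [this]
  exact (Zc K k).inv_mem h1

theorem Zc_le {K E : Subgroup G} {k : G} (hE : Cv E) (h : Triv K E k) : Zc K k ≤ E := by
  refine convHull_le hE ?_
  rw [Subgroup.closure_le]
  rintro _ ⟨x, hx, rfl⟩
  have : ⁅x, k⁆ = ⁅k, x⁆⁻¹ := (commutatorElement_inv k x).symm
  rw [this]
  exact E.inv_mem (h x hx)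

theorem cv_comap_conj {E : Subgroup G} (hE : Cv E) (g : G) :
    Cv (E.comap (MulAut.conj g).toMonoidHom) := by
  intro x y hx hxy hy
  rw [Subgroup.mem_comap] at *
  simp only [MulEquiv.toMonoidHom_eq_coe, MonoidHom.coe_coe, MulAut.conj_apply] at *
  exact hE _ _ (one_le_conj hx) (conj_le hxy) hy

theorem mem_Zc_conj {K : Subgroup G} (hK : K.Normal) {k y : G} (g : G) (hy : y ∈ Zc K k) :
    g * y * g⁻¹ ∈ Zc K (g * k * g⁻¹) := by
  have h := Zc_le (K := K) (k := k) (cv_comap_conj (Zc_cv K (g * k * g⁻¹)) g) (by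
    intro x hx
    rw [Subgroup.mem_comap]
    simp only [MulEquiv.toMonoidHom_eq_coe, MonoidHom.coe_coe, MulAut.conj_apply]
    have : g * ⁅k, x⁆ * g⁻¹ = ⁅g * k * g⁻¹, g * x * g⁻¹⁆ := by
      simp [commutatorElement_def, mul_assoc]
    rw [this]
    exact triv_Zc K _ _ (hK.conj_mem x hx g))
  have := h hy
  rw [Subgroup.mem_comap] at this
  simpa using this

omit [MulRightMono G] in
theorem cv_total {A B : Subgroup G} (hA : Cv A) (hB : Cv B) : A ≤ B ∨ B ≤ A := by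
  have aux : ∀ {A B : Subgroup G}, ¬ A ≤ B → ∃ a ∈ A, 1 ≤ a ∧ a ∉ B := by
    intro A B h
    rw [SetLike.not_le_iff_exists] at h
    obtain ⟨a, ha, hb⟩ := h
    rcases le_total 1 a with h1 | h1
    · exact ⟨a, ha, h1, hb⟩
    · exact ⟨a⁻¹, A.inv_mem ha, by simpa using h1, fun h => hb (by simpa using B.inv_mem h)⟩
  by_contra hcon
  push Not at hcon
  obtain ⟨a, ha, ha1, ha2⟩ := aux hcon.1
  obtain ⟨b, hb, hb1, hb2⟩ := aux hcon.2
  rcases le_total a b with h | h
  · exact ha2 (hB a b ha1 h hb)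
  · exact hb2 (hA b a hb1 h ha)

theorem normalizer_of_pow {E : Subgroup G} (hE : Cv E) {g : G} {m : ℕ} (hm : 1 ≤ m)
    (hg : g ^ m ∈ Subgroup.normalizer (E : Set G)) : g ∈ Subgroup.normalizer (E : Set G) := by
  have aux : ∀ g : G, (∀ y ∈ E, g * y * g⁻¹ ∈ E) →
      g ^ m ∈ Subgroup.normalizer (E : Set G) → g ∈ Subgroup.normalizer (E : Set G) := by
    intro g h hg
    rw [Subgroup.mem_normalizer_iff] at hg ⊢
    intro y
    refine ⟨h y, fun hy => ?_⟩
    have h1 : ∀ n : ℕ, ∀ y ∈ E, g ^ n * y * (g ^ n)⁻¹ ∈ E := by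
      intro n
      induction n with
      | zero => intro y hy; simpa using hy
      | succ n ih =>
        intro y hy
        have := ih _ (h y hy)
        simpa [pow_succ, mul_assoc] using this
    obtain ⟨n, rfl⟩ : ∃ n, m = n + 1 := ⟨m - 1, by omega⟩
    rw [hg y]
    have := h1 n _ hy
    simpa [pow_succ, mul_assoc] using this
  rcases cv_total hE (cv_comap_conj hE g) with h | h
  · refine aux g (fun y hy => ?_) hg
    have := h hy
    rw [Subgroup.mem_comap] at this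
    simpa using this
  · have h1 : g⁻¹ ∈ Subgroup.normalizer (E : Set G) := by
      refine aux g⁻¹ (fun y hy => ?_) (by rw [inv_pow]; exact Subgroup.inv_mem _ hg)
      apply h
      rw [Subgroup.mem_comap]
      simpa [mul_assoc] using hy
    simpa using Subgroup.inv_mem _ h1

end Ordered

end Q23Cvx
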