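import Mathlib
import Pool.Agent.Q23.CvxC

/-!
# The main argument
-/

open scoped commutatorElement

namespace Q23Cvx

variable {G : Type*} [Group G]

/-- The data of the main argument. -/
structure Ctx [LinearOrder G] (D B K H : Subgroup G) : Prop where
  Dn : D.Normal
  Bn : B.Normal
  Kn : K.Normal
  com : ∀ a b : G, ⁅a, b⁆ ∈ D
  DD : ∀ a ∈ D, ∀ b ∈ D, ⁅a, b⁆ ∈ B
  BK : B ≤ K
  KD : K ≤ D
  KB : ∀ x ∈ K, ∀ b ∈ B, x * b = b * x
  DH : D ≤ H
  Hpow : ∀ g ∈ H, ∃ m : ℕ, 1 ≤ m ∧ g ^ m ∈ D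
  iii : ∀ h ∈ D, ∃ l : List G, l ≠ [] ∧ cprod l h ∈ B
  star : ∀ M : Subgroup G, M.Normal → Cv M → M = ⊥ ∨ M = H ∨ M = ⊤
  stab : ∀ γ, γ ∉ H → ∀ g : G, ∃ m : ℕ, 1 ≤ m ∧ g ^ m ∈ D ⊔ Subgroup.zpowers γ

variable [LinearOrder G] [MulLeftMono G] [MulRightMono G] {D B K H : Subgroup G}

theorem le_prod_map {ι : Type*} (F : ι → G) (hF : ∀ i, 1 ≤ F i) :
    ∀ l : List ι, 1 ≤ (l.map F).prod ∧ ∀ i ∈ l, F i ≤ (l.map F).prod := by
  intro l
  induction l with
  | nil => simp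
  | cons a l ih =>
    simp only [List.map_cons, List.prod_cons, List.mem_cons]
    refine ⟨one_le_mul (hF a) ih.1, ?_⟩
    rintro i (rfl | hi)
    · exact le_mul_of_one_le_right' ih.1
    · exact (ih.2 i hi).trans (le_mul_of_one_le_left' (hF a))

theorem Ctx.exists_bound (c : Ctx D B K H) {h : G} (hh : h ∈ D) (h1 : 1 ≤ h) :
    ∃ a ∈ B, ∃ r : ℕ, h ≤ a ∧ a ≤ h ^ r := by
  classical
  obtain ⟨l, hl, hlB⟩ := c.iii h hh
  obtain ⟨g₀, hg₀, hmax⟩ := l.toFinset.exists_max_image (fun g => g * h * g⁻¹)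
    (by
      obtain ⟨a, ha⟩ := List.exists_mem_of_ne_nil l hl
      exact ⟨a, by simpa using ha⟩)
  have hlow : g₀ * h * g₀⁻¹ ≤ cprod l h :=
    (le_prod_map (fun g : G => g * h * g⁻¹) (fun g => one_le_conj h1) l).2 g₀ (by simpa using hg₀)
  have hup : cprod l h ≤ (g₀ * h * g₀⁻¹) ^ l.length := by
    have := List.prod_le_pow_card (l.map (fun g => g * h * g⁻¹)) (g₀ * h * g₀⁻¹) (by
      intro x hx
      rw [List.mem_map] at hx
      obtain ⟨g, hg, rfl⟩ := hx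
      exact hmax g (by simpa using hg))
    simpa [cprod] using this
  refine ⟨g₀⁻¹ * cprod l h * g₀, ?_, l.length, ?_, ?_⟩
  · simpa using c.Bn.conj_mem _ hlB g₀⁻¹
  · have := conj_le (g := g₀⁻¹) hlow
    simpa [mul_assoc] using this
  · have := conj_le (g := g₀⁻¹) hup
    rw [conj_pow] at this
    simpa [mul_assoc] using this

/-- P3. -/
theorem Ctx.P3 (c : Ctx D B K H) {h x : G} (hh : h ∈ D) (h1 : 1 < h) (hx : x ∈ K) :
    x * h * x⁻¹ < h ^ 2 := by
  by_contra hcon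
  push Not at hcon
  obtain ⟨a, ha, r, har, har'⟩ := c.exists_bound hh h1.le
  have key : ∀ n : ℕ, h ^ (2 ^ n) ≤ x ^ n * h * (x ^ n)⁻¹ := by
    intro n
    induction n with
    | zero => simp
    | succ n ih =>
      have e1 : x ^ (n + 1) * h * (x ^ (n + 1))⁻¹ = x ^ n * (x * h * x⁻¹) * (x ^ n)⁻¹ := by
        simp [pow_succ, mul_assoc]
      rw [e1]
      refine le_trans ?_ (conj_le hcon)
      have e2 : x ^ n * h ^ 2 * (x ^ n)⁻¹ = (x ^ n * h * (x ^ n)⁻¹) ^ 2 := by rw [conj_pow]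
      rw [e2, pow_succ, pow_mul]
      exact pow_le_pow_left' ih 2
  have h2 : x ^ r * h * (x ^ r)⁻¹ ≤ h ^ r := by
    have h3 : x ^ r * h * (x ^ r)⁻¹ ≤ x ^ r * a * (x ^ r)⁻¹ := conj_le har
    have h4 : x ^ r * a * (x ^ r)⁻¹ = a := by
      rw [c.KB _ (K.pow_mem hx r) a ha]
      simp
    rw [h4] at h3
    exact h3.trans har'
  have h5 : h ^ r < h ^ (2 ^ r) := pow_lt_pow_right' h1 (Nat.lt_two_pow_self)
  exact absurd ((key r).trans h2) (not_le.2 h5)

omit [MulLeftMono G] [MulRightMono G] in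
theorem Ctx.BB (c : Ctx D B K H) {a b : G} (ha : a ∈ B) (hb : b ∈ B) : a * b = b * a :=
  c.KB a (c.BK ha) b hb

theorem Ctx.mem_Zc (c : Ctx D B K H) {k y : G} (hk : k ∈ D) (hy : y ∈ Zc K k) :
    ∃ x ∈ K, ⁅x, k⁆⁻¹ ≤ y ∧ y ≤ ⁅x, k⁆ := by
  obtain ⟨s, hs, hs1, hs2⟩ := hy
  let S : Subgroup G :=
    { carrier := {y | ∃ x ∈ K, ⁅x, k⁆ = y}
      one_mem' := ⟨1, K.one_mem, by simp⟩
      mul_mem' := by
        rintro _ _ ⟨x, hx, rfl⟩ ⟨y, hy, rfl⟩
        refine ⟨x * y, K.mul_mem hx hy, ?_⟩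
        have e1 : ⁅x * y, k⁆ = (x * ⁅y, k⁆ * x⁻¹) * ⁅x, k⁆ := by
          simp [commutatorElement_def, mul_assoc]
        have e2 : x * ⁅y, k⁆ = ⁅y, k⁆ * x := c.KB x hx _ (c.DD y (c.KD hy) k hk)
        rw [e1, e2, mul_assoc ⁅y, k⁆, mul_inv_cancel, mul_one]
        exact c.BB (c.DD y (c.KD hy) k hk) (c.DD x (c.KD hx) k hk)
      inv_mem' := by
        rintro _ ⟨x, hx, rfl⟩
        refine ⟨x⁻¹, K.inv_mem hx, ?_⟩
        have e1 : ⁅x⁻¹, k⁆ = x⁻¹ * ⁅x, k⁆⁻¹ * x := by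
          simp [commutatorElement_def, mul_assoc]
        have e2 : x⁻¹ * ⁅x, k⁆⁻¹ = ⁅x, k⁆⁻¹ * x⁻¹ :=
          c.KB _ (K.inv_mem hx) _ (B.inv_mem (c.DD x (c.KD hx) k hk))
        rw [e1, e2, mul_assoc, inv_mul_cancel, mul_one] }
  have hle : Subgroup.closure {y | ∃ x ∈ K, ⁅x, k⁆ = y} ≤ S := by
    rw [Subgroup.closure_le]
    exact fun y hy => hy
  obtain ⟨x, hx, rfl⟩ := hle hs
  exact ⟨x, hx, hs1, hs2⟩

/-- `k ∉ Z(k)`. -/
theorem Ctx.not_mem_Zc (c : Ctx D B K H) {k : G} (hk : k ∈ D) (hk1 : k ≠ 1) : k ∉ Zc K k := by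
  intro hy
  obtain ⟨x, hx, h1, h2⟩ := c.mem_Zc hk hy
  rcases lt_or_gt_of_ne hk1 with hlt | hgt
  · have h3 : k⁻¹ ≤ ⁅x, k⁆ := by
      rw [inv_le']
      exact h1
    have h4 : k⁻¹ * k ≤ ⁅x, k⁆ * k := by gcongr
    have e1 : ⁅x, k⁆ * k = x * k * x⁻¹ := by simp [commutatorElement_def]
    rw [inv_mul_cancel, e1] at h4
    have h5 := conj_le (g := x⁻¹) h4
    have h6 : 1 ≤ k := by simpa [mul_assoc] using h5
    exact absurd h6 (not_le.2 hlt)
  · have h4 : k * k ≤ ⁅x, k⁆ * k := by gcongr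
    have e1 : ⁅x, k⁆ * k = x * k * x⁻¹ := by simp [commutatorElement_def]
    rw [e1, ← pow_two] at h4
    exact absurd h4 (not_le.2 (c.P3 hk hgt hx))

/-- `Z(c k) ≤ Z(k)` if `c` centralizes `K`. -/
theorem Ctx.Zc_mul (c : Ctx D B K H) {k b : G} (hk : k ∈ D) (hb : ∀ x ∈ K, b * x = x * b) :
    Zc K (b * k) ≤ Zc K k := by
  refine Zc_le (Zc_cv K k) ?_
  intro x hx
  have e1 : ⁅b * k, x⁆ = (b * ⁅k, x⁆ * b⁻¹) * ⁅b, x⁆ := by
    simp [commutatorElement_def, mul_assoc]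
  have e2 : ⁅b, x⁆ = 1 := by
    rw [commutatorElement_eq_one_iff_mul_comm]; exact hb x hx
  have e3 : b * ⁅k, x⁆ = ⁅k, x⁆ * b := hb _ (c.BK (c.DD k hk x (c.KD hx)))
  rw [e1, e2, e3, mul_one, mul_assoc, mul_inv_cancel, mul_one]
  exact triv_Zc K k x hx

/-- `D` normalizes `Z(k)`. -/
theorem Ctx.D_norm (c : Ctx D B K H) {k d : G} (hk : k ∈ D) (hd : d ∈ D) :
    ∀ e ∈ Zc K k, d * e * d⁻¹ ∈ Zc K k := by
  intro e he
  have h1 := mem_Zc_conj c.Kn d he
  have h2 : d * k * d⁻¹ = ⁅d, k⁆ * k := by simp [commutatorElement_def]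
  rw [h2] at h1
  exact c.Zc_mul hk (fun x hx => (c.KB x hx _ (c.DD d hd k hk)).symm) h1

theorem Ctx.D_norm' (c : Ctx D B K H) {k d : G} (hk : k ∈ D) (hd : d ∈ D) :
    ∀ e ∈ Zc K k, d⁻¹ * e * d ∈ Zc K k := by
  intro e he
  simpa using c.D_norm hk (D.inv_mem hd) e he

theorem Ctx.D_le_normalizer (c : Ctx D B K H) {k : G} (hk : k ∈ D) :
    D ≤ Subgroup.normalizer (Zc K k : Set G) := by
  intro d hd
  rw [Subgroup.mem_normalizer_iff]
  intro y
  refine ⟨c.D_norm hk hd y, fun h => ?_⟩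
  have := c.D_norm' hk hd _ h
  simpa [mul_assoc] using this

theorem Ctx.claim1 (c : Ctx D B K H) {s h : G} {m : ℕ} (hm : 1 ≤ m) (hs : s ^ m ∈ D)
    (hh : h ∈ D) : Triv K (Zc K (s ^ m)) ⁅s, h⁆ := by
  have t1 : Triv K (Zc K (s ^ m)) s := triv_pow (Zc_cv _ _) hm (triv_Zc _ _)
  have n1 : ∀ e ∈ Zc K (s ^ m), s * e * s⁻¹ ∈ Zc K (s ^ m) := by
    intro e he
    have := mem_Zc_conj c.Kn s he
    have e1 : s * s ^ m * s⁻¹ = s ^ m := by
      rw [← pow_succ', pow_succ]; simp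
    rwa [e1] at this
  have n2 : ∀ e ∈ Zc K (s ^ m), s⁻¹ * e * s ∈ Zc K (s ^ m) := by
    intro e he
    have := mem_Zc_conj c.Kn s⁻¹ he
    have e1 : s⁻¹ * s ^ m * s⁻¹⁻¹ = s ^ m := by
      rw [inv_inv, mul_assoc, ← pow_succ, pow_succ']; simp
    rw [e1] at this
    simpa using this
  have t2 : Triv K (Zc K (s ^ m)) s⁻¹ := triv_inv t1 n2
  have t3 : Triv K (Zc K (s ^ m)) (h * s⁻¹ * h⁻¹) := triv_conj c.Kn t2 (c.D_norm hs hh)
  have t4 := triv_mul t1 t3 n1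
  have e1 : ⁅s, h⁆ = s * (h * s⁻¹ * h⁻¹) := by simp [commutatorElement_def, mul_assoc]
  rwa [e1]

theorem Ctx.claim2 (c : Ctx D B K H) {s h : G} {m : ℕ} (hm : 1 ≤ m) (hs : s ^ m ∈ D)
    (hh : h ∈ D) (g : G) : Triv K (Zc K (g * s ^ m * g⁻¹)) ⁅s, h⁆ := by
  have hs' : (g * s * g⁻¹) ^ m = g * s ^ m * g⁻¹ := conj_pow
  have hgD : g * s ^ m * g⁻¹ ∈ D := c.Dn.conj_mem _ hs g
  have t1 := c.claim1 (s := g * s * g⁻¹) (h := h) hm (by rw [hs']; exact hgD) hh
  rw [hs'] at t1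
  have hδ : ⁅g, s⁆ ∈ D := c.com g s
  have e0 : g * s * g⁻¹ = ⁅g, s⁆ * s := by simp [commutatorElement_def]
  rw [e0] at t1
  have e1 : ⁅s, h⁆ = ⁅g, s⁆⁻¹ * (⁅⁅g, s⁆ * s, h⁆ * ⁅⁅g, s⁆, h⁆⁻¹) * ⁅g, s⁆⁻¹⁻¹ := by
    generalize ⁅g, s⁆ = δ
    simp only [commutatorElement_def]
    group
  rw [e1]
  refine triv_conj c.Kn ?_ (c.D_norm hgD (D.inv_mem hδ))
  refine triv_mul t1 ?_ (c.D_norm hgD ?_)
  · apply triv_of_comm
    intro x hx
    exact (c.KB x hx _ (B.inv_mem (c.DD _ hδ h hh))).symm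
  · exact c.com _ _

/-- F3. -/
theorem Ctx.F3 (c : Ctx D B K H) {s h x : G} (hs : s ∈ H) (hh : h ∈ D) (hx : x ∈ K) :
    ⁅s, h⁆ * x = x * ⁅s, h⁆ := by
  obtain ⟨m, hm, hsm⟩ := c.Hpow s hs
  by_cases hs1 : s ^ m = 1
  · have : s = 1 := by
      rcases lt_trichotomy s 1 with h1 | h1 | h1
      · exact absurd hs1 (pow_lt_one' h1 (by omega)).ne
      · exact h1
      · exact absurd hs1 (one_lt_pow' h1 (by omega)).ne'
    simp [this]
  let W : Subgroup G := ⨅ g : G, Zc K (g * s ^ m * g⁻¹)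
  have hWmem : ∀ y, y ∈ W ↔ ∀ g : G, y ∈ Zc K (g * s ^ m * g⁻¹) := by
    intro y
    simp [W, Subgroup.mem_iInf]
  have hWn : W.Normal := by
    refine ⟨fun y hy γ => ?_⟩
    rw [hWmem] at hy ⊢
    intro g
    have := mem_Zc_conj c.Kn γ (hy (γ⁻¹ * g))
    have e1 : γ * (γ⁻¹ * g * s ^ m * (γ⁻¹ * g)⁻¹) * γ⁻¹ = g * s ^ m * g⁻¹ := by
      simp [mul_assoc]
    rwa [e1] at this
  have hWc : Cv W := by
    intro x y h1 h2 hy
    rw [hWmem] at hy ⊢
    intro g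
    exact Zc_cv _ _ x y h1 h2 (hy g)
  have hsW : s ^ m ∉ W := by
    rw [hWmem]
    intro h
    have := h 1
    rw [one_mul, inv_one, mul_one] at this
    exact c.not_mem_Zc hsm hs1 this
  have hW : W = ⊥ := by
    rcases c.star W hWn hWc with h | h | h
    · exact h
    · exact absurd (h ▸ c.DH hsm) hsW
    · exact absurd (h ▸ Subgroup.mem_top _) hsW
  have h1 : ⁅⁅s, h⁆, x⁆ ∈ W := by
    rw [hWmem]
    intro g
    exact c.claim2 hm hsm hh g x hx
  rw [hW, Subgroup.mem_bot, commutatorElement_eq_one_iff_mul_comm] at h1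
  exact h1

/-- The normalizer of `Z(h) ≠ 1` is contained in `H`. -/
theorem Ctx.normalizer_le (c : Ctx D B K H) {h γ : G} (hh : h ∈ D) (hZ : Zc K h ≠ ⊥)
    (hγ : γ ∈ Subgroup.normalizer (Zc K h : Set G)) : γ ∈ H := by
  by_contra hcon
  have h1 : D ⊔ Subgroup.zpowers γ ≤ Subgroup.normalizer (Zc K h : Set G) := by
    refine sup_le (c.D_le_normalizer hh) ?_
    rw [Subgroup.zpowers_le]
    exact hγ
  have h2 : ∀ g : G, g ∈ Subgroup.normalizer (Zc K h : Set G) := by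
    intro g
    obtain ⟨m, hm, hgm⟩ := c.stab γ hcon g
    exact normalizer_of_pow (Zc_cv _ _) hm (h1 hgm)
  have h3 : (Zc K h).Normal := by
    refine ⟨fun y hy g => ?_⟩
    have := h2 g
    rw [Subgroup.mem_normalizer_iff] at this
    exact (this y).1 hy
  have hne : h ≠ 1 := by
    rintro rfl
    apply hZ
    rw [eq_bot_iff]
    refine Zc_le (fun x y h1 h2 hy => ?_) (triv_of_comm (by simp))
    rw [Subgroup.mem_bot] at hy ⊢
    subst hy
    exact le_antisymm h2 h1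
  have hnm := c.not_mem_Zc hh hne
  rcases c.star _ h3 (Zc_cv _ _) with h4 | h4 | h4
  · exact hZ h4
  · exact hnm (h4 ▸ c.DH hh)
  · exact hnm (h4 ▸ Subgroup.mem_top _)

theorem Zc_conj_le_iff (hK : K.Normal) {k k' : G} (g : G) :
    Zc K (g * k * g⁻¹) ≤ Zc K (g * k' * g⁻¹) ↔ Zc K k ≤ Zc K k' := by
  have aux : ∀ (g k k' : G), Zc K k ≤ Zc K k' → Zc K (g * k * g⁻¹) ≤ Zc K (g * k' * g⁻¹) := by
    intro g k k' h y hy
    have h1 := mem_Zc_conj hK g⁻¹ hy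
    have e1 : g⁻¹ * (g * k * g⁻¹) * g⁻¹⁻¹ = k := by simp [mul_assoc]
    rw [e1] at h1
    have h2 := mem_Zc_conj hK g (h h1)
    simpa [mul_assoc] using h2
  refine ⟨fun h => ?_, aux g k k'⟩
  have := aux g⁻¹ _ _ h
  simpa [mul_assoc] using this

omit [MulLeftMono G] [MulRightMono G] in
theorem cv_bot : Cv (⊥ : Subgroup G) := by
  intro x y h1 h2 hy
  rw [Subgroup.mem_bot] at hy ⊢
  subst hy
  exact le_antisymm h2 h1

/-- F4: the induction over the list. -/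
theorem Ctx.F4 (c : Ctx D B K H) {h : G} (hh : h ∈ D) (hZ : Zc K h ≠ ⊥) :
    ∀ l : List G, l ≠ [] → ∃ g : G, ∃ n : ℕ, 1 ≤ n ∧ ∃ E : Subgroup G, Cv E ∧
      (∀ d ∈ D, ∀ e ∈ E, d * e * d⁻¹ ∈ E) ∧ E < Zc K (g * h * g⁻¹) ∧
      Triv K E (((g * h * g⁻¹) ^ n)⁻¹ * cprod l h) := by
  have hconjD : ∀ g : G, g * h * g⁻¹ ∈ D := fun g => c.Dn.conj_mem h hh g
  have hpD : ∀ l : List G, cprod l h ∈ D := by
    intro l
    refine Subgroup.list_prod_mem _ ?_
    intro x hx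
    rw [List.mem_map] at hx
    obtain ⟨g, _, rfl⟩ := hx
    exact hconjD g
  have hZne : ∀ g : G, Zc K (g * h * g⁻¹) ≠ ⊥ := by
    intro g hg
    apply hZ
    rw [eq_bot_iff]
    intro y hy
    have := mem_Zc_conj c.Kn g hy
    rw [hg, Subgroup.mem_bot] at this
    rw [Subgroup.mem_bot]
    simpa using this
  intro l
  induction l with
  | nil => intro h; exact absurd rfl h
  | cons g' l ih =>
    intro _
    have hcons : cprod (g' :: l) h = (g' * h * g'⁻¹) * cprod l h := by simp [cprod]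
    by_cases hl : l = []
    · subst hl
      refine ⟨g', 1, le_rfl, ⊥, cv_bot, ?_, bot_lt_iff_ne_bot.2 (hZne g'), ?_⟩
      · intro d _ e he
        rw [Subgroup.mem_bot] at he ⊢
        subst he
        simp
      · have e1 : ((g' * h * g'⁻¹) ^ 1)⁻¹ * cprod [g'] h = 1 := by simp [cprod, mul_assoc]
        rw [e1]
        exact triv_of_comm (by simp)
    obtain ⟨g, n, hn, E, hE, hEn, hElt, hT⟩ := ih hl
    rw [hcons]
    set a := g * h * g⁻¹ with ha
    set a' := g' * h * g'⁻¹ with ha'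
    have haD : a ∈ D := hconjD g
    have ha'D : a' ∈ D := hconjD g'
    have hanD : a ^ n ∈ D := D.pow_mem haD n
    rcases cv_total (Zc_cv K a') (Zc_cv K a) with hle | hle
    · by_cases heq : Zc K a ≤ Zc K a'
      · -- same value
        have hs : g⁻¹ * g' ∈ H := by
          apply c.normalizer_le hh hZ
          have h1 : Zc K a' = Zc K a := le_antisymm hle heq
          have h2 : Zc K ((g⁻¹ * g') * h * (g⁻¹ * g')⁻¹) = Zc K h := by
            have e1 : (g⁻¹ * g') * h * (g⁻¹ * g')⁻¹ = g⁻¹ * a' * g⁻¹⁻¹ := by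
              rw [ha']; simp [mul_assoc]
            have e2 : h = g⁻¹ * a * g⁻¹⁻¹ := by rw [ha]; simp [mul_assoc]
            have h3 := (Zc_conj_le_iff c.Kn (k := a') (k' := a) g⁻¹).2 h1.le
            have h4 := (Zc_conj_le_iff c.Kn (k := a) (k' := a') g⁻¹).2 h1.ge
            rw [← e1, ← e2] at h3 h4
            exact le_antisymm h3 h4
          rw [Subgroup.mem_normalizer_iff]
          intro y
          constructor
          · intro hy
            have := mem_Zc_conj c.Kn (g⁻¹ * g') hy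
            rwa [h2] at this
          · intro hy
            rw [← h2] at hy
            have := mem_Zc_conj c.Kn (g⁻¹ * g')⁻¹ hy
            simpa [mul_assoc] using this
        set s := g⁻¹ * g' with hsdef
        have e0 : a' = (g * ⁅s, h⁆ * g⁻¹) * a := by
          rw [ha', ha, hsdef]
          simp [commutatorElement_def, mul_assoc]
        have hcen : ∀ x ∈ K, (g * ⁅s, h⁆ * g⁻¹) * x = x * (g * ⁅s, h⁆ * g⁻¹) := by
          intro x hx
          have h1 := c.F3 hs hh (x := g⁻¹ * x * g) (by simpa using c.Kn.conj_mem x hx g⁻¹)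
          have h2 : g * (⁅s, h⁆ * (g⁻¹ * x * g)) * g⁻¹ = g * ((g⁻¹ * x * g) * ⁅s, h⁆) * g⁻¹ := by
            rw [h1]
          simpa [mul_assoc] using h2
        refine ⟨g, n + 1, by omega, E, hE, hEn, hElt, ?_⟩
        have e1 : (a ^ (n + 1))⁻¹ * (a' * cprod l h) =
            ((a ^ (n + 1))⁻¹ * (g * ⁅s, h⁆ * g⁻¹) * (a ^ (n + 1))⁻¹⁻¹) *
              ((a ^ n)⁻¹ * cprod l h) := by
          rw [e0]
          generalize g * ⁅s, h⁆ * g⁻¹ = z
          rw [pow_succ]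
          group
        rw [e1]
        have hA : (a ^ (n + 1))⁻¹ ∈ D := D.inv_mem (D.pow_mem haD _)
        refine triv_mul (triv_conj c.Kn (triv_of_comm hcen) (hEn _ hA)) hT (hEn _ ?_)
        exact c.Dn.conj_mem _ (c.Dn.conj_mem _ (c.com _ _) g) _
      · -- Z(a') < Z(a)
        have hlt : Zc K a' < Zc K a := lt_of_le_not_ge hle heq
        have e1 : (a ^ n)⁻¹ * (a' * cprod l h) =
            ((a ^ n)⁻¹ * a' * (a ^ n)⁻¹⁻¹) * ((a ^ n)⁻¹ * cprod l h) := by group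
        have hA : (a ^ n)⁻¹ ∈ D := D.inv_mem hanD
        have hmemD : (a ^ n)⁻¹ * a' * (a ^ n)⁻¹⁻¹ ∈ D := c.Dn.conj_mem _ ha'D _
        rcases cv_total hE (Zc_cv K a') with h1 | h1
        · refine ⟨g, n, hn, Zc K a', Zc_cv _ _, fun d hd => c.D_norm ha'D hd, hlt, ?_⟩
          rw [e1]
          exact triv_mul (triv_conj c.Kn (triv_Zc K a') (c.D_norm ha'D hA)) (triv_mono h1 hT)
            (c.D_norm ha'D hmemD)
        · refine ⟨g, n, hn, E, hE, hEn, hElt, ?_⟩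
          rw [e1]
          exact triv_mul (triv_conj c.Kn (triv_mono h1 (triv_Zc K a')) (hEn _ hA)) hT
            (hEn _ hmemD)
    · by_cases heq : Zc K a' ≤ Zc K a
      · -- same value again
        have hle' : Zc K a' ≤ Zc K a := heq
        have hs : g⁻¹ * g' ∈ H := by
          apply c.normalizer_le hh hZ
          have h1 : Zc K a' = Zc K a := le_antisymm hle' hle
          have h2 : Zc K ((g⁻¹ * g') * h * (g⁻¹ * g')⁻¹) = Zc K h := by
            have e1 : (g⁻¹ * g') * h * (g⁻¹ * g')⁻¹ = g⁻¹ * a' * g⁻¹⁻¹ := by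
              rw [ha']; simp [mul_assoc]
            have e2 : h = g⁻¹ * a * g⁻¹⁻¹ := by rw [ha]; simp [mul_assoc]
            have h3 := (Zc_conj_le_iff c.Kn (k := a') (k' := a) g⁻¹).2 h1.le
            have h4 := (Zc_conj_le_iff c.Kn (k := a) (k' := a') g⁻¹).2 h1.ge
            rw [← e1, ← e2] at h3 h4
            exact le_antisymm h3 h4
          rw [Subgroup.mem_normalizer_iff]
          intro y
          constructor
          · intro hy
            have := mem_Zc_conj c.Kn (g⁻¹ * g') hy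
            rwa [h2] at this
          · intro hy
            rw [← h2] at hy
            have := mem_Zc_conj c.Kn (g⁻¹ * g')⁻¹ hy
            simpa [mul_assoc] using this
        set s := g⁻¹ * g' with hsdef
        have e0 : a' = (g * ⁅s, h⁆ * g⁻¹) * a := by
          rw [ha', ha, hsdef]
          simp [commutatorElement_def, mul_assoc]
        have hcen : ∀ x ∈ K, (g * ⁅s, h⁆ * g⁻¹) * x = x * (g * ⁅s, h⁆ * g⁻¹) := by
          intro x hx
          have h1 := c.F3 hs hh (x := g⁻¹ * x * g) (by simpa using c.Kn.conj_mem x hx g⁻¹)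
          have h2 : g * (⁅s, h⁆ * (g⁻¹ * x * g)) * g⁻¹ = g * ((g⁻¹ * x * g) * ⁅s, h⁆) * g⁻¹ := by
            rw [h1]
          simpa [mul_assoc] using h2
        refine ⟨g, n + 1, by omega, E, hE, hEn, hElt, ?_⟩
        have e1 : (a ^ (n + 1))⁻¹ * (a' * cprod l h) =
            ((a ^ (n + 1))⁻¹ * (g * ⁅s, h⁆ * g⁻¹) * (a ^ (n + 1))⁻¹⁻¹) *
              ((a ^ n)⁻¹ * cprod l h) := by
          rw [e0]
          generalize g * ⁅s, h⁆ * g⁻¹ = z
          rw [pow_succ]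
          group
        rw [e1]
        have hA : (a ^ (n + 1))⁻¹ ∈ D := D.inv_mem (D.pow_mem haD _)
        refine triv_mul (triv_conj c.Kn (triv_of_comm hcen) (hEn _ hA)) hT (hEn _ ?_)
        exact c.Dn.conj_mem _ (c.Dn.conj_mem _ (c.com _ _) g) _
      · -- Z(a) < Z(a')
        have hlt : Zc K a < Zc K a' := lt_of_le_not_ge hle heq
        refine ⟨g', 1, le_rfl, Zc K a, Zc_cv _ _, fun d hd => c.D_norm haD hd, hlt, ?_⟩
        have e1 : ((g' * h * g'⁻¹) ^ 1)⁻¹ * (a' * cprod l h) =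
            a ^ n * ((a ^ n)⁻¹ * cprod l h) := by
          rw [← ha', pow_one]
          group
        rw [e1]
        have t1 : ∀ j : ℕ, Triv K (Zc K a) (a ^ j) := by
          intro j
          induction j with
          | zero => rw [pow_zero]; exact triv_of_comm (by simp)
          | succ j ih =>
            rw [pow_succ]
            exact triv_mul ih (triv_Zc K a) (c.D_norm haD (D.pow_mem haD j))
        exact triv_mul (t1 n) (triv_mono hElt.le hT) (c.D_norm haD hanD)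

/-- The contradiction. -/
theorem Ctx.false (c : Ctx D B K H) {h x : G} (hh : h ∈ D) (hx : x ∈ K) (hne : ⁅x, h⁆ ≠ 1) :
    False := by
  have hZ : Zc K h ≠ ⊥ := by
    intro h0
    have h1 : ⁅h, x⁆ ∈ Zc K h := triv_Zc K h x hx
    rw [h0, Subgroup.mem_bot] at h1
    apply hne
    rw [← commutatorElement_inv, h1, inv_one]
  obtain ⟨l, hl, hlB⟩ := c.iii h hh
  obtain ⟨g, n, hn, E, hE, hEn, hElt, hT⟩ := c.F4 hh hZ l hl
  have haD : g * h * g⁻¹ ∈ D := c.Dn.conj_mem h hh g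
  have hBt : ∀ b ∈ B, Triv K E b := fun b hb => triv_of_comm (fun x hx => (c.KB x hx b hb).symm)
  have t1 : Triv K E ((g * h * g⁻¹) ^ n)⁻¹ := by
    have e1 : ((g * h * g⁻¹) ^ n)⁻¹ = (((g * h * g⁻¹) ^ n)⁻¹ * cprod l h) * (cprod l h)⁻¹ := by
      group
    rw [e1]
    refine triv_mul hT (hBt _ (B.inv_mem hlB)) (hEn _ ?_)
    exact D.mul_mem (D.inv_mem (D.pow_mem haD n)) (c.KD (c.BK hlB))
  have t2 : Triv K E ((g * h * g⁻¹) ^ n) := by
    have := triv_inv t1 (by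
      intro e he
      simpa using hEn _ (D.pow_mem haD n) e he)
    simpa using this
  have t3 : Triv K E (g * h * g⁻¹) := triv_pow hE hn t2
  exact absurd (Zc_le hE t3) (not_le_of_gt hElt)

end Q23Cvx
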