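import Mathlib
import Pool.Agent.Q23.CvxD

/-!
# Step (iii), Theorem T and the final count
-/

open scoped commutatorElement

namespace Q23Cvx

variable {G : Type*} [Group G]

theorem iii_of_star (D : Subgroup G) [hD : D.Normal] (hcom : ∀ a b : G, ⁅a, b⁆ ∈ D)
    (hB1 : ⁅D, D⁆ ≠ ⊥) (H : Subgroup G) (hH : ∀ g, g ∈ H ↔ ∃ m : ℕ, 1 ≤ m ∧ g ^ m ∈ D)
    {PH : Set G} (hHP : RelCone H PH)
    (star : ∀ M : Subgroup G, M.Normal → (∃ P, RelCone M P) → M = ⊥ ∨ M = H ∨ M = ⊤) :
    ∀ h ∈ D, ∃ l : List G, l ≠ [] ∧ cprod l h ∈ ⁅D, D⁆ := by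
  obtain ⟨P, C, hP, hCD, hCmul, hCconj, hCP, htri⟩ := exists_cone_D D hcom
  have hPD : P ≤ D := fun x hx => ((hP x).1 hx).1
  have hBP : ⁅D, D⁆ ≤ P := by
    intro b hb
    rw [hP]
    refine ⟨?_, [1], by simp, by simpa [cprod] using hb⟩
    exact (Subgroup.commutator_le_right D D) hb
  have hPn : P.Normal := by
    refine ⟨fun x hx g => ?_⟩
    rcases htri (g * x * g⁻¹) (hD.conj_mem x (hPD hx) g) with h | h | h
    · exact h
    · have := hCconj g⁻¹ _ h
      have e1 : g⁻¹ * (g * x * g⁻¹) * g⁻¹⁻¹ = x := by simp [mul_assoc]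
      rw [e1] at this
      exact absurd hx (hCP x this)
    · have := hCconj g⁻¹ _ h
      have e1 : g⁻¹ * (g * x * g⁻¹)⁻¹ * g⁻¹⁻¹ = x⁻¹ := by simp [mul_assoc]
      rw [e1] at this
      exact absurd (P.inv_mem hx) (hCP _ this)
  have tele : ∀ s t : G, ∀ m : ℕ, 1 ≤ m → ⁅s ^ m, t⁆ ∈ P → ⁅s, t⁆ ∈ P := by
    intro s t m hm hmem
    have key : ∀ n : ℕ, ⁅s ^ (n + 1), t⁆ = (s ^ n * ⁅s, t⁆ * (s ^ n)⁻¹) * ⁅s ^ n, t⁆ := by
      intro n
      simp [commutatorElement_def, pow_succ, mul_assoc]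
    obtain ⟨n, rfl⟩ : ∃ n, m = n + 1 := ⟨m - 1, by omega⟩
    rcases htri ⁅s, t⁆ (hcom s t) with h | h | h
    · exact h
    · have h1 : ∀ n : ℕ, ⁅s ^ (n + 1), t⁆ ∈ C := by
        intro n
        induction n with
        | zero => simpa using h
        | succ n ih =>
          rw [key]
          exact hCmul _ (hCconj _ _ h) _ ih
      exact absurd hmem (hCP _ (h1 n))
    · have h1 : ∀ n : ℕ, ⁅s ^ (n + 1), t⁆⁻¹ ∈ C := by
        intro n
        induction n with
        | zero => simpa using h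
        | succ n ih =>
          rw [key, mul_inv_rev]
          refine hCmul _ ih _ ?_
          have := hCconj (s ^ (n + 1)) _ h
          have e1 : (s ^ (n + 1) * ⁅s, t⁆ * (s ^ (n + 1))⁻¹)⁻¹ =
            s ^ (n + 1) * ⁅s, t⁆⁻¹ * (s ^ (n + 1))⁻¹ := by group
          rw [e1]
          exact this
      exact absurd (P.inv_mem hmem) (hCP _ (h1 n))
  have hDH : D ≤ H := fun x hx => (hH x).2 ⟨1, le_rfl, by simpa using hx⟩
  have Fa : ∀ s ∈ H, ∀ d ∈ D, ⁅s, d⁆ ∈ P := by
    intro s hs d hd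
    obtain ⟨m, hm, hsm⟩ := (hH s).1 hs
    exact tele s d m hm (hBP (Subgroup.commutator_mem_commutator hsm hd))
  have Fb : ∀ s ∈ H, ∀ t ∈ H, ⁅s, t⁆ ∈ P := by
    intro s hs t ht
    obtain ⟨m, hm, hsm⟩ := (hH s).1 hs
    refine tele s t m hm ?_
    rw [← commutatorElement_inv]
    exact P.inv_mem (Fa t ht _ hsm)
  have pw : ∀ s ∈ H, ∀ t ∈ H, ∀ N : ℕ, (s ^ N * t ^ N)⁻¹ * (s * t) ^ N ∈ P := by
    intro s hs t ht N
    have hc : Commute (QuotientGroup.mk' P s) (QuotientGroup.mk' P t) := by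
      rw [← commutatorElement_eq_one_iff_commute, ← map_commutatorElement]
      exact (QuotientGroup.eq_one_iff _).2 (Fb s hs t ht)
    have h1 : QuotientGroup.mk' P ((s ^ N * t ^ N)⁻¹ * (s * t) ^ N) = 1 := by
      rw [map_mul, map_inv, map_mul, map_pow, map_pow, map_pow, map_mul, hc.mul_pow]
      simp
    exact (QuotientGroup.eq_one_iff _).1 h1
  have hCPmul : ∀ a ∈ C, ∀ p ∈ P, a * p ∈ C := by
    intro a ha p hp
    rcases htri (a * p) (D.mul_mem (hCD a ha) (hPD hp)) with h | h | h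
    · exact absurd ((P.mul_mem_cancel_right hp).1 h) (hCP a ha)
    · exact h
    · have h2 := hCmul _ h a ha
      have e1 : (a * p)⁻¹ * a = p⁻¹ := by group
      rw [e1] at h2
      exact absurd (P.inv_mem hp) (hCP _ h2)
  have hCpow : ∀ a ∈ C, ∀ n : ℕ, 1 ≤ n → a ^ n ∈ C := by
    intro a ha n hn
    obtain ⟨k, rfl⟩ : ∃ k, n = k + 1 := ⟨n - 1, by omega⟩
    clear hn
    induction k with
    | zero => simpa using ha
    | succ k ih => rw [pow_succ]; exact hCmul _ ih _ ha
  by_contra hcon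
  push Not at hcon
  obtain ⟨h, hh, hl⟩ := hcon
  have hhP : h ∉ P := by
    rw [hP]
    rintro ⟨_, l, hl1, hl2⟩
    exact hl l hl1 hl2
  let M : Subgroup G :=
    { carrier := {s | ∃ m : ℕ, 1 ≤ m ∧ s ^ m ∈ P}
      one_mem' := ⟨1, le_rfl, by simp⟩
      mul_mem' := by
        rintro s t ⟨m, hm, hs⟩ ⟨n, hn, ht⟩
        have hsH : s ∈ H := (hH s).2 ⟨m, hm, hPD hs⟩
        have htH : t ∈ H := (hH t).2 ⟨n, hn, hPD ht⟩
        refine ⟨m * n, Nat.mul_pos hm hn, ?_⟩
        have h1 := pw s hsH t htH (m * n)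
        have h2 : s ^ (m * n) * t ^ (m * n) ∈ P := by
          refine P.mul_mem ?_ ?_
          · rw [pow_mul]; exact P.pow_mem hs n
          · rw [mul_comm, pow_mul]; exact P.pow_mem ht m
        have := P.mul_mem h2 h1
        rwa [mul_inv_cancel_left] at this
      inv_mem' := by
        rintro s ⟨m, hm, hs⟩
        exact ⟨m, hm, by rw [inv_pow]; exact P.inv_mem hs⟩ }
  have hM : ∀ s, s ∈ M ↔ ∃ m : ℕ, 1 ≤ m ∧ s ^ m ∈ P := fun s => Iff.rfl
  have hMn : M.Normal := by
    refine ⟨?_⟩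
    rintro s ⟨m, hm, hs⟩ g
    exact ⟨m, hm, by rw [conj_pow]; exact hPn.conj_mem _ hs g⟩
  have hMH : M ≤ H := by
    rintro s ⟨m, hm, hs⟩
    exact (hH s).2 ⟨m, hm, hPD hs⟩
  have hQ : ∀ s, (∃ m : ℕ, 1 ≤ m ∧ s ^ m ∈ C) → s ∈ H := by
    rintro s ⟨m, hm, hs⟩
    exact (hH s).2 ⟨m, hm, hCD _ hs⟩
  have hcone : RelCone M ({s | ∃ m : ℕ, 1 ≤ m ∧ s ^ m ∈ C} ∪ PH) := by
    constructor
    · rintro s (hs | hs) t (ht | ht)
      · left
        have hsH := hQ s hs
        have htH := hQ t ht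
        obtain ⟨m, hm, hs⟩ := hs
        obtain ⟨n, hn, ht⟩ := ht
        refine ⟨m * n, Nat.mul_pos hm hn, ?_⟩
        have h1 := pw s hsH t htH (m * n)
        have h2 : s ^ (m * n) * t ^ (m * n) ∈ C := by
          refine hCmul _ ?_ _ ?_
          · rw [pow_mul]; exact hCpow _ hs n hn
          · rw [mul_comm, pow_mul]; exact hCpow _ ht m hm
        have := hCPmul _ h2 _ h1
        rwa [mul_inv_cancel_left] at this
      · exact Or.inr (hHP.mul_left (hQ s hs) ht)
      · exact Or.inr (hHP.mul_right (hQ t ht) hs)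
      · exact Or.inr (hHP.mul s hs t ht)
    · rintro g s (⟨m, hm, hs⟩ | hs)
      · exact Or.inl ⟨m, hm, by rw [conj_pow]; exact hCconj g _ hs⟩
      · exact Or.inr (hHP.conj g s hs)
    · intro s
      rcases hHP.tri s with h1 | h1 | h1
      · obtain ⟨m, hm, hs⟩ := (hH s).1 h1
        rcases htri _ hs with h2 | h2 | h2
        · exact Or.inl ⟨m, hm, h2⟩
        · exact Or.inr (Or.inl (Or.inl ⟨m, hm, h2⟩))
        · exact Or.inr (Or.inr (Or.inl ⟨m, hm, by rw [inv_pow]; exact h2⟩))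
      · exact Or.inr (Or.inl (Or.inr h1))
      · exact Or.inr (Or.inr (Or.inr h1))
    · rintro s (⟨m, hm, hs⟩ | hs) ⟨n, hn, hs'⟩
      · have h1 := hCpow _ hs n hn
        have h2 := P.pow_mem hs' m
        rw [← pow_mul] at h1 h2
        rw [mul_comm] at h2
        exact hCP _ h1 h2
      · exact hHP.nmem s hs (hMH ⟨n, hn, hs'⟩)
  have hhM : h ∉ M := by
    rintro ⟨m, hm, hhm⟩
    rcases htri h hh with h1 | h1 | h1
    · exact hhP h1
    · exact hCP _ (hCpow _ h1 m hm) hhm
    · have := hCpow _ h1 m hm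
      rw [inv_pow] at this
      exact hCP _ this (P.inv_mem hhm)
  rcases star M hMn ⟨_, hcone⟩ with h1 | h1 | h1
  · apply hB1
    rw [eq_bot_iff, ← h1]
    intro b hb
    exact ⟨1, le_rfl, by simpa using hBP hb⟩
  · exact hhM (h1 ▸ hDH hh)
  · exact hhM (h1 ▸ Subgroup.mem_top _)

theorem mainT [LinearOrder G] [MulLeftMono G] [MulRightMono G]
    (hB1 : ⁅commutator G, commutator G⁆ ≠ ⊥)
    (hB2 : ∀ a ∈ ⁅commutator G, commutator G⁆, ∀ b ∈ ⁅commutator G, commutator G⁆, a * b = b * a)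
    (star : ∀ M : Subgroup G, M.Normal → (∃ P, RelCone M P) →
      M = ⊥ ∨ (∀ g, g ∈ M ↔ ∃ m : ℕ, 1 ≤ m ∧ g ^ m ∈ commutator G) ∨ M = ⊤) : False := by
  obtain ⟨H, hHn, hH, PH, hHP⟩ := exists_isolator (commutator G) le_rfl
  have star' : ∀ M : Subgroup G, M.Normal → (∃ P, RelCone M P) → M = ⊥ ∨ M = H ∨ M = ⊤ := by
    intro M hM hP
    rcases star M hM hP with h | h | h
    · exact Or.inl h
    · refine Or.inr (Or.inl ?_)
      ext g
      rw [h, hH]
    · exact Or.inr (Or.inr h)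
  have hcom : ∀ a b : G, ⁅a, b⁆ ∈ commutator G := by
    intro a b
    rw [commutator_def]
    exact Subgroup.commutator_mem_commutator (Subgroup.mem_top a) (Subgroup.mem_top b)
  set D : Subgroup G := commutator G with hDdef
  have hDn : D.Normal := by rw [hDdef]; infer_instance
  set B : Subgroup G := ⁅D, D⁆ with hBdef
  have hBn : B.Normal := by rw [hBdef]; infer_instance
  have hBD : B ≤ D := Subgroup.commutator_le_right D D
  have hDH : D ≤ H := fun x hx => (hH x).2 ⟨1, le_rfl, by simpa using hx⟩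
  let K : Subgroup G :=
    { carrier := {x | x ∈ D ∧ ∀ b ∈ B, x * b = b * x}
      one_mem' := ⟨D.one_mem, by simp⟩
      mul_mem' := by
        rintro x y ⟨hx, hx'⟩ ⟨hy, hy'⟩
        refine ⟨D.mul_mem hx hy, fun b hb => ?_⟩
        rw [mul_assoc, hy' b hb, ← mul_assoc, hx' b hb, mul_assoc]
      inv_mem' := by
        rintro x ⟨hx, hx'⟩
        refine ⟨D.inv_mem hx, fun b hb => ?_⟩
        rw [inv_mul_eq_iff_eq_mul, ← mul_assoc, hx' b hb, mul_assoc, mul_inv_cancel, mul_one] }
  have hKmem : ∀ x, x ∈ K ↔ x ∈ D ∧ ∀ b ∈ B, x * b = b * x := fun x => Iff.rfl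
  have c : Ctx D B K H :=
    { Dn := hDn
      Bn := hBn
      Kn := by
        refine ⟨?_⟩
        rintro x ⟨hx, hx'⟩ g
        refine ⟨hDn.conj_mem x hx g, fun b hb => ?_⟩
        have h1 := hx' (g⁻¹ * b * g) (by simpa using hBn.conj_mem b hb g⁻¹)
        have h2 : g * (x * (g⁻¹ * b * g)) * g⁻¹ = g * ((g⁻¹ * b * g) * x) * g⁻¹ := by rw [h1]
        simpa [mul_assoc] using h2
      com := hcom
      DD := fun a ha b hb => Subgroup.commutator_mem_commutator ha hb
      BK := fun b hb => ⟨hBD hb, fun b' hb' => hB2 b hb b' hb'⟩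
      KD := fun x hx => hx.1
      KB := fun x hx b hb => hx.2 b hb
      DH := hDH
      Hpow := fun g hg => (hH g).1 hg
      iii := iii_of_star D hcom hB1 H hH hHP star'
      star := by
        intro M hM hMc
        exact star' M hM ⟨_, relCone_of_convex M hMc⟩
      stab := by
        intro γ hγ g
        obtain ⟨M, hMn, hM, hMP⟩ := exists_isolator (D ⊔ Subgroup.zpowers γ) le_sup_left
        have hγM : γ ∈ M := by
          rw [hM]
          refine ⟨1, le_rfl, ?_⟩
          rw [pow_one]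
          exact Subgroup.mem_sup_right (Subgroup.mem_zpowers γ)
        rcases star' M hMn hMP with h | h | h
        · rw [h, Subgroup.mem_bot] at hγM
          exact absurd (hγM ▸ H.one_mem) hγ
        · exact absurd (h ▸ hγM) hγ
        · have : g ∈ M := by rw [h]; exact Subgroup.mem_top g
          exact (hM g).1 this }
  have hex : ∃ h ∈ D, ∃ x ∈ K, ⁅x, h⁆ ≠ 1 := by
    by_contra hcon
    push Not at hcon
    have h1 : ∀ d ∈ D, d ∈ K := by
      intro d hd
      refine ⟨hd, fun b hb => ?_⟩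
      have := hcon d hd b ⟨hBD hb, fun b' hb' => hB2 b hb b' hb'⟩
      rw [commutatorElement_eq_one_iff_mul_comm] at this
      exact this.symm
    apply hB1
    rw [hBdef, Subgroup.commutator_eq_bot_iff_le_centralizer]
    intro d hd
    rw [Subgroup.mem_centralizer_iff]
    intro e he
    have := hcon d hd e (h1 e he)
    rw [commutatorElement_eq_one_iff_mul_comm] at this
    exact this
  obtain ⟨h, hh, x, hx, hne⟩ := hex
  exact c.false hh hx hne

/-- Theorem T in terms of cones only. -/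
theorem mainT' (hO : ∃ P, RelCone (⊥ : Subgroup G) P)
    (hB1 : ⁅commutator G, commutator G⁆ ≠ ⊥)
    (hB2 : ∀ a ∈ ⁅commutator G, commutator G⁆, ∀ b ∈ ⁅commutator G, commutator G⁆, a * b = b * a)
    (star : ∀ M : Subgroup G, M.Normal → (∃ P, RelCone M P) →
      M = ⊥ ∨ (∀ g, g ∈ M ↔ ∃ m : ℕ, 1 ≤ m ∧ g ^ m ∈ commutator G) ∨ M = ⊤) : False := by
  obtain ⟨P, hP⟩ := hO
  obtain ⟨lo, hl, hr⟩ := order_of_bot hP
  let _ := lo
  have : MulLeftMono G := ⟨fun c a b hab => hl a b c hab⟩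
  have : MulRightMono G := ⟨fun c a b hab => hr a b c hab⟩
  exact mainT hB1 hB2 star

/-- `M` is a proper nontrivial normal subgroup with orderable quotient. -/
def Good (M : Subgroup G) : Prop := M ≠ ⊥ ∧ M ≠ ⊤ ∧ M.Normal ∧ ∃ P, RelCone M P

theorem torsionfree_of_bot {P : Set G} (h : RelCone (⊥ : Subgroup G) P) {g : G} {m : ℕ}
    (hm : 1 ≤ m) (hg : g ^ m = 1) : g = 1 := by
  have hpow : ∀ a ∈ P, ∀ n : ℕ, 1 ≤ n → a ^ n ∈ P := by
    intro a ha n hn
    obtain ⟨k, rfl⟩ : ∃ k, n = k + 1 := ⟨n - 1, by omega⟩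
    clear hn
    induction k with
    | zero => simpa using ha
    | succ k ih => rw [pow_succ]; exact h.mul _ ih _ ha
  rcases h.tri g with h1 | h1 | h1
  · simpa using h1
  · have := hpow g h1 m hm
    rw [hg] at this
    exact absurd (Subgroup.one_mem _) (h.nmem _ this)
  · have := hpow _ h1 m hm
    rw [inv_pow, hg, inv_one] at this
    exact absurd (Subgroup.one_mem _) (h.nmem _ this)

/-- If powers commute then the elements commute. -/
theorem commute_of_pow {P : Set G} (h : RelCone (⊥ : Subgroup G) P) {x y : G} {m : ℕ}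
    (hm : 1 ≤ m) (hxy : x ^ m * y = y * x ^ m) : x * y = y * x := by
  have key : ∀ n : ℕ, ⁅x ^ (n + 1), y⁆ = (x ^ n * ⁅x, y⁆ * (x ^ n)⁻¹) * ⁅x ^ n, y⁆ := by
    intro n
    simp [commutatorElement_def, pow_succ, mul_assoc]
  obtain ⟨n, rfl⟩ : ∃ n, m = n + 1 := ⟨m - 1, by omega⟩
  have h0 : ⁅x ^ (n + 1), y⁆ = 1 := by
    rw [commutatorElement_eq_one_iff_mul_comm]; exact hxy
  rw [← commutatorElement_eq_one_iff_mul_comm]
  rcases h.tri ⁅x, y⁆ with h1 | h1 | h1
  · simpa using h1
  · have h2 : ∀ n : ℕ, ⁅x ^ (n + 1), y⁆ ∈ P := by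
      intro n
      induction n with
      | zero => simpa using h1
      | succ n ih => rw [key]; exact h.mul _ (h.conj _ _ h1) _ ih
    exact absurd (h0 ▸ Subgroup.one_mem _) (h.nmem _ (h2 n))
  · have h2 : ∀ n : ℕ, ⁅x ^ (n + 1), y⁆⁻¹ ∈ P := by
      intro n
      induction n with
      | zero => simpa using h1
      | succ n ih =>
        rw [key, mul_inv_rev]
        refine h.mul _ ih _ ?_
        have := h.conj (x ^ (n + 1)) _ h1
        have e1 : (x ^ (n + 1) * ⁅x, y⁆ * (x ^ (n + 1))⁻¹)⁻¹ =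
          x ^ (n + 1) * ⁅x, y⁆⁻¹ * (x ^ (n + 1))⁻¹ := by group
        rw [e1]
        exact this
    have h3 := h2 n
    rw [h0, inv_one] at h3
    exact absurd (Subgroup.one_mem _) (h.nmem _ h3)

theorem two_good (hO : ∃ P, RelCone (⊥ : Subgroup G) P)
    (hB1 : ⁅commutator G, commutator G⁆ ≠ ⊥)
    (hB2 : ∀ a ∈ ⁅commutator G, commutator G⁆, ∀ b ∈ ⁅commutator G, commutator G⁆,
      a * b = b * a) :
    ∃ H₁ H₂ : Subgroup G, H₁ ≠ H₂ ∧ Good H₁ ∧ Good H₂ := by
  by_contra hcon
  push Not at hcon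
  have huniq : ∀ H₁ H₂ : Subgroup G, Good H₁ → Good H₂ → H₁ = H₂ := by
    intro H₁ H₂ h1 h2
    by_contra hne
    exact hcon H₁ H₂ hne h1 h2
  have hD1 : commutator G ≠ ⊥ := by
    intro h
    apply hB1
    rw [h]
    simp
  obtain ⟨I, hIn, hI, hIP⟩ := exists_isolator (commutator G) le_rfl
  have hIne : I ≠ ⊥ := by
    intro h
    apply hD1
    rw [eq_bot_iff, ← h]
    intro x hx
    exact (hI x).2 ⟨1, le_rfl, by simpa using hx⟩
  by_cases hItop : I = ⊤
  · have hIall : ∀ g : G, ∃ m : ℕ, 1 ≤ m ∧ g ^ m ∈ commutator G := by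
      intro g
      rw [← hI, hItop]
      exact Subgroup.mem_top g
    by_cases hex : ∃ N : Subgroup G, Good N
    · obtain ⟨N, hN⟩ := hex
      obtain ⟨hNbot, hNtop, hNn, PN, hPN⟩ := hN
      have hN : Good N := ⟨hNbot, hNtop, hNn, PN, hPN⟩
      obtain ⟨P', hP'⟩ := hPN.quot
      have hfs : Function.Surjective (QuotientGroup.mk' N) := QuotientGroup.mk'_surjective N
      -- the derived series of the quotient
      have hDQ : commutator (G ⧸ N) = (commutator G).map (QuotientGroup.mk' N) := by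
        rw [commutator_def, commutator_def, Subgroup.map_commutator,
          Subgroup.map_top_of_surjective _ hfs]
      have hBQ : ⁅commutator (G ⧸ N), commutator (G ⧸ N)⁆ =
          (⁅commutator G, commutator G⁆).map (QuotientGroup.mk' N) := by
        rw [hDQ, Subgroup.map_commutator]
      have hQtor : ∀ q : G ⧸ N, ∃ m : ℕ, 1 ≤ m ∧ q ^ m ∈ commutator (G ⧸ N) := by
        intro q
        obtain ⟨g, rfl⟩ := hfs q
        obtain ⟨m, hm, hg⟩ := hIall g
        refine ⟨m, hm, ?_⟩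
        rw [hDQ, ← map_pow]
        exact ⟨_, hg, rfl⟩
      refine mainT' (G := G ⧸ N) ⟨P', hP'⟩ ?_ ?_ ?_
      · intro h0
        have hab : ∀ a ∈ commutator (G ⧸ N), ∀ b ∈ commutator (G ⧸ N), a * b = b * a := by
          intro a ha b hb
          have : ⁅a, b⁆ ∈ ⁅commutator (G ⧸ N), commutator (G ⧸ N)⁆ :=
            Subgroup.commutator_mem_commutator ha hb
          rw [h0, Subgroup.mem_bot, commutatorElement_eq_one_iff_mul_comm] at this
          exact this
        have hab2 : ∀ x y : G ⧸ N, x * y = y * x := by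
          intro x y
          obtain ⟨m, hm, hx⟩ := hQtor x
          obtain ⟨n, hn, hy⟩ := hQtor y
          refine commute_of_pow hP' hm ?_
          refine (commute_of_pow hP' hn ?_).symm
          exact hab _ hy _ hx
        have hcb : commutator (G ⧸ N) = ⊥ := by
          rw [eq_bot_iff, commutator_def, Subgroup.commutator_le]
          intro x _ y _
          rw [Subgroup.mem_bot, commutatorElement_eq_one_iff_mul_comm]
          exact hab2 x y
        apply hNtop
        rw [eq_top_iff]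
        intro g _
        obtain ⟨m, hm, hg⟩ := hQtor (QuotientGroup.mk' N g)
        rw [hcb, Subgroup.mem_bot] at hg
        have := torsionfree_of_bot hP' hm hg
        exact (QuotientGroup.eq_one_iff g).1 this
      · rw [hBQ]
        rintro _ ⟨a, ha, rfl⟩ _ ⟨b, hb, rfl⟩
        rw [← map_mul, ← map_mul, hB2 a ha b hb]
      · rintro M hM ⟨PM, hPM⟩
        have hle : N ≤ M.comap (QuotientGroup.mk' N) := by
          intro x hx
          rw [Subgroup.mem_comap]
          have : QuotientGroup.mk' N x = 1 := (QuotientGroup.eq_one_iff x).2 hx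
          rw [this]
          exact M.one_mem
        by_cases h1 : M.comap (QuotientGroup.mk' N) = ⊤
        · refine Or.inr (Or.inr ?_)
          rw [eq_top_iff]
          intro q _
          obtain ⟨g, rfl⟩ := hfs q
          have : g ∈ M.comap (QuotientGroup.mk' N) := by rw [h1]; exact Subgroup.mem_top g
          exact this
        · have h2 : M.comap (QuotientGroup.mk' N) = N := by
            refine huniq _ _ ⟨?_, h1, inferInstance, _, hPM.comap _⟩ hN
            intro h3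
            apply hNbot
            rw [eq_bot_iff, ← h3]
            exact hle
          refine Or.inl ?_
          rw [eq_bot_iff]
          intro q hq
          obtain ⟨g, rfl⟩ := hfs q
          have : g ∈ M.comap (QuotientGroup.mk' N) := hq
          rw [h2] at this
          rw [Subgroup.mem_bot]
          exact (QuotientGroup.eq_one_iff g).2 this
    · push Not at hex
      refine mainT' hO hB1 hB2 ?_
      intro M hM hMP
      by_cases h1 : M = ⊥
      · exact Or.inl h1
      by_cases h2 : M = ⊤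
      · exact Or.inr (Or.inr h2)
      exact absurd ⟨h1, h2, hM, hMP⟩ (hex M)
  · have hIgood : Good I := ⟨hIne, hItop, hIn, hIP⟩
    refine mainT' hO hB1 hB2 ?_
    intro M hM hMP
    by_cases h1 : M = ⊥
    · exact Or.inl h1
    by_cases h2 : M = ⊤
    · exact Or.inr (Or.inr h2)
    refine Or.inr (Or.inl ?_)
    have := huniq M I ⟨h1, h2, hM, hMP⟩ hIgood
    intro g
    rw [this, hI]

end Q23Cvx
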