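import Mathlib

/-!
# A centre-by-(lamplighter-like) group of P. Hall type over `ℤ × ℤ`

Elements are triples `(f, z, g)`: `f` a finitely supported function `ℤ × ℤ → ZMod 2`, `z` a
sequence in `ZMod 2`, `g ∈ ℤ × ℤ`.  The commutator of the delta functions at `h` and `g` is the
central sequence `χ (h - g) + χ (g - h)`.
-/

namespace Q23.Hall

/-- The lattice. -/
abbrev L := ℤ × ℤ

/-- Finitely supported functions. -/
abbrev E := L →₀ ZMod 2

/-- Central part. -/
abbrev Z := ℕ → ZMod 2

/-- The vectors `x n = 2 ^ n (1, n + 1)`. -/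
def x (n : ℕ) : L := (2 ^ n, 2 ^ n * (n + 1))

open Classical in
/-- `χ d n = 1` iff `d ≡ x n` modulo `2 ^ (2 n + 2)`. -/
noncomputable def χ (d : L) : Z := fun n => if ∃ e : L, d = x n + ((2 : ℤ) ^ (2 * n + 2)) • e then 1 else 0

/-- translation -/
noncomputable def tr (g : L) : E →ₗ[ZMod 2] E := Finsupp.lmapDomain (ZMod 2) (ZMod 2) (fun h => h + g)

lemma tr_single (g h : L) (a : ZMod 2) : tr g (Finsupp.single h a) = Finsupp.single (h + g) a := by
  simp [tr, Finsupp.mapDomain_single]

lemma tr_add (g g' : L) (f : E) : tr (g + g') f = tr g (tr g' f) := by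
  have : tr (g + g') = (tr g).comp (tr g') := by
    apply Finsupp.lhom_ext
    intro h a
    rw [tr_single, LinearMap.comp_apply, tr_single, tr_single]
    congr 1
    abel
  rw [this]; rfl

lemma tr_zero (f : E) : tr 0 f = f := by
  have : tr 0 = LinearMap.id := by
    apply Finsupp.lhom_ext
    intro h a
    rw [tr_single]
    simp
  rw [this]; rfl

/-- The bilinear form. -/
noncomputable def B : E →ₗ[ZMod 2] E →ₗ[ZMod 2] Z :=
  Finsupp.lift (E →ₗ[ZMod 2] Z) (ZMod 2) L (fun g => Finsupp.lift Z (ZMod 2) L (fun h => χ (h - g)))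

lemma B_single (g h : L) : B (Finsupp.single g 1) (Finsupp.single h 1) = χ (h - g) := by
  simp [B, Finsupp.lift_apply, Finsupp.sum_single_index]

lemma E_ext {M : Type*} [AddCommMonoid M] [Module (ZMod 2) M] (φ ψ : E →ₗ[ZMod 2] M)
    (h : ∀ g, φ (Finsupp.single g 1) = ψ (Finsupp.single g 1)) : φ = ψ := by
  apply Finsupp.lhom_ext'
  intro g
  apply LinearMap.ext_ring
  exact h g

lemma B_tr (g : L) (f f' : E) : B (tr g f) (tr g f') = B f f' := by
  have : (B.compl₁₂ (tr g) (tr g)) = B := by
    apply E_ext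
    intro a
    apply E_ext
    intro b
    rw [LinearMap.compl₁₂_apply, tr_single, tr_single, B_single, B_single]
    congr 1
    abel
  have h2 := congrArg (fun φ => φ f f') this
  simpa using h2

lemma add_self_E (f : E) : f + f = 0 := ZModModule.add_self f

lemma add_self_Z (f : Z) : f + f = 0 := ZModModule.add_self f

/-- The group. -/
@[ext] structure W where
  f : E
  z : Z
  g : L

noncomputable instance : Mul W := ⟨fun a b => ⟨a.f + tr a.g b.f, a.z + b.z + B a.f (tr a.g b.f), a.g + b.g⟩⟩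

instance : One W := ⟨⟨0, 0, 0⟩⟩

noncomputable instance : Inv W := ⟨fun a => ⟨tr (-a.g) a.f, a.z + B a.f a.f, -a.g⟩⟩

lemma mul_f (a b : W) : (a * b).f = a.f + tr a.g b.f := rfl
lemma mul_z (a b : W) : (a * b).z = a.z + b.z + B a.f (tr a.g b.f) := rfl
lemma mul_g (a b : W) : (a * b).g = a.g + b.g := rfl
lemma one_f : (1 : W).f = 0 := rfl
lemma one_z : (1 : W).z = 0 := rfl
lemma one_g : (1 : W).g = 0 := rfl
lemma inv_f (a : W) : (a⁻¹).f = tr (-a.g) a.f := rfl
lemma inv_z (a : W) : (a⁻¹).z = a.z + B a.f a.f := rfl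
lemma inv_g (a : W) : (a⁻¹).g = -a.g := rfl

noncomputable instance : Group W := Group.ofLeftAxioms
  (by
    intro a b c
    apply W.ext
    · rw [mul_f, mul_f, mul_f, mul_f, map_add, mul_g, tr_add, add_assoc]
    · rw [mul_z, mul_z, mul_z, mul_z, mul_f, mul_f, mul_g, map_add, map_add, map_add,
        LinearMap.add_apply, tr_add, B_tr]
      abel
    · rw [mul_g, mul_g, mul_g, mul_g, add_assoc])
  (by
    intro a
    apply W.ext
    · rw [mul_f, one_f, one_g, tr_zero, zero_add]
    · rw [mul_z, one_f, one_z, map_zero, LinearMap.zero_apply, zero_add, add_zero]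
    · rw [mul_g, one_g, zero_add])
  (by
    intro a
    apply W.ext
    · rw [mul_f, inv_f, inv_g, add_self_E, one_f]
    · rw [mul_z, inv_z, inv_f, inv_g, B_tr, one_z]
      have h1 := add_self_Z a.z
      have h2 := add_self_Z (B a.f a.f)
      have : a.z + B a.f a.f + a.z + B a.f a.f = (a.z + a.z) + (B a.f a.f + B a.f a.f) := by abel
      rw [this, h1, h2, add_zero]
    · rw [mul_g, inv_g, neg_add_cancel, one_g])

/-- projection to the lattice -/
def pr : W →* Multiplicative L where
  toFun a := Multiplicative.ofAdd a.g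
  map_one' := rfl
  map_mul' _ _ := rfl

/-- the kernel of `pr` maps to `E` -/
noncomputable def toE : pr.ker →* Multiplicative E where
  toFun a := Multiplicative.ofAdd a.1.f
  map_one' := rfl
  map_mul' a b := by
    have ha : a.1.g = 0 := a.2
    show Multiplicative.ofAdd (a.1 * b.1).f = _
    rw [mul_f, ha, tr_zero]
    rfl

instance : Group.IsSolvable W := by
  have h1 : Group.IsSolvable toE.ker := by
    apply Group.isSolvable_of_comm
    rintro ⟨⟨a, ha⟩, ha'⟩ ⟨⟨b, hb⟩, hb'⟩
    apply Subtype.ext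
    apply Subtype.ext
    have e1 : a.g = 0 := ha
    have e2 : b.g = 0 := hb
    have e3 : a.f = 0 := ha'
    have e4 : b.f = 0 := hb'
    show a * b = b * a
    apply W.ext
    · rw [mul_f, mul_f, e1, e2, tr_zero, tr_zero, add_comm]
    · rw [mul_z, mul_z, e3, e4]
      simp [add_comm]
    · rw [mul_g, mul_g, add_comm]
  have h2 : Group.IsSolvable pr.ker :=
    Group.isSolvable_of_ker_le_range toE.ker.subtype toE (by rw [Subgroup.range_subtype])
  exact Group.isSolvable_of_ker_le_range pr.ker.subtype pr (by rw [Subgroup.range_subtype])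

/-- elements of the lattice in `W` -/
def inr (g : L) : W := ⟨0, 0, g⟩

/-- the generator -/
noncomputable def u0 : W := ⟨Finsupp.single 0 1, 0, 0⟩

/-- the generators -/
noncomputable def gens : Set W := {u0, inr (1, 0), inr (0, 1)}

/-- The finitely generated group. -/
noncomputable def G : Subgroup W := Subgroup.closure gens

instance : Group.FG G := by
  rw [Group.fg_iff_subgroup_fg]
  refine (Subgroup.fg_iff _).2 ⟨gens, rfl, ?_⟩
  unfold gens
  exact Set.toFinite _

instance : Group.IsSolvable G := inferInstance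

/-- `inr` as a homomorphism -/
def inrHom : Multiplicative L →* W where
  toFun g := inr g.toAdd
  map_one' := rfl
  map_mul' a b := by
    apply W.ext
    · rw [mul_f]; simp [inr]
    · rw [mul_z]; simp [inr]
    · rw [mul_g]; rfl

lemma inr_mem_G (c : L) : inr c ∈ G := by
  have h1 : inr (1, 0) ∈ G := Subgroup.subset_closure (by simp [gens])
  have h2 : inr (0, 1) ∈ G := Subgroup.subset_closure (by simp [gens])
  have e : inr c = (inr (1, 0)) ^ c.1 * (inr (0, 1)) ^ c.2 := by
    show inrHom (Multiplicative.ofAdd c) = (inrHom (Multiplicative.ofAdd (1, 0))) ^ c.1 *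
      (inrHom (Multiplicative.ofAdd (0, 1))) ^ c.2
    rw [← map_zpow inrHom, ← map_zpow inrHom, ← map_mul]
    congr 1
    rw [show (Multiplicative.ofAdd ((1 : ℤ), (0 : ℤ))) ^ c.1 =
      Multiplicative.ofAdd (c.1 • ((1 : ℤ), (0 : ℤ))) from (ofAdd_zsmul _ _).symm,
      show (Multiplicative.ofAdd ((0 : ℤ), (1 : ℤ))) ^ c.2 =
      Multiplicative.ofAdd (c.2 • ((0 : ℤ), (1 : ℤ))) from (ofAdd_zsmul _ _).symm, ← ofAdd_add]
    congr 1
    ext <;> simp
  rw [e]
  exact mul_mem (zpow_mem h1 _) (zpow_mem h2 _)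

lemma u0_mem_G : u0 ∈ G := Subgroup.subset_closure (by simp [gens])

open scoped commutatorElement

lemma comm_f (a b : W) : ⁅a, b⁆.f = (a.f + tr b.g a.f) + (b.f + tr a.g b.f) := by
  rw [commutatorElement_def, mul_f, mul_f, mul_f, mul_g, mul_g, mul_g, inv_f, inv_f, inv_g,
    ← tr_add, ← tr_add]
  have e1 : a.g + b.g + -a.g = b.g := by abel
  rw [e1, add_neg_cancel, tr_zero]
  abel

lemma comm_g (a b : W) : ⁅a, b⁆.g = 0 := by
  rw [commutatorElement_def, mul_g, mul_g, mul_g, inv_g, inv_g]
  abel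

lemma sq_of_g_zero (a : W) (ha : a.g = 0) : a ^ 2 = ⟨0, B a.f a.f, 0⟩ := by
  rw [pow_two]
  apply W.ext
  · rw [mul_f, ha, tr_zero, add_self_E]
  · rw [mul_z, ha, tr_zero, add_self_Z, zero_add]
  · rw [mul_g, ha, add_zero]

end Q23.Hall
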