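import Pool.Agent.Q23.LineGroup

namespace Q23.Line

open DihedralGroup
open scoped commutatorElement

/-- Elements of `W` over a strip. -/
def RB (B : Set L) (c : Multiplicative L) (hB : ∀ b ∈ B, ∀ k : ℤ, b + k • c.toAdd ∈ B) :
    Subgroup W where
  carrier := {w | w.left ∈ Q B ∧ w.right ∈ Subgroup.zpowers c}
  mul_mem' {a b} := by
    rintro ⟨h1, k, hk⟩ ⟨h3, h4⟩
    refine ⟨?_, ?_⟩
    · rw [SemidirectProduct.mul_left]
      refine mul_mem h1 (shift_mem_Q _ ?_ h3)
      intro b hb
      have := hB b hb k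
      rw [← hk]
      simpa using this
    · rw [SemidirectProduct.mul_right]
      exact mul_mem ⟨k, hk⟩ h4
  one_mem' := ⟨one_mem _, one_mem _⟩
  inv_mem' {a} := by
    rintro ⟨h1, k, hk⟩
    refine ⟨?_, ?_⟩
    · rw [SemidirectProduct.inv_left]
      refine shift_mem_Q _ ?_ (inv_mem h1)
      intro b hb
      have := hB b hb (-k)
      rw [← hk]
      simpa using this
    · rw [SemidirectProduct.inv_right]
      exact inv_mem ⟨k, hk⟩

lemma strip (x y : G) : ∃ (B : Set L) (M : ℕ), Narrow B M ∧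
    ∀ h ∈ Subgroup.closure ({x, y⁻¹ * x * y} : Set G), (h : W).left ∈ Q B ∧
      (h : W).right ∈ Subgroup.zpowers (x : W).right := by
  classical
  obtain ⟨F, hF⟩ := G_le_WFin x.2
  obtain ⟨F', hF'⟩ := G_le_WFin (y⁻¹ * x * y).2
  set c := (x : W).right with hc
  have hr : ((y⁻¹ * x * y : G) : W).right = c := by
    simp only [Subgroup.coe_mul, Subgroup.coe_inv, SemidirectProduct.mul_right,
      SemidirectProduct.inv_right]
    rw [mul_comm, mul_inv_cancel_left]
  obtain ⟨M, hM⟩ := narrow_line (F ∪ F') c.toAdd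
  have hB : ∀ b ∈ {g | ∃ f ∈ F ∪ F', ∃ k : ℤ, g = f + k • c.toAdd}, ∀ k : ℤ,
      b + k • c.toAdd ∈ {g | ∃ f ∈ F ∪ F', ∃ k : ℤ, g = f + k • c.toAdd} := by
    rintro b ⟨f, hf, k, rfl⟩ k'
    exact ⟨f, hf, k + k', by rw [add_smul]; abel⟩
  refine ⟨_, M, hM, ?_⟩
  have hle : Subgroup.closure ({x, y⁻¹ * x * y} : Set G) ≤ (RB _ c hB).comap G.subtype := by
    rw [Subgroup.closure_le]
    intro w hw
    rcases hw with rfl | hw
    · refine ⟨Q_mono ?_ hF, Subgroup.mem_zpowers _⟩
      intro f hf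
      exact ⟨f, by simp; left; exact hf, 0, by simp⟩
    · have hw' : w = y⁻¹ * x * y := hw
      subst hw'
      refine ⟨Q_mono ?_ hF', ?_⟩
      · intro f hf
        exact ⟨f, by simp; right; exact hf, 0, by simp⟩
      · have : (G.subtype (y⁻¹ * x * y)).right = c := hr
        rw [this]
        exact Subgroup.mem_zpowers _
  intro h hh
  exact hle hh

lemma left_pow_of_right_one (w : W) (hw : w.right = 1) (e : ℕ) : w ^ e = SemidirectProduct.inl (w.left ^ e) := by
  have : w = SemidirectProduct.inl w.left := by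
    apply SemidirectProduct.ext
    · simp
    · simp [hw]
  conv_lhs => rw [this]
  rw [← map_pow]

/-- the projection of `G` to the lattice -/
def pr : G →* Multiplicative L := SemidirectProduct.rightHom.comp G.subtype

lemma pr_apply (x : G) : pr x = (x : W).right := rfl

/-- iterated commutator -/
def iter {H : Type*} [Group H] (x y : H) : ℕ → H
  | 0 => x
  | k + 1 => ⁅iter x y k, y⁆

lemma iter_map {H K : Type*} [Group H] [Group K] (f : H →* K) (x y : H) (k : ℕ) :
    f (iter x y k) = iter (f x) (f y) k := by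
  induction k with
  | zero => rfl
  | succ k ih => rw [iter, iter, map_commutatorElement, ih]

lemma iter_mem_lcs {H : Type*} [Group H] (x y : H) (k : ℕ) :
    iter x y k ∈ (⊤ : Subgroup H).lowerCentralSeries k := by
  induction k with
  | zero => simp
  | succ k ih =>
    rw [iter]
    exact Subgroup.commutator_mem_commutator ih (Subgroup.mem_top _)

lemma iter_mem_lcs' {H : Type*} [Group H] (S : Subgroup H) (x y : H) (hx : ⁅x, y⁆ ∈ S) (hy : y ∈ S)
    (k : ℕ) : iter x y (k + 1) ∈ S.lowerCentralSeries k := by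
  induction k with
  | zero => exact hx
  | succ k ih =>
    rw [iter]
    exact Subgroup.commutator_mem_commutator ih hy

lemma comm_sr_sr {m : ℕ} (a b : ZMod m) : ⁅(sr a : DihedralGroup m), sr b⁆ = r (2 * (b - a)) := by
  rw [commutatorElement_def]
  have h1 : (sr a : DihedralGroup m)⁻¹ = sr a := rfl
  have h2 : (sr b : DihedralGroup m)⁻¹ = sr b := rfl
  rw [h1, h2, sr_mul_sr, mul_assoc, sr_mul_sr, r_mul_r]
  congr 1
  ring

lemma comm_r_sr {m : ℕ} (a b : ZMod m) : ⁅(r a : DihedralGroup m), sr b⁆ = r (2 * a) := by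
  rw [commutatorElement_def]
  have h1 : (r a : DihedralGroup m)⁻¹ = r (-a) := rfl
  have h2 : (sr b : DihedralGroup m)⁻¹ = sr b := rfl
  rw [h1, h2, r_mul_sr, sr_mul_r, sr_mul_sr]
  congr 1
  ring

lemma iter_dih {m : ℕ} (a b : ZMod m) (k : ℕ) :
    iter (sr a : DihedralGroup m) (sr b) (k + 1) = r (2 ^ (k + 1) * (b - a)) := by
  induction k with
  | zero => rw [iter, iter, comm_sr_sr]; congr 1; ring
  | succ k ih => rw [iter, ih, comm_r_sr]; congr 1; ring

/-- evaluation on `P` -/
def ev (n : ℕ) (g : L) : P →* DihedralGroup (2 ^ n) where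
  toFun f := f n g
  map_one' := rfl
  map_mul' _ _ := rfl

lemma d_ne_zero (n : ℕ) : d n ≠ 0 := by
  intro h
  have : ((n : ℤ) + 1) = 0 := congrArg Prod.fst h
  omega

lemma u_zero_ev (n : ℕ) : ev n 0 (u 0) = sr 0 := by
  show u 0 n 0 = sr 0
  simp [u]

lemma u_d_ev (n : ℕ) : ev n 0 (u (d n)) = sr 1 := by
  show u (d n) n 0 = sr 1
  have := d_ne_zero n
  unfold u
  rw [if_neg this.symm, if_pos (by simp)]

lemma u_other_ev (n : ℕ) (c : L) (h0 : c ≠ 0) (h1 : c ≠ d n) : ev n 0 (u c) = 1 := by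
  show u c n 0 = 1
  unfold u
  rw [if_neg h0.symm, if_neg (by rw [zero_add]; exact h1.symm)]

end Q23.Line
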