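import Pool.Agent.Q23.HallTwo
import Pool.Agent.Q23.LineGroupB

namespace Q23.Hall

open scoped commutatorElement

lemma chi_shift (n : ℕ) (d e : L) : χ (d + ((2 : ℤ) ^ (2 * n + 2)) • e) n = χ d n := by
  unfold χ
  have : (∃ e' : L, d + ((2 : ℤ) ^ (2 * n + 2)) • e = x n + ((2 : ℤ) ^ (2 * n + 2)) • e') ↔
      (∃ e' : L, d = x n + ((2 : ℤ) ^ (2 * n + 2)) • e') := by
    constructor
    · rintro ⟨e', he⟩
      refine ⟨e' - e, ?_⟩
      rw [smul_sub, ← add_sub_assoc, ← he]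
      abel
    · rintro ⟨e', he⟩
      refine ⟨e' + e, ?_⟩
      rw [smul_add, he]
      abel
  by_cases h : ∃ e' : L, d = x n + ((2 : ℤ) ^ (2 * n + 2)) • e'
  · rw [if_pos h, if_pos (this.2 h)]
  · rw [if_neg h, if_neg (fun h' => h (this.1 h'))]

lemma sq_lt_pow (n : ℕ) : ((n : ℤ)) ^ 2 + 2 * n < 2 ^ (n + 2) := by
  induction n with
  | zero => norm_num
  | succ n ih =>
    rcases Nat.lt_or_ge n 2 with h | h
    · interval_cases n <;> norm_num
    · have h' : (2 : ℤ) ≤ n := by exact_mod_cast h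
      have : (2 : ℤ) ^ (n + 1 + 2) = 2 * 2 ^ (n + 2) := by ring
      rw [this]
      push_cast
      nlinarith

/-- the points `x n + 2 ^ (2 n + 2) e` eventually avoid every line -/
lemma avoid (c v : L) : ∃ n0 : ℕ, ∀ n ≥ n0, ∀ k : ℤ, χ (c + k • v) n = 0 := by
  obtain ⟨a, b⟩ := c
  obtain ⟨p, q⟩ := v
  refine ⟨(|a * q - b * p| + |p| + |q| + |a| + 5).toNat, ?_⟩
  intro n hn k
  unfold χ
  rw [if_neg]
  rintro ⟨⟨s, t⟩, he⟩
  simp only [x, Prod.smul_mk, smul_eq_mul, Prod.mk_add_mk, Prod.mk.injEq] at he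
  obtain ⟨h1, h2⟩ := he
  have i1 := abs_nonneg (a * q - b * p)
  have i2 := abs_nonneg p
  have i3 := abs_nonneg q
  have i4 := abs_nonneg a
  have hn' : |a * q - b * p| + |p| + |q| + |a| + 5 ≤ (n : ℤ) := by omega
  have hpow : (n : ℤ) < 2 ^ n := by exact_mod_cast Nat.lt_two_pow_self
  have e2 : (2 : ℤ) ^ (2 * n + 2) = 2 ^ n * 2 ^ (n + 2) := by rw [← pow_add]; congr 1; ring
  by_cases hpq : p = 0 ∧ q = 0
  · obtain ⟨rfl, rfl⟩ := hpq
    have h3 : a = 2 ^ n * (1 + 2 ^ (n + 2) * s) := by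
      have : a = a + k * 0 := by ring
      rw [this, h1, e2]; ring
    have h4 : a = 0 := Int.eq_zero_of_abs_lt_dvd (m := 2 ^ n) ⟨_, h3⟩ (by linarith)
    rw [h4] at h3
    have h5 : (1 + 2 ^ (n + 2) * s) = 0 := by
      rcases mul_eq_zero.1 h3.symm with h | h
      · exact absurd h (by positivity)
      · exact h
    have h6 : (2 : ℤ) ∣ 1 := by
      refine ⟨-(2 ^ (n + 1) * s), ?_⟩
      have : (1 : ℤ) = -(2 ^ (n + 2) * s) := by linarith
      rw [this, pow_succ (2 : ℤ) (n + 1)]; ring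
    norm_num at h6
  · have h3 : a * q - b * p = 2 ^ n * ((q - (n + 1) * p) + 2 ^ (n + 2) * (s * q - t * p)) := by
      have ha : a = 2 ^ n + 2 ^ (2 * n + 2) * s - k * p := by linarith
      have hb : b = 2 ^ n * (n + 1) + 2 ^ (2 * n + 2) * t - k * q := by linarith
      rw [ha, hb, e2]; ring
    have h4 : a * q - b * p = 0 := Int.eq_zero_of_abs_lt_dvd (m := 2 ^ n) ⟨_, h3⟩ (by linarith)
    rw [h4] at h3
    have h5 : (q - (n + 1) * p) + 2 ^ (n + 2) * (s * q - t * p) = 0 := by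
      rcases mul_eq_zero.1 h3.symm with h | h
      · exact absurd h (by positivity)
      · exact h
    have h6 : q - (n + 1) * p = 2 ^ (n + 2) * (-(s * q - t * p)) := by linarith
    have h7 : |q - (n + 1) * p| < 2 ^ (n + 2) := by
      have j1 : |q - (n + 1) * p| ≤ |q| + |(n + 1) * p| := abs_sub _ _
      have j2 : |((n : ℤ) + 1) * p| = (n + 1) * |p| := by
        rw [abs_mul, abs_of_pos (by positivity : (0 : ℤ) < (n : ℤ) + 1)]
      have j3 := sq_lt_pow n
      have j4 : |q| ≤ (n : ℤ) := by linarith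
      have j5 : |p| ≤ (n : ℤ) := by linarith
      nlinarith
    have h8 : q - (n + 1) * p = 0 := Int.eq_zero_of_abs_lt_dvd ⟨_, h6⟩ h7
    have h9 : q = (n + 1) * p := by linarith
    have h10 : |q| = (n + 1) * |p| := by
      rw [h9, abs_mul, abs_of_pos (by positivity : (0 : ℤ) < (n : ℤ) + 1)]
    have h11 : |p| = 0 := by
      by_contra hne
      have : 1 ≤ |p| := by omega
      nlinarith
    have h12 : p = 0 := abs_eq_zero.1 h11
    apply hpq
    refine ⟨h12, ?_⟩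
    rw [h9, h12, mul_zero]

/-- the strip in direction `v` -/
def strip (F : Finset L) (v : L) : Set L := {g | ∃ f ∈ F, ∃ k : ℤ, g = f + k • v}

lemma periodic (F : Finset L) (v : L) : ∃ k : ℕ, ∀ g ∈ strip F v, ∀ h ∈ strip F v,
    χ (h + ((2 : ℤ) ^ k) • v - g) = χ (h - g) := by
  choose n0 hn0 using fun c : L => avoid c v
  let M := ∑ f ∈ F, ∑ f' ∈ F, n0 (f' - f)
  refine ⟨2 * M + 2, ?_⟩
  rintro g ⟨f, hf, k, rfl⟩ h ⟨f', hf', k', rfl⟩
  have hM : n0 (f' - f) ≤ M := by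
    have h1 : n0 (f' - f) ≤ ∑ f'' ∈ F, n0 (f'' - f) :=
      Finset.single_le_sum (f := fun f'' => n0 (f'' - f)) (fun i _ => Nat.zero_le _) hf'
    have h2 : ∑ f'' ∈ F, n0 (f'' - f) ≤ M :=
      Finset.single_le_sum (f := fun f => ∑ f'' ∈ F, n0 (f'' - f)) (fun i _ => Nat.zero_le _) hf
    exact h1.trans h2
  funext n
  rcases Nat.lt_or_ge n M with hn | hn
  · have e1 : f' + k' • v + (2 : ℤ) ^ (2 * M + 2) • v - (f + k • v) =
        (f' + k' • v - (f + k • v)) + ((2 : ℤ) ^ (2 * n + 2)) • ((2 : ℤ) ^ (2 * M - 2 * n) • v) := by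
      rw [smul_smul, ← pow_add, show 2 * n + 2 + (2 * M - 2 * n) = 2 * M + 2 by omega]
      abel
    rw [e1, chi_shift]
  · have e1 : f' + k' • v + (2 : ℤ) ^ (2 * M + 2) • v - (f + k • v) =
        (f' - f) + (k' + 2 ^ (2 * M + 2) - k) • v := by
      rw [sub_smul, add_smul]; abel
    have e2 : f' + k' • v - (f + k • v) = (f' - f) + (k' - k) • v := by
      rw [sub_smul]; abel
    rw [e1, e2, hn0 _ n (hM.trans hn), hn0 _ n (hM.trans hn)]

/-- functions supported on the strip -/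
noncomputable def ES (F : Finset L) (v : L) : Submodule (ZMod 2) E :=
  Submodule.span (ZMod 2) ((fun g => Finsupp.single g (1 : ZMod 2)) '' strip F v)

lemma mem_ES_of_support (F : Finset L) (v : L) (f : E) (h : ∀ g ∈ f.support, g ∈ strip F v) :
    f ∈ ES F v := by
  rw [← Finsupp.sum_single f]
  refine Submodule.sum_mem _ ?_
  intro g hg
  have : (Finsupp.single g (f g) : E) = (f g) • Finsupp.single g (1 : ZMod 2) := by
    rw [Finsupp.smul_single, smul_eq_mul, mul_one]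
  rw [this]
  exact Submodule.smul_mem _ _ (Submodule.subset_span ⟨g, h g hg, rfl⟩)

lemma tr_mem_ES {F : Finset L} {v : L} (k : ℤ) {f : E} (hf : f ∈ ES F v) : tr (k • v) f ∈ ES F v := by
  have : ES F v ≤ (ES F v).comap (tr (k • v)) := by
    unfold ES
    rw [Submodule.span_le]
    rintro _ ⟨g, ⟨f, hf, j, rfl⟩, rfl⟩
    show tr (k • v) (Finsupp.single _ 1) ∈
      Submodule.span (ZMod 2) ((fun g => Finsupp.single g (1 : ZMod 2)) '' strip F v)
    rw [tr_single]
    refine Submodule.subset_span ⟨_, ⟨f, hf, j + k, ?_⟩, rfl⟩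
    rw [add_smul]; abel
  exact this hf

lemma B_periodic {F : Finset L} {v : L} {k : ℕ}
    (hk : ∀ g ∈ strip F v, ∀ h ∈ strip F v, χ (h + ((2 : ℤ) ^ k) • v - g) = χ (h - g))
    {f f' : E} (hf : f ∈ ES F v) (hf' : f' ∈ ES F v) :
    B f (tr (((2 : ℤ) ^ k) • v) f') = B f f' := by
  unfold ES at hf hf'
  induction hf using Submodule.span_induction with
  | mem y hy =>
    obtain ⟨g, hg, rfl⟩ := hy
    induction hf' using Submodule.span_induction with
    | mem y hy =>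
      obtain ⟨h, hh, rfl⟩ := hy
      show B (Finsupp.single g 1) (tr _ (Finsupp.single h 1)) = B (Finsupp.single g 1) (Finsupp.single h 1)
      rw [tr_single, B_single, B_single]
      exact hk g hg h hh
    | zero => simp
    | add y z _ _ h1 h2 => rw [map_add, map_add, map_add, h1, h2]
    | smul a y _ h1 => rw [map_smul, map_smul, map_smul, h1]
  | zero => simp
  | add y z _ _ h1 h2 => rw [map_add, LinearMap.add_apply, LinearMap.add_apply, h1, h2]
  | smul a y _ h1 => rw [map_smul, LinearMap.smul_apply, LinearMap.smul_apply, h1]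

/-- `1 + T` -/
noncomputable def D (v : L) : Module.End (ZMod 2) E := 1 + tr v

lemma D_apply (v : L) (f : E) : D v f = f + tr v f := rfl

lemma tr_comm (g h : L) (f : E) : tr g (tr h f) = tr h (tr g f) := by
  rw [← tr_add, ← tr_add, add_comm]

lemma D_tr (v g : L) (f : E) : D v (tr g f) = tr g (D v f) := by
  rw [D_apply, D_apply, map_add, tr_comm]

lemma Dpow_tr (v g : L) (j : ℕ) (f : E) : (D v ^ j) (tr g f) = tr g ((D v ^ j) f) := by
  induction j with
  | zero => rfl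
  | succ j ih =>
    rw [pow_succ', Module.End.mul_apply, Module.End.mul_apply, ih, D_tr]

lemma Dpow_succ (v : L) (j : ℕ) (f : E) : (D v ^ (j + 1)) f = (D v ^ j) (D v f) := by
  rw [pow_succ, Module.End.mul_apply]

lemma D_mem_ES {F : Finset L} {v : L} {f : E} (hf : f ∈ ES F v) : D v f ∈ ES F v := by
  rw [D_apply]
  have := tr_mem_ES 1 hf
  rw [one_smul] at this
  exact add_mem hf this

lemma Dpow_two (v : L) (k : ℕ) (f : E) : (D v ^ (2 ^ k)) f = f + tr (((2 : ℤ) ^ k) • v) f := by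
  induction k generalizing f with
  | zero => rw [pow_zero, pow_one, pow_zero, one_smul, D_apply]
  | succ k ih =>
    have e1 : (2 : ℕ) ^ (k + 1) = 2 ^ k + 2 ^ k := by ring
    have e2 : ((2 : ℤ) ^ (k + 1)) • v = ((2 : ℤ) ^ k) • v + ((2 : ℤ) ^ k) • v := by
      rw [← add_smul]; congr 1; ring
    rw [e1, pow_add, Module.End.mul_apply, ih, ih, e2, tr_add, map_add]
    have := add_self_E (tr (((2 : ℤ) ^ k) • v) f)
    have h2 : f + tr (((2 : ℤ) ^ k) • v) f + (tr (((2 : ℤ) ^ k) • v) f +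
        tr (((2 : ℤ) ^ k) • v) (tr (((2 : ℤ) ^ k) • v) f)) = f +
        (tr (((2 : ℤ) ^ k) • v) f + tr (((2 : ℤ) ^ k) • v) f) +
        tr (((2 : ℤ) ^ k) • v) (tr (((2 : ℤ) ^ k) • v) f) := by abel
    rw [h2, this, add_zero]

lemma one_add_tr {F : Finset L} {v : L} (k : ℤ) {f : E} (hf : f ∈ ES F v) :
    ∃ r ∈ ES F v, f + tr (k • v) f = D v r := by
  induction k with
  | zero => exact ⟨0, zero_mem _, by rw [zero_smul, tr_zero, add_self_E, map_zero]⟩
  | succ k ih =>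
    obtain ⟨r, hr, h⟩ := ih
    refine ⟨r + tr ((k : ℤ) • v) f, add_mem hr (tr_mem_ES _ hf), ?_⟩
    rw [map_add, ← h, D_tr, D_apply, map_add, ← tr_add, add_smul, one_smul]
    have := add_self_E (tr ((k : ℤ) • v) f)
    have h2 : f + tr ((k : ℤ) • v) f + (tr ((k : ℤ) • v) f + tr ((k : ℤ) • v + v) f) =
      f + (tr ((k : ℤ) • v) f + tr ((k : ℤ) • v) f) + tr ((k : ℤ) • v + v) f := by abel
    rw [h2, this, add_zero]
  | pred k ih =>
    obtain ⟨r, hr, h⟩ := ih
    refine ⟨r + tr ((-(k : ℤ) - 1) • v) f, add_mem hr (tr_mem_ES _ hf), ?_⟩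
    rw [map_add, ← h, D_tr, D_apply, map_add, ← tr_add, sub_smul, one_smul, sub_add_cancel]
    have := add_self_E (tr ((-(k : ℤ)) • v) f)
    have h2 : f + tr (-(k : ℤ) • v) f + (tr (-(k : ℤ) • v - v) f + tr (-(k : ℤ) • v) f) =
      f + (tr (-(k : ℤ) • v) f + tr (-(k : ℤ) • v) f) + tr (-(k : ℤ) • v - v) f := by abel
    rw [h2, this, add_zero]

/-- Elements of `W` over a strip. -/
noncomputable def RB (F : Finset L) (v : L) : Subgroup W where
  carrier := {w | w.f ∈ ES F v ∧ ∃ k : ℤ, w.g = k • v}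
  mul_mem' {a b} := by
    rintro ⟨h1, k, hk⟩ ⟨h2, k', hk'⟩
    refine ⟨?_, k + k', by rw [mul_g, hk, hk', add_smul]⟩
    rw [mul_f, hk]
    exact add_mem h1 (tr_mem_ES _ h2)
  one_mem' := ⟨zero_mem _, 0, by rw [one_g, zero_smul]⟩
  inv_mem' {a} := by
    rintro ⟨h1, k, hk⟩
    refine ⟨?_, -k, by rw [inv_g, hk, neg_smul]⟩
    rw [inv_f, hk, ← neg_smul]
    exact tr_mem_ES _ h1

/-- The descending chain. -/
noncomputable def V (F : Finset L) (v : L) (j : ℕ) : Subgroup W where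
  carrier := {w | w.g = 0 ∧ ∃ r ∈ ES F v, w.f = (D v ^ j) r}
  mul_mem' {a b} := by
    rintro ⟨h1, r, hr, h⟩ ⟨h2, r', hr', h'⟩
    refine ⟨by rw [mul_g, h1, h2, add_zero], r + r', add_mem hr hr', ?_⟩
    rw [mul_f, h1, tr_zero, h, h', map_add]
  one_mem' := ⟨rfl, 0, zero_mem _, by rw [map_zero, one_f]⟩
  inv_mem' {a} := by
    rintro ⟨h1, r, hr, h⟩
    refine ⟨by rw [inv_g, h1, neg_zero], r, hr, ?_⟩
    rw [inv_f, h1, neg_zero, tr_zero, h]

lemma lcs_le_V (F : Finset L) (v : L) (j : ℕ) : (RB F v).lowerCentralSeries (j + 1) ≤ V F v (j + 1) := by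
  induction j with
  | zero =>
    rw [Subgroup.lowerCentralSeries_succ, Subgroup.lowerCentralSeries_zero, Subgroup.commutator_le]
    rintro a ⟨ha, k, hk⟩ b ⟨hb, k', hk'⟩
    refine ⟨comm_g a b, ?_⟩
    obtain ⟨r, hr, h⟩ := one_add_tr k' ha
    obtain ⟨r', hr', h'⟩ := one_add_tr k hb
    refine ⟨r + r', add_mem hr hr', ?_⟩
    rw [comm_f, hk, hk', h, h', zero_add, pow_one, map_add]
  | succ j ih =>
    rw [Subgroup.lowerCentralSeries_succ, Subgroup.commutator_le]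
    rintro a ha b ⟨hb, k', hk'⟩
    obtain ⟨h1, r, hr, h⟩ := ih ha
    refine ⟨comm_g a b, ?_⟩
    obtain ⟨r', hr', h'⟩ := one_add_tr k' hr
    refine ⟨r', hr', ?_⟩
    rw [comm_f, h1, tr_zero, add_self_E, add_zero, h, hk', ← Dpow_tr, ← map_add, h',
      ← Dpow_succ]

lemma sq_V {F : Finset L} {v : L} {k : ℕ}
    (hk : ∀ g ∈ strip F v, ∀ h ∈ strip F v, χ (h + ((2 : ℤ) ^ k) • v - g) = χ (h - g))
    {w : W} (hw : w ∈ V F v (2 ^ k)) : w ^ 2 = 1 := by
  obtain ⟨h1, r, hr, h⟩ := hw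
  rw [sq_of_g_zero w h1, h, Dpow_two]
  apply W.ext
  · rfl
  · show B (r + tr _ r) (r + tr _ r) = 0
    rw [map_add, map_add, LinearMap.add_apply, LinearMap.add_apply, B_periodic hk hr hr, B_tr]
    have h2 : B (tr (((2 : ℤ) ^ k) • v) r) r = B r r := by
      have h3 := B_tr (((2 : ℤ) ^ k) • v) (tr (-(((2 : ℤ) ^ k)) • v) r) (tr (-(((2 : ℤ) ^ k)) • v) r)
      have h4 : tr (((2 : ℤ) ^ k) • v) (tr (-(((2 : ℤ) ^ k)) • v) r) = r := by
        rw [← tr_add, neg_smul, add_neg_cancel, tr_zero]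
      have hr' : tr (-(((2 : ℤ) ^ k)) • v) r ∈ ES F v := tr_mem_ES _ hr
      have h5 := B_periodic hk hr hr'
      rw [h4] at h5
      have h6 := B_tr (((2 : ℤ) ^ k) • v) r (tr (-(((2 : ℤ) ^ k)) • v) r)
      rw [h4] at h6
      rw [h6, ← h5]
    rw [h2]
    have := add_self_Z (B r r)
    have h3 : B r r + B r r + (B r r + B r r) = 0 := by rw [this, add_zero]
    exact h3
  · rfl

end Q23.Hall
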