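import Mathlib

/-!
# Countable sets of increasing homeomorphisms of the line in two-generated subgroups, part A

Products of automorphisms with disjoint supports, commutator identities, bumps.
-/

set_option autoImplicit false

namespace Pool.Agent.Q23.HomeoR

/-- the group of order automorphisms of the real line -/
abbrev G := ℝ ≃o ℝ

/-- `h` fixes all points outside of `E` -/
def Sup (h : G) (E : Set ℝ) : Prop := ∀ x, x ∉ E → h x = x

theorem Sup.mem {h : G} {E : Set ℝ} (hs : Sup h E) {x : ℝ} (hx : h x ≠ x) : x ∈ E := by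
  by_contra hn
  exact hx (hs x hn)

theorem Sup.mono {h : G} {E E' : Set ℝ} (hs : Sup h E) (hE : E ⊆ E') : Sup h E' :=
  fun x hx => hs x fun hn => hx (hE hn)

theorem Sup.apply_mem {h : G} {E : Set ℝ} (hs : Sup h E) {x : ℝ} (hx : x ∈ E) : h x ∈ E := by
  by_cases hm : h x = x
  · rwa [hm]
  · exact hs.mem fun hn => hm (h.injective hn)

theorem Sup.inv {h : G} {E : Set ℝ} (hs : Sup h E) : Sup h⁻¹ E := by
  intro x hx
  apply h.injective
  rw [RelIso.apply_inv_self, hs x hx]

theorem Sup.one (E : Set ℝ) : Sup 1 E := fun _ _ => rfl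

theorem Sup.mul {h k : G} {E : Set ℝ} (hs : Sup h E) (ks : Sup k E) : Sup (h * k) E := by
  intro x hx
  rw [RelIso.mul_apply, ks x hx, hs x hx]

theorem Sup.conj {h : G} {E E' : Set ℝ} (k : G) (hs : Sup h E) (hE : ∀ x ∈ E, k x ∈ E') :
    Sup (k * h * k⁻¹) E' := by
  intro x hx
  have h1 : k⁻¹ x ∉ E := by
    intro h1
    have h2 := hE _ h1
    rw [RelIso.apply_inv_self] at h2
    exact hx h2
  rw [RelIso.mul_apply, RelIso.mul_apply, hs _ h1, RelIso.apply_inv_self]

/-! ### products of automorphisms with disjoint supports -/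

section Prod

variable {ι : Type*}

/-- pairwise disjoint supports -/
def Disj (h : ι → G) : Prop := ∀ i j, i ≠ j → ∀ x, h i x = x ∨ h j x = x

open Classical in
/-- the function of the product -/
noncomputable def pf (h : ι → G) (x : ℝ) : ℝ := if H : ∃ i, h i x ≠ x then h H.choose x else x

theorem pf_eq {h : ι → G} (hd : Disj h) {i : ι} {x : ℝ} (hx : h i x ≠ x) : pf h x = h i x := by
  have H : ∃ i, h i x ≠ x := ⟨i, hx⟩
  rw [pf, dif_pos H]
  by_contra hne
  have hij : H.choose ≠ i := by
    intro h'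
    rw [h'] at hne
    exact hne rfl
  rcases hd _ _ hij x with h1 | h1
  · exact H.choose_spec h1
  · exact hx h1

theorem pf_fix {h : ι → G} {x : ℝ} (hx : ∀ i, h i x = x) : pf h x = x := by
  rw [pf, dif_neg]
  push Not
  exact hx

theorem pf_strictMono {h : ι → G} (hd : Disj h) : StrictMono (pf h) := by
  intro x y hxy
  by_cases hx : ∃ i, h i x ≠ x
  · obtain ⟨i, hi⟩ := hx
    rw [pf_eq hd hi]
    by_cases hy : ∃ j, h j y ≠ y
    · obtain ⟨j, hj⟩ := hy
      rw [pf_eq hd hj]
      by_cases hij : i = j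
      · rw [hij]
        exact (h j).strictMono hxy
      · have h1 : h j x = x := (hd i j hij x).resolve_left hi
        have h2 : x < h j y := by
          have := (h j).strictMono hxy
          rwa [h1] at this
        have h3 : h j (h j y) ≠ h j y := fun hn => hj ((h j).injective hn)
        have h4 : h i (h j y) = h j y := (hd i j hij _).resolve_right h3
        rw [← h4]
        exact (h i).strictMono h2
    · push Not at hy
      rw [pf_fix hy, ← hy i]
      exact (h i).strictMono hxy
  · push Not at hx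
    rw [pf_fix hx]
    by_cases hy : ∃ j, h j y ≠ y
    · obtain ⟨j, hj⟩ := hy
      rw [pf_eq hd hj]
      have := (h j).strictMono hxy
      rwa [hx j] at this
    · push Not at hy
      rwa [pf_fix hy]

theorem pf_surjective {h : ι → G} (hd : Disj h) : Function.Surjective (pf h) := by
  intro y
  by_cases hy : ∃ j, h j y ≠ y
  · obtain ⟨j, hj⟩ := hy
    refine ⟨(h j)⁻¹ y, ?_⟩
    have h1 : h j ((h j)⁻¹ y) ≠ (h j)⁻¹ y := by
      rw [RelIso.apply_inv_self]
      intro h2
      apply hj
      conv_lhs => rw [h2]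
      exact RelIso.apply_inv_self _ _
    rw [pf_eq hd h1, RelIso.apply_inv_self]
  · push Not at hy
    exact ⟨y, pf_fix hy⟩

/-- the product of a family with disjoint supports -/
noncomputable def prd (h : ι → G) (hd : Disj h) : G :=
  (pf_strictMono hd).orderIsoOfSurjective _ (pf_surjective hd)

theorem prd_eq {h : ι → G} (hd : Disj h) {i : ι} {x : ℝ} (hx : h i x ≠ x) :
    prd h hd x = h i x := pf_eq hd hx

theorem prd_fix {h : ι → G} (hd : Disj h) {x : ℝ} (hx : ∀ i, h i x = x) :
    prd h hd x = x := pf_fix hx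

theorem prd_of {h : ι → G} (hd : Disj h) {i : ι} {x : ℝ} (hx : ∀ j, j ≠ i → h j x = x) :
    prd h hd x = h i x := by
  by_cases hi : h i x = x
  · rw [hi]
    apply prd_fix
    intro j
    by_cases hj : j = i
    · rw [hj, hi]
    · exact hx j hj
  · exact prd_eq hd hi

theorem prd_sup {h : ι → G} (hd : Disj h) {E : Set ℝ} (hs : ∀ i, Sup (h i) E) :
    Sup (prd h hd) E := fun x hx => prd_fix hd fun i => hs i x hx

end Prod

/-! ### commutators -/

/-- the commutator -/
def cm (a b : G) : G := a * b * a⁻¹ * b⁻¹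

theorem cm_mem {S : Subgroup G} {a b : G} (ha : a ∈ S) (hb : b ∈ S) : cm a b ∈ S :=
  S.mul_mem (S.mul_mem (S.mul_mem ha hb) (S.inv_mem ha)) (S.inv_mem hb)

theorem cm_eq {F K c η : G} {D : Set ℝ} (h1 : ∀ x ∈ D, F x = c x) (h2 : ∀ x ∈ D, K x = η x)
    (hc : Sup c D) (hη : Sup η D) (h5 : ∀ x, x ∉ D → F x = x ∨ K x = x) : cm F K = cm c η := by
  have hF : ∀ x, x ∉ D → F x ∉ D := by
    intro x hx hn
    have h3 : c⁻¹ (F x) ∈ D := hc.inv.apply_mem hn
    have h4 : F (c⁻¹ (F x)) = F x := by rw [h1 _ h3, RelIso.apply_inv_self]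
    have h6 := F.injective h4
    rw [h6] at h3
    exact hx h3
  have hK : ∀ x, x ∉ D → K x ∉ D := by
    intro x hx hn
    have h3 : η⁻¹ (K x) ∈ D := hη.inv.apply_mem hn
    have h4 : K (η⁻¹ (K x)) = K x := by rw [h2 _ h3, RelIso.apply_inv_self]
    have h6 := K.injective h4
    rw [h6] at h3
    exact hx h3
  have key : F * K = cm c η * (K * F) := by
    ext x
    rw [RelIso.mul_apply, RelIso.mul_apply, RelIso.mul_apply]
    by_cases hx : x ∈ D
    · rw [h2 x hx, h1 x hx, h1 _ (hη.apply_mem hx), h2 _ (hc.apply_mem hx)]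
      simp only [cm, RelIso.mul_apply, RelIso.inv_apply_self]
    · have e1 : Sup (cm c η) D := ((hc.mul hη).mul hc.inv).mul hη.inv
      rw [e1 _ (hK _ (hF _ hx))]
      rcases h5 x hx with h6 | h6
      · rw [h6]
        rcases h5 (K x) (hK x hx) with h7 | h7
        · exact h7
        · have h8 := K.injective h7
          rw [h8, h6]
      · rw [h6]
        rcases h5 (F x) (hF x hx) with h7 | h7
        · have h8 := F.injective h7
          rw [h8, h6]
        · exact h7.symm
  unfold cm at key ⊢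
  calc F * K * F⁻¹ * K⁻¹ = (F * K) * (F⁻¹ * K⁻¹) := by group
    _ = c * η * c⁻¹ * η⁻¹ * (K * F) * (F⁻¹ * K⁻¹) := by rw [key]
    _ = c * η * c⁻¹ * η⁻¹ := by group

/-- the sets `z ^ i (E)`, `i ≥ 1`, are disjoint from `E` -/
def Wand (z : G) (E : Set ℝ) : Prop := ∀ i : ℕ, 1 ≤ i → ∀ x ∈ E, (z ^ i) x ∉ E

theorem Wand.mono {z : G} {E E' : Set ℝ} (hw : Wand z E) (hE : E' ⊆ E) : Wand z E' :=
  fun i hi x hx hn => hw i hi x (hE hx) (hE hn)

theorem wand_disj {z : G} {E : Set ℝ} (hw : Wand z E) {A : ℕ → G} (hA : ∀ k, Sup (A k) E) :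
    Disj (fun k => z ^ k * A k * (z ^ k)⁻¹) := by
  have key : ∀ i j : ℕ, i < j → ∀ x, (z ^ i * A i * (z ^ i)⁻¹ : G) x = x ∨
      (z ^ j * A j * (z ^ j)⁻¹ : G) x = x := by
    intro i j hij x
    by_contra hn
    push Not at hn
    obtain ⟨h1, h2⟩ := hn
    have e1 : (z ^ i)⁻¹ x ∈ E := by
      apply (hA i).mem
      intro h3
      apply h1
      rw [RelIso.mul_apply, RelIso.mul_apply, h3, RelIso.apply_inv_self]
    have e2 : (z ^ j)⁻¹ x ∈ E := by
      apply (hA j).mem
      intro h3
      apply h2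
      rw [RelIso.mul_apply, RelIso.mul_apply, h3, RelIso.apply_inv_self]
    have e3 := hw (j - i) (by omega) _ e2
    apply e3
    have e4 : (z ^ (j - i)) ((z ^ j)⁻¹ x) = (z ^ i)⁻¹ x := by
      rw [← RelIso.mul_apply]
      congr 1
      have : z ^ j = z ^ i * z ^ (j - i) := by rw [← pow_add]; congr 1; omega
      rw [this]
      group
    rw [e4]
    exact e1
  intro i j hij x
  rcases lt_or_gt_of_ne hij with h | h
  · exact key i j h x
  · exact (key j i h x).symm

/-- telescoping: every element with displaceable support is a commutator -/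
theorem tele {z a : G} {E D : Set ℝ} (hw : Wand z E) (ha : Sup a E) (hE : E ⊆ D)
    (hz : Sup z D) : ∃ b : G, Sup b D ∧ cm b z = a := by
  have hd : Disj (fun k : ℕ => z ^ k * a * (z ^ k)⁻¹) := wand_disj hw (A := fun _ => a) fun _ => ha
  set b := prd _ hd with hb
  have hzp : ∀ k : ℕ, Sup (z ^ k) D := by
    intro k
    induction k with
    | zero => exact Sup.one D
    | succ k ih => rw [pow_succ]; exact ih.mul hz
  refine ⟨b, prd_sup hd fun k => ((hzp k).mul (ha.mono hE)).mul (hzp k).inv, ?_⟩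
  have key : b * z = a * (z * b) := by
    ext x
    rw [RelIso.mul_apply, RelIso.mul_apply, RelIso.mul_apply]
    have e0 : ∀ (k : ℕ) (y : ℝ), (z ^ (k + 1) * a * (z ^ (k + 1))⁻¹ : G) (z y) =
        z ((z ^ k * a * (z ^ k)⁻¹ : G) y) := by
      intro k y
      rw [← RelIso.mul_apply, ← RelIso.mul_apply]
      congr 1
      rw [pow_succ']
      group
    by_cases h1 : ∃ k : ℕ, (z ^ k * a * (z ^ k)⁻¹ : G) x ≠ x
    · obtain ⟨k, hk⟩ := h1
      have h2 : (z ^ (k + 1) * a * (z ^ (k + 1))⁻¹ : G) (z x) ≠ z x := by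
        rw [e0]
        exact fun hn => hk (z.injective hn)
      rw [hb, prd_eq hd hk, prd_eq hd h2, e0]
      have h3 := hd 0 (k + 1) (by omega) (z ((z ^ k * a * (z ^ k)⁻¹ : G) x))
      simp only [pow_zero, one_mul, inv_one, mul_one] at h3
      rcases h3 with h3 | h3
      · exact h3.symm
      · exfalso
        rw [e0] at h3
        exact hk ((z ^ k * a * (z ^ k)⁻¹ : G).injective (z.injective h3))
    · push Not at h1
      rw [hb, prd_fix hd h1]
      by_cases h4 : a (z x) = z x
      · rw [h4]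
        apply prd_fix
        intro k
        cases k with
        | zero => simpa using h4
        | succ k =>
          change (z ^ (k + 1) * a * (z ^ (k + 1))⁻¹ : G) (z x) = z x
          rw [e0, h1 k]
      · have h5 : (z ^ 0 * a * (z ^ 0)⁻¹ : G) (z x) ≠ z x := by simpa using h4
        rw [prd_eq hd h5]
        simp
  unfold cm
  calc b * z * b⁻¹ * z⁻¹ = (b * z) * (b⁻¹ * z⁻¹) := by group
    _ = a * (z * b) * (b⁻¹ * z⁻¹) := by rw [key]
    _ = a := by group

/-- coding of countably many automorphisms -/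
theorem code {z σ : G} {D D' : Set ℝ} (hw : Wand z D) (hD : D ⊆ D') (hz : Sup z D')
    (hσ : Sup σ D) {A : ℕ → G} (hA : ∀ k, Sup (A k) D) :
    ∃ u : G, Sup u D' ∧ ∀ k, cm ((z ^ k)⁻¹ * u * z ^ k) σ = cm (A k) σ := by
  have hd := wand_disj hw hA
  have hzp : ∀ k : ℕ, Sup (z ^ k) D' := by
    intro k
    induction k with
    | zero => exact Sup.one D'
    | succ k ih => rw [pow_succ]; exact ih.mul hz
  refine ⟨prd _ hd, prd_sup hd fun k => ((hzp k).mul ((hA k).mono hD)).mul (hzp k).inv, ?_⟩
  intro k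
  apply cm_eq (D := D) _ (fun _ _ => rfl) (hA k) hσ fun x hx => Or.inr (hσ x hx)
  intro x hx
  rw [RelIso.mul_apply, RelIso.mul_apply, prd_of hd (i := k)]
  · simp only [RelIso.mul_apply, RelIso.inv_apply_self]
  · intro j hj
    rw [RelIso.mul_apply, RelIso.mul_apply]
    have h1 : (z ^ j)⁻¹ ((z ^ k) x) ∉ D := by
      intro hn
      rcases lt_or_gt_of_ne hj with h | h
      · have e1 : (z ^ j)⁻¹ ((z ^ k) x) = (z ^ (k - j)) x := by
          rw [← RelIso.mul_apply]
          congr 1
          have : z ^ k = z ^ j * z ^ (k - j) := by rw [← pow_add]; congr 1; omega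
          rw [this]
          group
        rw [e1] at hn
        exact hw (k - j) (by omega) x hx hn
      · have e1 : (z ^ (j - k)) ((z ^ j)⁻¹ ((z ^ k) x)) = x := by
          rw [← RelIso.mul_apply, ← RelIso.mul_apply]
          have : z ^ j = z ^ k * z ^ (j - k) := by rw [← pow_add]; congr 1; omega
          rw [this]
          have e2 : z ^ (j - k) * ((z ^ k * z ^ (j - k))⁻¹) * z ^ k = 1 := by group
          rw [e2]
          rfl
        have h3 := hw (j - k) (by omega) _ hn
        rw [e1] at h3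
        exact h3 hx
    rw [hA j _ h1, RelIso.apply_inv_self]

end Pool.Agent.Q23.HomeoR
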