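import Pool.Agent.Q23.HomeoRA

/-!
# Countable sets of increasing homeomorphisms of the line in two-generated subgroups, part B

Translations, bumps, periodic bumps.
-/

set_option autoImplicit false

namespace Pool.Agent.Q23.HomeoR

/-- construction of automorphisms from functions near the identity -/
theorem mkG {F : ℝ → ℝ} (hm : StrictMono F) (hc : Continuous F) {C : ℝ}
    (hC : ∀ x, |F x - x| ≤ C) : ∃ h : G, ∀ x, h x = F x := by
  have h1 : Filter.Tendsto F Filter.atTop Filter.atTop := by
    apply Filter.tendsto_atTop_mono (f := fun x => x - C)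
    · intro x
      have := (abs_le.1 (hC x)).1
      linarith
    · exact Filter.tendsto_atTop_add_const_right _ (-C) Filter.tendsto_id
  have h2 : Filter.Tendsto F Filter.atBot Filter.atBot := by
    refine Filter.tendsto_atBot_mono (f := fun x => x + C) ?_ ?_
    · intro x
      have := (abs_le.1 (hC x)).2
      linarith
    · exact Filter.tendsto_atBot_add_const_right _ C Filter.tendsto_id
  exact ⟨hm.orderIsoOfSurjective F (hc.surjective h1 h2), fun x => rfl⟩

/-- translations -/
def tr (c : ℝ) : G := OrderIso.addRight c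

theorem tr_apply (c x : ℝ) : tr c x = x + c := rfl

theorem tr_mul (a b : ℝ) : tr a * tr b = tr (a + b) := by
  ext x
  rw [RelIso.mul_apply, tr_apply, tr_apply, tr_apply]
  ring

theorem tr_zero : tr 0 = 1 := by
  ext x
  rw [tr_apply, add_zero]
  rfl

theorem tr_inv (a : ℝ) : (tr a)⁻¹ = tr (-a) := by
  rw [inv_eq_iff_mul_eq_one, tr_mul, add_neg_cancel, tr_zero]

theorem tr_mem {S : Subgroup G} (hS : tr 1 ∈ S) (n : ℤ) : tr n ∈ S := by
  have h1 : ∀ k : ℕ, tr k ∈ S := by
    intro k
    induction k with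
    | zero => rw [Nat.cast_zero, tr_zero]; exact S.one_mem
    | succ k ih => rw [Nat.cast_succ, ← tr_mul]; exact S.mul_mem ih hS
  obtain ⟨k, rfl | rfl⟩ := Int.eq_nat_or_neg n
  · exact_mod_cast h1 k
  · have := S.inv_mem (h1 k)
    rw [tr_inv] at this
    push_cast
    exact this

/-- bumps -/
theorem exists_bump {a b c d : ℝ} (hab : a < b) (hbc : b < c) (hcd : c < d) :
    ∃ h : G, Sup h (Set.Ioo a d) ∧ h b = c ∧ ∀ x, x ≤ h x := by
  set m1 := (c - a) / (b - a) with hm1
  set m2 := (d - c) / (d - b) with hm2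
  have p1 : 0 < b - a := by linarith
  have p2 : 0 < d - b := by linarith
  have q1 : 1 < m1 := by rw [hm1, one_lt_div p1]; linarith
  have q2 : m2 < 1 := by rw [hm2, div_lt_one p2]; linarith
  have q3 : 0 < m2 := div_pos (by linarith) p2
  have r1 : a + (b - a) * m1 = c := by
    rw [hm1, mul_div_cancel₀ _ (ne_of_gt p1)]
    ring
  have r2 : d + (b - d) * m2 = c := by
    have : (b - d) * m2 = -((d - b) * ((d - c) / (d - b))) := by rw [hm2]; ring
    rw [this, mul_div_cancel₀ _ (ne_of_gt p2)]
    ring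
  set F : ℝ → ℝ := fun x => max x (min (a + (x - a) * m1) (d + (x - d) * m2)) with hF
  have hle : ∀ x, x ≤ F x := fun x => le_max_left _ _
  have hfa : ∀ x, x ≤ a → F x = x := by
    intro x hx
    apply max_eq_left
    apply (min_le_left _ _).trans
    nlinarith
  have hfd : ∀ x, d ≤ x → F x = x := by
    intro x hx
    apply max_eq_left
    apply (min_le_right _ _).trans
    nlinarith
  have hm : StrictMono F := by
    intro x y hxy
    apply max_lt_max hxy
    apply min_lt_min
    · nlinarith
    · nlinarith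
  have hc : Continuous F := by
    rw [hF]
    fun_prop
  have hC : ∀ x, |F x - x| ≤ d - a := by
    intro x
    rw [abs_of_nonneg (by linarith [hle x])]
    by_cases h1 : x ≤ a
    · rw [hfa x h1]; linarith
    · by_cases h2 : d ≤ x
      · rw [hfd x h2]; linarith
      · push Not at h1 h2
        have : F x ≤ d := by
          apply max_le h2.le
          apply (min_le_right _ _).trans
          nlinarith
        linarith
  obtain ⟨h, hh⟩ := mkG hm hc hC
  refine ⟨h, ?_, ?_, fun x => by rw [hh]; exact hle x⟩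
  · intro x hx
    rw [hh]
    rw [Set.mem_Ioo, not_and_or, not_lt, not_lt] at hx
    rcases hx with hx | hx
    · exact hfa x hx
    · exact hfd x hx
  · rw [hh, hF]
    simp only
    rw [r1, r2, min_self]
    exact max_eq_right hbc.le

/-- periodic blocks -/
def blk (P a d : ℝ) : Set ℝ := {x | ∃ n : ℤ, P * n + a < x ∧ x < P * n + d}

theorem mem_blk {P a d x : ℝ} : x ∈ blk P a d ↔ ∃ n : ℤ, P * n + a < x ∧ x < P * n + d := Iff.rfl

theorem blk_mono {P a d a' d' : ℝ} (h1 : a' ≤ a) (h2 : d ≤ d') : blk P a d ⊆ blk P a' d' := by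
  rintro x ⟨n, h3, h4⟩
  exact ⟨n, by linarith, by linarith⟩

theorem int_cases {P a d : ℝ} (hP : 0 < P) (hd : d - a ≤ P) {n m : ℤ} {x : ℝ}
    (h1 : P * n + a ≤ x) (h2 : x ≤ P * n + d) (h3 : P * m + a < x) (h4 : x < P * m + d) :
    m = n := by
  rcases lt_trichotomy m n with h | h | h
  · exfalso
    have : (m : ℝ) + 1 ≤ n := by exact_mod_cast h
    nlinarith
  · exact h
  · exfalso
    have : (n : ℝ) + 1 ≤ m := by exact_mod_cast h
    nlinarith

/-- periodic extension -/
theorem exists_per {P a d : ℝ} (hP : 0 < P) (hd : d - a ≤ P) {h : G} (hs : Sup h (Set.Ioo a d)) :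
    ∃ H : G, Sup H (blk P a d) ∧ ∀ (n : ℤ) (x : ℝ), a ≤ x → x ≤ d → H (P * n + x) = P * n + h x := by
  have key : ∀ (n : ℤ) (x : ℝ), (tr (P * n) * h * (tr (P * n))⁻¹ : G) x ≠ x →
      P * n + a < x ∧ x < P * n + d := by
    intro n x hx
    have h1 : (tr (P * n))⁻¹ x ∈ Set.Ioo a d := by
      apply hs.mem
      intro hn
      apply hx
      rw [RelIso.mul_apply, RelIso.mul_apply, hn, RelIso.apply_inv_self]
    rw [tr_inv, tr_apply] at h1
    constructor <;> linarith [h1.1, h1.2]
  have hdj : Disj fun n : ℤ => tr (P * n) * h * (tr (P * n))⁻¹ := by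
    intro i j hij x
    by_contra hn
    push Not at hn
    obtain ⟨h1, h2⟩ := key i x hn.1
    obtain ⟨h3, h4⟩ := key j x hn.2
    exact hij (int_cases hP hd h3.le h4.le h1 h2)
  refine ⟨prd _ hdj, ?_, ?_⟩
  · intro x hx
    apply prd_fix
    intro n
    by_contra hn
    exact hx ⟨n, key n x hn⟩
  · intro n x hx1 hx2
    rw [prd_of hdj (i := n)]
    · rw [RelIso.mul_apply, RelIso.mul_apply, tr_inv, tr_apply, tr_apply]
      have : P * n + x + -(P * n) = x := by ring
      rw [this]
      ring
    · intro m hm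
      by_contra hn
      obtain ⟨h1, h2⟩ := key m _ hn
      exact hm (int_cases hP hd (x := P * n + x) (by linarith) (by linarith) h1 h2)

/-- periodic bumps -/
theorem exists_pbump {P a b c d : ℝ} (hP : 0 < P) (hd : d - a ≤ P) (hab : a < b) (hbc : b < c)
    (hcd : c < d) : ∃ B : G, Sup B (blk P a d) ∧ (∀ n : ℤ, B (P * n + b) = P * n + c) ∧
      (∀ x, x ≤ B x) ∧ Wand B (blk P b c) := by
  obtain ⟨h, h1, h2, h3⟩ := exists_bump hab hbc hcd
  obtain ⟨B, h4, h5⟩ := exists_per hP hd h1
  have h6 : ∀ n : ℤ, B (P * n + b) = P * n + c := by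
    intro n
    rw [h5 n b hab.le (by linarith), h2]
  have h7 : ∀ x, x ≤ B x := by
    intro x
    by_cases hx : x ∈ blk P a d
    · obtain ⟨n, h8, h9⟩ := hx
      have := h5 n (x - P * n) (by linarith) (by linarith)
      have e : P * n + (x - P * n) = x := by ring
      rw [e] at this
      rw [this]
      have := h3 (x - P * n)
      linarith
    · rw [h4 x hx]
  refine ⟨B, h4, h6, h7, ?_⟩
  rintro i hi x ⟨n, h8, h9⟩
  have h10 : B (P * n + d) = P * n + d := by
    rw [h5 n d (by linarith) le_rfl, h1]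
    simp
  have h11 : ∀ k : ℕ, P * n + c < (B ^ (k + 1)) x ∧ (B ^ (k + 1)) x < P * n + d := by
    intro k
    induction k with
    | zero =>
      rw [zero_add, pow_one]
      constructor
      · rw [← h6 n]
        exact B.strictMono h8
      · rw [← h10]
        exact B.strictMono (by linarith)
    | succ k ih =>
      rw [pow_succ', RelIso.mul_apply]
      constructor
      · exact ih.1.trans_le (h7 _)
      · rw [← h10]
        exact B.strictMono ih.2
  obtain ⟨k, rfl⟩ : ∃ k, i = k + 1 := ⟨i - 1, by omega⟩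
  obtain ⟨h12, h13⟩ := h11 k
  rintro ⟨m, h14, h15⟩
  rcases le_or_gt m n with h | h
  · have : (m : ℝ) ≤ n := by exact_mod_cast h
    nlinarith
  · have : (n : ℝ) + 1 ≤ m := by exact_mod_cast h
    nlinarith

end Pool.Agent.Q23.HomeoR
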