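import Pool.Agent.Q23.HomeoRB

/-!
# Countable sets of increasing homeomorphisms of the line in two-generated subgroups, part C

The compression, the coding, the second generator.
-/

set_option autoImplicit false

namespace Pool.Agent.Q23.HomeoR

/-! ### the compression -/

/-- the compression -/
noncomputable def rho (τ : G) : ℕ → G
  | 0 => 1
  | j + 1 => rho τ j * (tr ((3 * j : ℤ) : ℝ) * τ⁻¹ * (tr ((3 * j : ℤ) : ℝ))⁻¹)

theorem rho_mem {S : Subgroup G} {τ : G} (h1 : tr 1 ∈ S) (h2 : τ ∈ S) (j : ℕ) : rho τ j ∈ S := by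
  induction j with
  | zero => exact S.one_mem
  | succ j ih =>
    exact S.mul_mem ih (S.mul_mem (S.mul_mem (tr_mem h1 _) (S.inv_mem h2))
      (S.inv_mem (tr_mem h1 _)))

theorem rho_top {τ : G} (h : ∀ n : ℤ, τ (52 * n + 3 / 4) = 52 * n + 15 / 4) (n : ℤ) (j : ℕ) :
    rho τ j (52 * n + 3 * j + 3 / 4) = 52 * n + 3 / 4 := by
  induction j with
  | zero =>
    rw [Nat.cast_zero, mul_zero, add_zero]
    rfl
  | succ j ih =>
    rw [rho, RelIso.mul_apply, RelIso.mul_apply, RelIso.mul_apply, tr_inv, tr_apply, tr_apply]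
    have e1 : (52 * n + 3 * ((j + 1 : ℕ) : ℝ) + 3 / 4 + -((3 * j : ℤ) : ℝ)) =
        τ (52 * n + 3 / 4) := by
      rw [h]
      push_cast
      ring
    rw [e1, RelIso.inv_apply_self]
    have e2 : (52 * n + 3 / 4 + ((3 * j : ℤ) : ℝ)) = 52 * n + 3 * j + 3 / 4 := by
      push_cast
      ring
    rw [e2]
    exact ih

theorem rho_bot {τ : G} (h : Sup τ (blk 52 (1 / 8) (31 / 8))) (n : ℤ) (j : ℕ) (hj : j ≤ 17) :
    rho τ j (52 * n) = 52 * n := by
  induction j with
  | zero => rfl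
  | succ j ih =>
    rw [rho, RelIso.mul_apply, RelIso.mul_apply, RelIso.mul_apply, tr_inv, tr_apply, tr_apply]
    have e1 : (52 * n + -((3 * j : ℤ) : ℝ)) ∉ blk 52 (1 / 8) (31 / 8) := by
      rintro ⟨m, h1, h2⟩
      push_cast at h1 h2
      have hj0 : (0 : ℝ) ≤ j := Nat.cast_nonneg j
      have hj1 : (j : ℝ) ≤ 16 := by exact_mod_cast (by omega : j ≤ 16)
      rcases le_or_gt n m with h3 | h3
      · have : (n : ℝ) ≤ m := by exact_mod_cast h3
        linarith
      · have : (m : ℝ) + 1 ≤ n := by exact_mod_cast h3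
        linarith
    rw [h.inv _ e1]
    have e2 : (52 * n + -((3 * j : ℤ) : ℝ) + ((3 * j : ℤ) : ℝ)) = 52 * (n : ℝ) := by ring
    rw [e2]
    exact ih (by omega)

theorem rho_map {τ : G} (h : Sup τ (blk 52 (1 / 8) (31 / 8)))
    (h' : ∀ n : ℤ, τ (52 * n + 3 / 4) = 52 * n + 15 / 4) {x : ℝ} (hx : x ∈ blk 52 0 (51 + 3 / 4)) :
    (tr 1 * rho τ 17) x ∈ blk 52 1 (7 / 4) := by
  obtain ⟨n, h1, h2⟩ := hx
  refine ⟨n, ?_, ?_⟩
  · have h3 := rho_bot h n 17 le_rfl
    have h4 := (rho τ 17).strictMono (show (52 * n : ℝ) < x by linarith)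
    rw [h3] at h4
    rw [RelIso.mul_apply, tr_apply]
    linarith
  · have h3 := rho_top h' n 17
    have h4 := (rho τ 17).strictMono (show x < 52 * n + 3 * ((17 : ℕ) : ℝ) + 3 / 4 by
      push_cast
      linarith)
    rw [h3] at h4
    rw [RelIso.mul_apply, tr_apply]
    linarith

theorem blk_two {x : ℝ} (hx : x ∈ blk 2 (1 / 4) (7 / 4)) : x ∈ blk 52 0 (51 + 3 / 4) := by
  obtain ⟨n, h1, h2⟩ := hx
  refine ⟨n / 26, ?_, ?_⟩
  · have h3 : 26 * (n / 26) ≤ n := by omega
    have h4 : (26 : ℝ) * ((n / 26 : ℤ) : ℝ) ≤ n := by exact_mod_cast h3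
    linarith
  · have h3 : n ≤ 26 * (n / 26) + 25 := by omega
    have h4 : (n : ℝ) ≤ 26 * ((n / 26 : ℤ) : ℝ) + 25 := by exact_mod_cast h3
    linarith

/-! ### the second generator -/

/-- positions of the blocks -/
def pos : Fin 4 → ℤ := ![0, 1, 4, 6]

theorem blk_shift {x : ℝ} {s t : ℤ} (h1 : x - 4 * s ∈ blk 52 0 4) (h2 : x - 4 * t ∈ blk 52 0 4) :
    ∃ k : ℤ, s - t = 13 * k := by
  obtain ⟨n, h3, h4⟩ := h1
  obtain ⟨m, h5, h6⟩ := h2
  refine ⟨m - n, ?_⟩
  have e1 : (((s - t) - 13 * (m - n) : ℤ) : ℝ) < 1 := by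
    push_cast
    linarith
  have e2 : (-1 : ℝ) < (((s - t) - 13 * (m - n) : ℤ) : ℝ) := by
    push_cast
    linarith
  have e3 : (s - t) - 13 * (m - n) < 1 := by exact_mod_cast e1
  have e4 : -1 < (s - t) - 13 * (m - n) := by exact_mod_cast e2
  omega

theorem conj_mem {h : G} {s x : ℝ} {D : Set ℝ} (hs : Sup h D) (hx : (tr s * h * (tr s)⁻¹) x ≠ x) :
    x - s ∈ D := by
  apply hs.mem
  intro hn
  apply hx
  rw [RelIso.mul_apply, RelIso.mul_apply, tr_inv, tr_apply, tr_apply]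
  rw [sub_eq_add_neg] at hn
  rw [hn]
  ring

/-- four elements with supports in one class of blocks are coded by one element -/
theorem exists_gen {η : G} (hη : Sup η (blk 52 0 4)) {c : Fin 4 → G}
    (hc : ∀ l, Sup (c l) (blk 52 0 4)) (h0 : c 0 = η) :
    ∃ f : G, ∀ S : Subgroup G, tr 1 ∈ S → f ∈ S → ∀ l, l ≠ 0 → cm (c l) η ∈ S := by
  have hd : Disj fun l : Fin 4 => tr (4 * pos l) * c l * (tr (4 * pos l))⁻¹ := by
    intro i j hij x
    by_contra hn
    push Not at hn
    obtain ⟨k, hk⟩ := blk_shift (conj_mem (hc i) hn.1) (conj_mem (hc j) hn.2)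
    apply hij
    revert hk
    fin_cases i <;> fin_cases j <;> simp [pos] <;> omega
  refine ⟨prd _ hd, ?_⟩
  intro S h1 h2 l hl
  have e : cm ((tr (4 * pos l))⁻¹ * prd _ hd * tr (4 * pos l)) (prd _ hd) = cm (c l) η := by
    apply cm_eq (D := blk 52 0 4) _ _ (hc l) hη
    · intro x hx
      by_contra hn
      push Not at hn
      obtain ⟨h3, h4⟩ := hn
      have h5 : ∃ i, (tr (4 * pos i) * c i * (tr (4 * pos i))⁻¹ : G) (x + 4 * pos l) ≠
          x + 4 * pos l := by
        by_contra h6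
        push Not at h6
        apply h3
        rw [RelIso.mul_apply, RelIso.mul_apply, tr_inv, tr_apply, tr_apply, prd_fix hd h6]
        ring
      obtain ⟨i, hi⟩ := h5
      have h7 : ∃ j, (tr (4 * pos j) * c j * (tr (4 * pos j))⁻¹ : G) x ≠ x := by
        by_contra h6
        push Not at h6
        exact h4 (prd_fix hd h6)
      obtain ⟨j, hj⟩ := h7
      have e1 := conj_mem (hc i) hi
      have e2 := conj_mem (hc j) hj
      have e3 : x - 4 * ((pos i - pos l : ℤ) : ℝ) ∈ blk 52 0 4 := by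
        have : x - 4 * ((pos i - pos l : ℤ) : ℝ) = x + 4 * pos l - 4 * pos i := by
          push_cast
          ring
        rw [this]
        exact e1
      obtain ⟨k, hk⟩ := blk_shift e3 e2
      apply hx
      have h8 : j = 0 := by
        revert hk
        fin_cases i <;> fin_cases j <;> fin_cases l <;> simp [pos] at hl ⊢ <;> omega
      rw [h8] at e2
      simpa [pos] using e2
    · intro x hx
      rw [RelIso.mul_apply, RelIso.mul_apply, tr_inv, tr_apply, tr_apply, prd_of hd (i := l)]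
      · rw [RelIso.mul_apply, RelIso.mul_apply, tr_inv, tr_apply, tr_apply]
        have : x + 4 * (pos l : ℝ) + -(4 * pos l) = x := by ring
        rw [this]
        ring
      · intro j hj
        by_contra hn
        have e1 := conj_mem (hc j) hn
        have e2 : x + 4 * (pos l : ℝ) - 4 * pos l ∈ blk 52 0 4 := by
          have : x + 4 * (pos l : ℝ) - 4 * pos l = x := by ring
          rw [this]
          exact hx
        obtain ⟨k, hk⟩ := blk_shift e1 e2
        apply hj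
        revert hk
        fin_cases j <;> fin_cases l <;> simp [pos] <;> omega
    · intro x hx
      rw [prd_of hd (i := 0)]
      · simp [pos, h0, tr_zero]
      · intro j hj
        by_contra hn
        have e1 := conj_mem (hc j) hn
        have e2 : x - 4 * ((0 : ℤ) : ℝ) ∈ blk 52 0 4 := by simpa using hx
        obtain ⟨k, hk⟩ := blk_shift e1 e2
        apply hj
        revert hk
        fin_cases j <;> simp [pos] <;> omega
  rw [← e]
  have e1 : tr (4 * pos l) ∈ S := by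
    have := tr_mem h1 (4 * pos l)
    push_cast at this
    exact this
  exact cm_mem (S.mul_mem (S.mul_mem (S.inv_mem e1) h2) e1) h2

/-- countably many elements with supports in the blocks `2n + (1/4, 7/4)` -/
theorem exists_code {T : ℕ → G} (hT : ∀ k, Sup (T k) (blk 2 (1 / 4) (7 / 4))) :
    ∃ f : G, ∀ S : Subgroup G, tr 1 ∈ S → f ∈ S → ∀ k, T k ∈ S := by
  obtain ⟨τ, t1, t2, -, t4⟩ := exists_pbump (P := 52) (a := 1 / 8) (b := 3 / 4) (c := 15 / 4)
    (d := 31 / 8) (by norm_num) (by norm_num) (by norm_num) (by norm_num) (by norm_num)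
  obtain ⟨σ, s1, -, -, s4⟩ := exists_pbump (P := 52) (a := 7 / 8) (b := 1) (c := 7 / 4)
    (d := 2) (by norm_num) (by norm_num) (by norm_num) (by norm_num) (by norm_num)
  obtain ⟨η, n1, -, -, n4⟩ := exists_pbump (P := 52) (a := 0) (b := 1 / 8) (c := 31 / 8)
    (d := 4) (by norm_num) (by norm_num) (by norm_num) (by norm_num) (by norm_num)
  set κ : G := tr 1 * rho τ 17 with hκ
  have hT' : ∀ k, Sup (κ * T k * κ⁻¹) (blk 52 1 (7 / 4)) := fun k =>
    (hT k).conj κ fun x hx => rho_map t1 t2 (blk_two hx)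
  choose b hb1 hb2 using fun k => tele s4 (hT' k) (blk_mono (by norm_num) (by norm_num)) s1
  obtain ⟨u, u1, u2⟩ := code (t4.mono (blk_mono (P := 52) (a := 7 / 8) (d := 2) (by norm_num)
    (by norm_num))) (blk_mono (by norm_num) (by norm_num)) t1 s1 hb1
  have hσ : Sup σ (blk 52 (1 / 8) (31 / 8)) := s1.mono (blk_mono (by norm_num) (by norm_num))
  have hE : blk 52 (1 / 8) (31 / 8) ⊆ blk 52 0 4 := blk_mono (by norm_num) (by norm_num)
  obtain ⟨τ', t5, t6⟩ := tele n4 t1 hE n1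
  obtain ⟨σ', s5, s6⟩ := tele n4 hσ hE n1
  obtain ⟨u', u5, u6⟩ := tele n4 u1 hE n1
  obtain ⟨f, hf⟩ := exists_gen n1 (c := ![η, τ', σ', u']) (by
    intro l
    fin_cases l
    · exact n1
    · exact t5
    · exact s5
    · exact u5) rfl
  refine ⟨f, ?_⟩
  intro S h1 h2 k
  have m1 : τ ∈ S := t6 ▸ hf S h1 h2 1 (by decide)
  have m2 : σ ∈ S := s6 ▸ hf S h1 h2 2 (by decide)
  have m3 : u ∈ S := u6 ▸ hf S h1 h2 3 (by decide)
  have m4 : κ ∈ S := S.mul_mem h1 (rho_mem h1 m1 17)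
  have m5 : κ * T k * κ⁻¹ ∈ S := by
    rw [← hb2 k, ← u2 k]
    exact cm_mem (S.mul_mem (S.mul_mem (S.inv_mem (S.pow_mem m1 k)) m3) (S.pow_mem m1 k)) m2
  have m6 := S.mul_mem (S.mul_mem (S.inv_mem m4) m5) m4
  have e : κ⁻¹ * (κ * T k * κ⁻¹) * κ = T k := by group
  rwa [e] at m6

end Pool.Agent.Q23.HomeoR
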