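import Pool.Agent.Q23.HomeoRC

/-!
# Countable sets of increasing homeomorphisms of the line in two-generated subgroups, part D

Fragmentation, change of coordinates, the main theorem.
-/

set_option autoImplicit false

namespace Pool.Agent.Q23.HomeoR

/-- automorphisms between two automorphisms -/
theorem mkG' {F : ℝ → ℝ} (hm : StrictMono F) (hc : Continuous F) (A B : G)
    (hA : ∀ x, A x ≤ F x) (hB : ∀ x, F x ≤ B x) : ∃ h : G, ∀ x, h x = F x := by
  have h1 : Filter.Tendsto F Filter.atTop Filter.atTop :=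
    Filter.tendsto_atTop_mono hA A.tendsto_atTop
  have h2 : Filter.Tendsto F Filter.atBot Filter.atBot :=
    Filter.tendsto_atBot_mono hB B.tendsto_atBot
  exact ⟨hm.orderIsoOfSurjective F (hc.surjective h1 h2), fun x => rfl⟩

/-- `s` is obtained from the unit translation and countably many elements with supports in the
blocks `2n + (1/4, 7/4)` -/
def Q (s : G) : Prop := ∃ A : Set G, A.Countable ∧ (∀ T ∈ A, Sup T (blk 2 (1 / 4) (7 / 4))) ∧
  ∀ S : Subgroup G, tr 1 ∈ S → (∀ T ∈ A, T ∈ S) → s ∈ S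

theorem Q.mul {s t : G} (hs : Q s) (ht : Q t) : Q (s * t) := by
  obtain ⟨A, a1, a2, a3⟩ := hs
  obtain ⟨B, b1, b2, b3⟩ := ht
  refine ⟨A ∪ B, a1.union b1, ?_, ?_⟩
  · rintro T (hT | hT)
    · exact a2 T hT
    · exact b2 T hT
  · intro S h1 h2
    exact S.mul_mem (a3 S h1 fun T hT => h2 T (Or.inl hT)) (b3 S h1 fun T hT => h2 T (Or.inr hT))

theorem not_blk {x : ℝ} (hx : x ∉ blk 2 (1 / 4) (7 / 4)) :
    ∃ n : ℤ, 2 * n - 1 / 4 ≤ x ∧ x ≤ 2 * n + 1 / 4 := by
  have h1 := Int.floor_le (x / 2)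
  have h2 := Int.lt_floor_add_one (x / 2)
  by_cases h3 : x ≤ 2 * ⌊x / 2⌋ + 1 / 4
  · exact ⟨⌊x / 2⌋, by linarith, h3⟩
  · push Not at h3
    refine ⟨⌊x / 2⌋ + 1, ?_, ?_⟩
    · push_cast
      by_contra h4
      push Not at h4
      exact hx ⟨⌊x / 2⌋, by linarith, by linarith⟩
    · push_cast
      linarith

/-- small displacement -/
theorem Q_small {r : G} (hr : ∀ x, |r x - x| ≤ 1 / 4) : Q r := by
  obtain ⟨α, a1, a2, a3, -⟩ := exists_pbump (P := 2) (a := -(3 / 4)) (b := -(1 / 2)) (c := 1 / 2)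
    (d := 3 / 4) (by norm_num) (by norm_num) (by norm_num) (by norm_num) (by norm_num)
  have a4 : ∀ x, α⁻¹ x ≤ x := by
    intro x
    have := a3 (α⁻¹ x)
    rwa [RelIso.apply_inv_self] at this
  obtain ⟨R, hR⟩ := mkG' (F := fun x => max (α⁻¹ x) (min (r x) (α x))) (by
      intro x y hxy
      exact max_lt_max (α⁻¹.strictMono hxy) (min_lt_min (r.strictMono hxy) (α.strictMono hxy)))
    (by
      apply Continuous.max (OrderIso.continuous _)
      exact Continuous.min (OrderIso.continuous _) (OrderIso.continuous _)) α⁻¹ α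
    (fun x => le_max_left _ _) (fun x => max_le ((a4 x).trans (a3 x)) (min_le_right _ _))
  have hR1 : ∀ (n : ℤ) (x : ℝ), 2 * n - 1 / 4 ≤ x → x ≤ 2 * n + 1 / 4 → R x = r x := by
    intro n x h1 h2
    rw [hR]
    have h3 := abs_le.1 (hr x)
    have h4 : r x ≤ α x := by
      have h5 := α.monotone (show 2 * (n : ℝ) + -(1 / 2) ≤ x by linarith)
      rw [a2] at h5
      linarith [h3.2]
    have h6 : α⁻¹ x ≤ r x := by
      have h7 := α⁻¹.monotone (show x ≤ α (2 * (n : ℝ) + -(1 / 2)) by rw [a2]; linarith)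
      rw [RelIso.inv_apply_self] at h7
      linarith [h3.1]
    rw [min_eq_left h4, max_eq_right h6]
  have hR2 : Sup R (blk 2 (-(3 / 4)) (3 / 4)) := by
    intro x hx
    rw [hR, a1.inv x hx, a1 x hx]
    exact max_eq_left (min_le_right _ _)
  refine ⟨{R⁻¹ * r, tr 1 * R * (tr 1)⁻¹}, (Set.finite_singleton _).countable.insert _, ?_, ?_⟩
  · rintro T (rfl | rfl)
    · intro x hx
      obtain ⟨n, h1, h2⟩ := not_blk hx
      rw [RelIso.mul_apply, ← hR1 n x h1 h2, RelIso.inv_apply_self]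
    · apply hR2.conj
      rintro x ⟨n, h1, h2⟩
      exact ⟨n, by rw [tr_apply]; linarith, by rw [tr_apply]; linarith⟩
  · intro S h1 h2
    have h3 := h2 _ (Set.mem_insert _ _)
    have h4 := h2 _ (Set.mem_insert_of_mem _ (Set.mem_singleton _))
    have h5 : (tr 1)⁻¹ * (tr 1 * R * (tr 1)⁻¹) * tr 1 * (R⁻¹ * r) = r := by group
    rw [← h5]
    exact S.mul_mem (S.mul_mem (S.mul_mem (S.inv_mem h1) h4) h1) h3

/-- interpolation -/
theorem exists_interp (s : G) {C l : ℝ} (hs : ∀ x, |s x - x| ≤ C) (h0 : 0 ≤ l) (h1 : l < 1) :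
    ∃ h : G, ∀ x, h x = x + l * (s x - x) := by
  apply mkG (C := C)
  · intro x y hxy
    have := s.strictMono hxy
    have e : ∀ z, z + l * (s z - z) = (1 - l) * z + l * s z := fun z => by ring
    simp only [e]
    nlinarith
  · have := OrderIso.continuous s
    fun_prop
  · intro x
    have e : x + l * (s x - x) - x = l * (s x - x) := by ring
    rw [e, abs_mul, abs_of_nonneg h0]
    have := hs x
    have := abs_nonneg (s x - x)
    nlinarith

/-- bounded displacement -/
theorem Q_bdd (m : ℕ) : ∀ s : G, (∀ x, |s x - x| ≤ m / 4) → Q s := by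
  induction m with
  | zero =>
    intro s hs
    apply Q_small
    intro x
    have := hs x
    rw [Nat.cast_zero, zero_div] at this
    linarith
  | succ m ih =>
    intro s hs
    have hm : (0 : ℝ) < m + 1 := by positivity
    have hl0 : (0 : ℝ) ≤ m / (m + 1) := by positivity
    have hl1 : (m : ℝ) / (m + 1) < 1 := by
      rw [div_lt_one hm]
      linarith
    obtain ⟨h, hh⟩ := exists_interp s hs hl0 hl1
    have h1 : Q h := by
      apply ih
      intro x
      rw [hh]
      have e : x + m / (m + 1) * (s x - x) - x = m / (m + 1) * (s x - x) := by ring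
      rw [e, abs_mul, abs_of_nonneg hl0]
      have := hs x
      push_cast at this
      calc (m : ℝ) / (m + 1) * |s x - x| ≤ m / (m + 1) * ((m + 1) / 4) :=
            mul_le_mul_of_nonneg_left this hl0
        _ = m / 4 := by field_simp
    have h2 : Q (s * h⁻¹) := by
      apply Q_small
      intro y
      obtain ⟨x, rfl⟩ := h.surjective y
      rw [RelIso.mul_apply, RelIso.inv_apply_self, hh]
      have e : s x - (x + m / (m + 1) * (s x - x)) = 1 / (m + 1) * (s x - x) := by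
        field_simp
        ring
      rw [e, abs_mul, abs_of_nonneg (by positivity)]
      have := hs x
      push_cast at this
      calc (1 : ℝ) / (m + 1) * |s x - x| ≤ 1 / (m + 1) * ((m + 1) / 4) :=
            mul_le_mul_of_nonneg_left this (by positivity)
        _ = 1 / 4 := by field_simp
    have e : s = s * h⁻¹ * h := by group
    rw [e]
    exact h2.mul h1

/-! ### change of coordinates -/

/-- automorphisms with prescribed values at the integers -/
theorem exists_coord {y : ℤ → ℝ} (hy : StrictMono y) (hb : ∀ x, ∃ n, y n ≤ x)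
    (ht : ∀ x, ∃ n, x < y n) : ∃ ψ : G, ∀ n : ℤ, ψ n = y n := by
  set F : ℝ → ℝ := fun t => y ⌊t⌋ + Int.fract t * (y (⌊t⌋ + 1) - y ⌊t⌋) with hF
  have h0 : ∀ n, 0 < y (n + 1) - y n := fun n => sub_pos.2 (hy (by omega))
  have h1 : ∀ t, y ⌊t⌋ ≤ F t := by
    intro t
    have := mul_nonneg (Int.fract_nonneg t) (h0 ⌊t⌋).le
    simp only [hF]
    linarith
  have h2 : ∀ t, F t < y (⌊t⌋ + 1) := by
    intro t
    have h3 := Int.fract_lt_one t
    have h4 := h0 ⌊t⌋
    simp only [hF]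
    nlinarith
  have hm : StrictMono F := by
    intro t t' htt
    have h3 : ⌊t⌋ ≤ ⌊t'⌋ := Int.floor_le_floor htt.le
    rcases h3.eq_or_lt with h4 | h4
    · simp only [hF]
      rw [← h4]
      have h5 : Int.fract t < Int.fract t' := by
        unfold Int.fract
        rw [← h4]
        linarith
      have h6 := h0 ⌊t⌋
      nlinarith
    · calc F t < y (⌊t⌋ + 1) := h2 t
        _ ≤ y ⌊t'⌋ := hy.monotone (by omega)
        _ ≤ F t' := h1 t'
  have hs : Function.Surjective F := by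
    intro x
    obtain ⟨m, hm1⟩ := hb x
    obtain ⟨M, hM⟩ := ht x
    obtain ⟨N, hN1, hN2⟩ := Int.exists_greatest_of_bdd (P := fun n => y n ≤ x)
      ⟨M, fun z hz => by
        by_contra hn
        push Not at hn
        have := hy hn
        linarith⟩ ⟨m, hm1⟩
    have h3 : x < y (N + 1) := by
      by_contra hn
      push Not at hn
      have := hN2 _ hn
      omega
    have h4 := h0 N
    refine ⟨N + (x - y N) / (y (N + 1) - y N), ?_⟩
    have h5 : 0 ≤ (x - y N) / (y (N + 1) - y N) := div_nonneg (by linarith) h4.le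
    have h6 : (x - y N) / (y (N + 1) - y N) < 1 := by
      rw [div_lt_one h4]
      linarith
    have h7 : ⌊(N : ℝ) + (x - y N) / (y (N + 1) - y N)⌋ = N := by
      rw [Int.floor_eq_iff]
      constructor <;> linarith
    have h8 : Int.fract ((N : ℝ) + (x - y N) / (y (N + 1) - y N)) =
        (x - y N) / (y (N + 1) - y N) := by
      unfold Int.fract
      rw [h7]
      ring
    simp only [hF]
    rw [h7, h8, div_mul_cancel₀ _ (ne_of_gt h4)]
    ring
  refine ⟨hm.orderIsoOfSurjective F hs, ?_⟩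
  intro n
  change F n = y n
  simp [hF]

/-- a fast sequence -/
noncomputable def zz (s : ℕ → G) : ℕ → ℝ
  | 0 => 0
  | n + 1 => zz s n + 1 + ∑ k ∈ Finset.range (n + 1),
      (|s k (zz s n)| + |(s k)⁻¹ (zz s n)| + |s k (-zz s n)| + |(s k)⁻¹ (-zz s n)|)

theorem zz_succ (s : ℕ → G) (n : ℕ) : zz s n + 1 ≤ zz s (n + 1) := by
  rw [zz]
  have : 0 ≤ ∑ k ∈ Finset.range (n + 1),
      (|s k (zz s n)| + |(s k)⁻¹ (zz s n)| + |s k (-zz s n)| + |(s k)⁻¹ (-zz s n)|) :=
    Finset.sum_nonneg fun k _ => by positivity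
  linarith

theorem zz_ge (s : ℕ → G) (n : ℕ) : (n : ℝ) ≤ zz s n := by
  induction n with
  | zero => rw [zz, Nat.cast_zero]
  | succ n ih =>
    have := zz_succ s n
    push_cast
    linarith

theorem zz_bound (s : ℕ → G) {k n : ℕ} (h : k ≤ n) :
    |s k (zz s n)| + |(s k)⁻¹ (zz s n)| + |s k (-zz s n)| + |(s k)⁻¹ (-zz s n)| ≤ zz s (n + 1) := by
  rw [zz]
  have h1 := Finset.single_le_sum (s := Finset.range (n + 1)) (f := fun k =>
      (|s k (zz s n)| + |(s k)⁻¹ (zz s n)| + |s k (-zz s n)| + |(s k)⁻¹ (-zz s n)|))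
      (fun k _ => by positivity) (Finset.mem_range.2 (by omega : k < n + 1))
  have h2 := zz_ge s n
  have h3 : (0 : ℝ) ≤ n := Nat.cast_nonneg n
  linarith

/-- the sequence of all coordinates -/
noncomputable def yy (s : ℕ → G) (n : ℤ) : ℝ := zz s n.toNat - zz s (-n).toNat

theorem yy_nat (s : ℕ → G) (n : ℕ) : yy s n = zz s n := by
  unfold yy
  have : (-(n : ℤ)).toNat = 0 := by omega
  rw [this, Int.toNat_natCast, zz, sub_zero]

theorem yy_neg (s : ℕ → G) (n : ℕ) : yy s (-n) = -zz s n := by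
  unfold yy
  have : (-(n : ℤ)).toNat = 0 := by omega
  rw [this, neg_neg, Int.toNat_natCast, zz, zero_sub]

theorem yy_strictMono (s : ℕ → G) : StrictMono (yy s) := by
  apply strictMono_int_of_lt_succ
  intro n
  obtain ⟨k, rfl | rfl⟩ := Int.eq_nat_or_neg n
  · rw [yy_nat]
    have : (k : ℤ) + 1 = ((k + 1 : ℕ) : ℤ) := by push_cast; rfl
    rw [this, yy_nat]
    linarith [zz_succ s k]
  · cases k with
    | zero =>
      have e1 : (-((0 : ℕ) : ℤ)) = ((0 : ℕ) : ℤ) := by simp
      have e2 : ((0 : ℕ) : ℤ) + 1 = ((1 : ℕ) : ℤ) := by simp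
      rw [e1, e2, yy_nat, yy_nat]
      linarith [zz_succ s 0]
    | succ k =>
      have : -((k + 1 : ℕ) : ℤ) + 1 = -(k : ℤ) := by push_cast; ring
      rw [this, yy_neg, yy_neg]
      linarith [zz_succ s k]

theorem yy_upper (s : ℕ → G) (k : ℕ) (t : G) (h1 : ∀ n, k ≤ n → t (zz s n) ≤ zz s (n + 1))
    (h2 : ∀ n, k ≤ n → -zz s (n + 1) ≤ t⁻¹ (-zz s n)) (n : ℤ) :
    t (yy s n) ≤ yy s (n + (2 * k + 1 : ℕ)) := by
  have hmono := (yy_strictMono s).monotone
  rcases le_or_gt (k : ℤ) n with h | h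
  · obtain ⟨m, rfl⟩ := Int.eq_ofNat_of_zero_le (show 0 ≤ n by omega)
    rw [yy_nat]
    apply (h1 m (by omega)).trans
    rw [← yy_nat]
    apply hmono
    push_cast
    omega
  · rcases le_or_gt (-(k : ℤ)) n with h' | h'
    · calc t (yy s n) ≤ t (yy s k) := t.monotone (hmono h.le)
        _ ≤ zz s (k + 1) := by rw [yy_nat]; exact h1 k le_rfl
        _ ≤ _ := by
          rw [← yy_nat]
          apply hmono
          push_cast
          omega
    · obtain ⟨m, hm⟩ := Int.eq_ofNat_of_zero_le (show 0 ≤ -n - 1 by omega)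
      have e : n = -((m + 1 : ℕ) : ℤ) := by push_cast; omega
      have h3 := h2 m (by omega)
      have h4 := t.monotone h3
      rw [RelIso.apply_inv_self] at h4
      rw [e, yy_neg]
      apply h4.trans
      rw [← yy_neg]
      apply hmono
      push_cast
      omega

/-- all elements of a sequence have bounded displacement in suitable coordinates -/
theorem exists_bdd (s : ℕ → G) : ∃ ψ : G, ∀ k, ∃ m : ℕ, ∀ x, |(ψ⁻¹ * s k * ψ) x - x| ≤ m / 4 := by
  obtain ⟨ψ, hψ⟩ := exists_coord (yy_strictMono s)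
    (by
      intro x
      obtain ⟨n, hn⟩ := exists_nat_ge (-x)
      refine ⟨-n, ?_⟩
      rw [yy_neg]
      have := zz_ge s n
      linarith)
    (by
      intro x
      obtain ⟨n, hn⟩ := exists_nat_gt x
      refine ⟨n, ?_⟩
      rw [yy_nat]
      have := zz_ge s n
      linarith)
  refine ⟨ψ, fun k => ⟨4 * (2 * k + 2), ?_⟩⟩
  have hb : ∀ n, k ≤ n → s k (zz s n) ≤ zz s (n + 1) ∧ (s k)⁻¹ (zz s n) ≤ zz s (n + 1) ∧
      -zz s (n + 1) ≤ s k (-zz s n) ∧ -zz s (n + 1) ≤ (s k)⁻¹ (-zz s n) := by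
    intro n hn
    have h1 := zz_bound s hn
    have a1 := abs_nonneg (s k (zz s n))
    have a2 := abs_nonneg ((s k)⁻¹ (zz s n))
    have a3 := abs_nonneg (s k (-zz s n))
    have a4 := abs_nonneg ((s k)⁻¹ (-zz s n))
    have b1 := le_abs_self (s k (zz s n))
    have b2 := le_abs_self ((s k)⁻¹ (zz s n))
    have b3 := neg_abs_le (s k (-zz s n))
    have b4 := neg_abs_le ((s k)⁻¹ (-zz s n))
    refine ⟨?_, ?_, ?_, ?_⟩ <;> linarith
  have u1 := yy_upper s k (s k) (fun n hn => (hb n hn).1) (fun n hn => (hb n hn).2.2.2)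
  have u2 := yy_upper s k (s k)⁻¹ (fun n hn => (hb n hn).2.1)
    (fun n hn => by rw [inv_inv]; exact (hb n hn).2.2.1)
  have v1 : ∀ n : ℤ, (ψ⁻¹ * s k * ψ) n ≤ n + (2 * k + 1 : ℕ) := by
    intro n
    rw [RelIso.mul_apply, RelIso.mul_apply, hψ]
    have := ψ⁻¹.monotone (u1 n)
    rw [← hψ (n + _), RelIso.inv_apply_self] at this
    push_cast at this ⊢
    exact this
  have v2 : ∀ n : ℤ, (n : ℝ) - (2 * k + 1 : ℕ) ≤ (ψ⁻¹ * s k * ψ) n := by
    intro n
    rw [RelIso.mul_apply, RelIso.mul_apply, hψ]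
    have h1 := (s k).monotone (u2 (n - (2 * k + 1 : ℕ)))
    rw [RelIso.apply_inv_self, sub_add_cancel] at h1
    have := ψ⁻¹.monotone h1
    rw [← hψ (n - _), RelIso.inv_apply_self] at this
    push_cast at this ⊢
    exact this
  intro x
  have f1 := Int.floor_le x
  have f2 := Int.lt_floor_add_one x
  have g1 := (ψ⁻¹ * s k * ψ).monotone f1
  have g2 := (ψ⁻¹ * s k * ψ).monotone (show x ≤ ((⌊x⌋ + 1 : ℤ) : ℝ) by push_cast; exact f2.le)
  have w1 := v1 (⌊x⌋ + 1)
  have w2 := v2 ⌊x⌋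
  rw [abs_le]
  push_cast at w1 w2 g2 ⊢
  constructor <;> linarith

/-! ### the main theorem -/

/-- every sequence lies in a two-generated subgroup -/
theorem exists_two (s : ℕ → G) : ∃ f g : G, ∀ k, s k ∈ Subgroup.closure {f, g} := by
  obtain ⟨ψ, hψ⟩ := exists_bdd s
  have hQ : ∀ k, Q (ψ⁻¹ * s k * ψ) := fun k => (hψ k).elim fun m hm => Q_bdd m _ hm
  choose A a1 a2 a3 using hQ
  have hc : (insert 1 (⋃ k, A k)).Countable := (Set.countable_iUnion a1).insert _
  obtain ⟨T, hT⟩ := hc.exists_eq_range ⟨1, Set.mem_insert _ _⟩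
  have hT' : ∀ k, Sup (T k) (blk 2 (1 / 4) (7 / 4)) := by
    intro k
    have h1 : T k ∈ insert 1 (⋃ k, A k) := hT ▸ Set.mem_range_self k
    rcases h1 with h1 | h1
    · rw [h1]
      exact Sup.one _
    · obtain ⟨j, hj⟩ := Set.mem_iUnion.1 h1
      exact a2 j _ hj
  obtain ⟨f, hf⟩ := exists_code hT'
  refine ⟨ψ * f * ψ⁻¹, ψ * tr 1 * ψ⁻¹, ?_⟩
  intro k
  set S0 := Subgroup.closure ({ψ * f * ψ⁻¹, ψ * tr 1 * ψ⁻¹} : Set G) with hS0
  set S := S0.comap (MulAut.conj ψ).toMonoidHom with hS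
  have m1 : tr 1 ∈ S := by
    rw [hS, Subgroup.mem_comap]
    exact Subgroup.subset_closure (Set.mem_insert_of_mem _ rfl)
  have m2 : f ∈ S := by
    rw [hS, Subgroup.mem_comap]
    exact Subgroup.subset_closure (Set.mem_insert _ _)
  have m3 : ψ⁻¹ * s k * ψ ∈ S := by
    apply a3 k S m1
    intro B hB
    have h1 : B ∈ Set.range T := by
      rw [← hT]
      exact Set.mem_insert_of_mem _ (Set.mem_iUnion.2 ⟨k, hB⟩)
    obtain ⟨j, rfl⟩ := h1
    exact hf S m1 m2 j
  rw [hS, Subgroup.mem_comap] at m3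
  have e : (MulAut.conj ψ).toMonoidHom (ψ⁻¹ * s k * ψ) = s k := by
    change ψ * (ψ⁻¹ * s k * ψ) * ψ⁻¹ = s k
    group
  rwa [e] at m3

/-- the underlying permutation -/
def toP : G →* Equiv.Perm ℝ where
  toFun g := g.toEquiv
  map_one' := rfl
  map_mul' _ _ := rfl

theorem main (S : Set (Equiv.Perm ℝ)) (hc : S.Countable) (hS : ∀ σ ∈ S, StrictMono ⇑σ) :
    ∃ f g : Equiv.Perm ℝ, StrictMono ⇑f ∧ StrictMono ⇑g ∧
      S ⊆ (Subgroup.closure ({f, g} : Set (Equiv.Perm ℝ)) : Set (Equiv.Perm ℝ)) := by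
  have hinj : Function.Injective toP := by
    intro a b hab
    ext x
    exact congrArg (fun σ : Equiv.Perm ℝ => σ x) hab
  have hc' : (insert 1 (toP ⁻¹' S)).Countable := (hc.preimage hinj).insert _
  obtain ⟨s, hs⟩ := hc'.exists_eq_range ⟨1, Set.mem_insert _ _⟩
  obtain ⟨f, g, h⟩ := exists_two s
  refine ⟨toP f, toP g, f.strictMono, g.strictMono, ?_⟩
  intro σ hσ
  let a : G := ⟨σ, fun {x y} => (hS σ hσ).le_iff_le⟩
  have h1 : a ∈ Set.range s := by
    rw [← hs]
    exact Set.mem_insert_of_mem _ hσ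
  obtain ⟨k, hk⟩ := h1
  have h2 := h k
  rw [hk] at h2
  have h3 : toP a ∈ (Subgroup.closure ({f, g} : Set G)).map toP := ⟨a, h2, rfl⟩
  rw [MonoidHom.map_closure, Set.image_pair] at h3
  exact h3

end Pool.Agent.Q23.HomeoR
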