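import Mathlib

/-!
# A finitely generated soluble group in which subgroups over a line are small

`P` is the group of all functions `(n, g) ↦ f n g` with `f n g` in the dihedral group of order
`2 * 2 ^ n` (`n : ℕ`, `g : ℤ × ℤ`), `W` is the semidirect product of `P` with `ℤ × ℤ` acting
by translations of `g`.
-/

namespace Q23.Line

open DihedralGroup

/-- The lattice. -/
abbrev L := ℤ × ℤ

/-- The vectors `(n+1, (n+1)^2)`. -/
def d (n : ℕ) : L := ((n : ℤ) + 1, ((n : ℤ) + 1) ^ 2)

/-- The big product. -/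
abbrev P := (n : ℕ) → L → DihedralGroup (2 ^ n)

/-- translation by `c` -/
def shiftEquiv (c : L) : P ≃* P where
  toFun f := fun n g => f n (g - c)
  invFun f := fun n g => f n (g + c)
  left_inv f := by
    funext n g
    simp
  right_inv f := by
    funext n g
    simp
  map_mul' f f' := rfl

/-- the action of the lattice on the product -/
def shift : Multiplicative L →* MulAut P where
  toFun c := shiftEquiv c.toAdd
  map_one' := by
    ext f n g
    simp [shiftEquiv]
  map_mul' c c' := by
    ext f n g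
    simp only [shiftEquiv, toAdd_mul, MulEquiv.coe_mk, Equiv.coe_fn_mk, MulAut.mul_apply]
    congr 1
    abel

lemma shift_apply (c : Multiplicative L) (f : P) (n : ℕ) (g : L) :
    shift c f n g = f n (g - c.toAdd) := rfl

/-- The semidirect product. -/
abbrev W := P ⋊[shift] Multiplicative L

/-- The generators of the torsion part. -/
def u (h : L) : P := fun n g => if g = h then sr 0 else if g + d n = h then sr 1 else 1

lemma shift_u (c : Multiplicative L) (h : L) : shift c (u h) = u (h + c.toAdd) := by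
  funext n g
  rw [shift_apply]
  unfold u
  have h1 : (g - c.toAdd = h) ↔ (g = h + c.toAdd) := sub_eq_iff_eq_add
  have h2 : (g - c.toAdd + d n = h) ↔ (g + d n = h + c.toAdd) := by
    rw [sub_add_eq_add_sub, sub_eq_iff_eq_add]
  simp only [h1, h2]

/-- Functions supported, in a suitable sense, on `B`. -/
def Q (B : Set L) : Subgroup P where
  carrier := {f | ∀ n g, (g ∉ B → f n g ∈ Subgroup.zpowers (sr (1 : ZMod (2 ^ n)))) ∧
    (g + d n ∉ B → f n g ∈ Subgroup.zpowers (sr (0 : ZMod (2 ^ n))))}
  mul_mem' {a b} ha hb n g :=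
    ⟨fun h => mul_mem ((ha n g).1 h) ((hb n g).1 h), fun h => mul_mem ((ha n g).2 h) ((hb n g).2 h)⟩
  one_mem' n g := ⟨fun _ => one_mem _, fun _ => one_mem _⟩
  inv_mem' {a} ha n g := ⟨fun h => inv_mem ((ha n g).1 h), fun h => inv_mem ((ha n g).2 h)⟩

lemma mem_Q {B : Set L} {f : P} : f ∈ Q B ↔
    ∀ n g, (g ∉ B → f n g ∈ Subgroup.zpowers (sr (1 : ZMod (2 ^ n)))) ∧
    (g + d n ∉ B → f n g ∈ Subgroup.zpowers (sr (0 : ZMod (2 ^ n)))) := Iff.rfl

lemma Q_mono {B B' : Set L} (h : B ⊆ B') : Q B ≤ Q B' := by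
  intro f hf n g
  exact ⟨fun hg => (hf n g).1 (fun hb => hg (h hb)), fun hg => (hf n g).2 (fun hb => hg (h hb))⟩

lemma u_mem_Q (h : L) : u h ∈ Q {h} := by
  intro n g
  unfold u
  constructor
  · intro hg
    rw [if_neg (by simpa using hg)]
    split_ifs
    · exact Subgroup.mem_zpowers _
    · exact one_mem _
  · intro hg
    have hg' : ¬ (g + d n = h) := by simpa using hg
    split_ifs
    · exact Subgroup.mem_zpowers _
    · exact one_mem _

lemma shift_mem_Q {B B' : Set L} (c : Multiplicative L) (hB : ∀ b ∈ B, b + c.toAdd ∈ B')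
    {f : P} (hf : f ∈ Q B) : shift c f ∈ Q B' := by
  intro n g
  rw [shift_apply]
  constructor
  · intro hg
    apply (hf n _).1
    intro hb
    apply hg
    have := hB _ hb
    rwa [sub_add_cancel] at this
  · intro hg
    apply (hf n _).2
    intro hb
    apply hg
    have := hB _ hb
    have e : g - c.toAdd + d n + c.toAdd = g + d n := by abel
    rwa [e] at this

/-- The differences `d n` occur only for `n ≤ M` among the differences of `B`. -/
def Narrow (B : Set L) (M : ℕ) : Prop := ∀ n g, g ∈ B → g + d n ∈ B → n ≤ M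

lemma dih_pow (n M : ℕ) (h : n ≤ M) (x : DihedralGroup (2 ^ n)) : x ^ (2 ^ (M + 1)) = 1 := by
  have h1 : x ^ (2 ^ (n + 1)) = 1 := by
    have hc : Nat.card (DihedralGroup (2 ^ n)) = 2 ^ (n + 1) := by
      rw [DihedralGroup.nat_card]
      ring
    rw [← hc]
    exact pow_card_eq_one'
  obtain ⟨k, rfl⟩ := Nat.exists_eq_add_of_le h
  rw [show n + k + 1 = (n + 1) + k by ring, pow_add, pow_mul, h1, one_pow]

lemma zpowers_sr_pow (n : ℕ) (i : ZMod (2 ^ n)) (M : ℕ) (x : DihedralGroup (2 ^ n))
    (hx : x ∈ Subgroup.zpowers (sr i)) : x ^ (2 ^ (M + 1)) = 1 := by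
  obtain ⟨k, rfl⟩ := hx
  have h2 : (sr i : DihedralGroup (2 ^ n)) ^ (2 : ℕ) = 1 := by
    rw [pow_two]; simp
  have : ((sr i : DihedralGroup (2 ^ n)) ^ k) ^ (2 ^ (M + 1)) = 1 := by
    rw [← zpow_natCast, ← zpow_mul, mul_comm, zpow_mul, zpow_natCast, pow_succ', pow_mul, h2,
      one_pow, one_zpow]
  exact this

lemma Q_pow {B : Set L} {M : ℕ} (hB : Narrow B M) {f : P} (hf : f ∈ Q B) :
    f ^ (2 ^ (M + 1)) = 1 := by
  funext n g
  rw [Pi.pow_apply, Pi.pow_apply, Pi.one_apply, Pi.one_apply]
  by_cases h1 : g ∈ B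
  · by_cases h2 : g + d n ∈ B
    · exact dih_pow n M (hB n g h1 h2) _
    · exact zpowers_sr_pow n _ M _ ((hf n g).2 h2)
  · exact zpowers_sr_pow n _ M _ ((hf n g).1 h1)

/-- a line of the lattice meets the parabola in finitely many points -/
lemma line_finite (c v : L) : {n : ℕ | ∃ k : ℤ, d n = c + k • v}.Finite := by
  obtain ⟨a, b⟩ := c
  obtain ⟨p, q⟩ := v
  apply Set.Finite.subset (Set.finite_le_nat ((|a| + |q| + |q * a| + |p * b| + 2).toNat))
  rintro n ⟨k, hk⟩
  simp only [d, Prod.smul_mk, smul_eq_mul, Prod.mk_add_mk, Prod.mk.injEq] at hk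
  obtain ⟨h1, h2⟩ := hk
  simp only [Set.mem_ofPred_eq]
  set m : ℤ := (n : ℤ) + 1 with hm
  have hm1 : 1 ≤ m := by omega
  suffices h : m ≤ |a| + |q| + |q * a| + |p * b| + 2 by
    have h0 := abs_nonneg a
    omega
  have ea := abs_nonneg a
  have eq := abs_nonneg q
  have eqa := abs_nonneg (q * a)
  have epb := abs_nonneg (p * b)
  have key : (m - a) * q = (m ^ 2 - b) * p := by
    have h3 : m - a = k * p := by rw [h1]; ring
    have h4 : m ^ 2 - b = k * q := by rw [h2]; ring
    rw [h3, h4]; ring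
  rcases eq_or_ne p 0 with hp | hp
  · subst hp
    have : m = a := by rw [h1]; ring
    have := le_abs_self a
    linarith
  · by_contra hcon
    push Not at hcon
    -- p * m^2 = q * m - q*a + p*b
    have e1 : p * m ^ 2 = q * m - q * a + p * b := by linarith
    have e2 : |p * m ^ 2| ≤ |q| * m + |q * a| + |p * b| := by
      rw [e1]
      calc |q * m - q * a + p * b| ≤ |q * m - q * a| + |p * b| := abs_add_le _ _
        _ ≤ |q * m| + |q * a| + |p * b| := by
            have := abs_sub (q * m) (q * a)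
            linarith
        _ = |q| * m + |q * a| + |p * b| := by rw [abs_mul q m, abs_of_pos (by linarith : (0:ℤ) < m)]
    have e3 : m ^ 2 ≤ |p * m ^ 2| := by
      rw [abs_mul, abs_of_nonneg (sq_nonneg m)]
      have : 1 ≤ |p| := Int.one_le_abs hp
      nlinarith [sq_nonneg m]
    nlinarith

lemma narrow_line (F : Finset L) (v : L) :
    ∃ M, Narrow {g | ∃ f ∈ F, ∃ k : ℤ, g = f + k • v} M := by
  have hfin : (⋃ f ∈ F, ⋃ f' ∈ F, {n : ℕ | ∃ k : ℤ, d n = (f' - f) + k • v}).Finite :=
    Set.Finite.biUnion F.finite_toSet fun f _ => Set.Finite.biUnion F.finite_toSet fun f' _ =>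
      line_finite _ _
  obtain ⟨M, hM⟩ := hfin.bddAbove
  refine ⟨M, ?_⟩
  rintro n g ⟨f, hf, k, hk⟩ ⟨f', hf', k', hk'⟩
  apply hM
  simp only [Set.mem_iUnion, Set.mem_ofPred_eq]
  refine ⟨f, hf, f', hf', k' - k, ?_⟩
  have : d n = (f' + k' • v) - (f + k • v) := by rw [← hk', ← hk]; abel
  rw [this, sub_smul]
  abel

/-- Elements of `W` whose left part is supported on a finite set. -/
def WFin : Subgroup W where
  carrier := {w | ∃ F : Finset L, w.left ∈ Q (F : Set L)}
  mul_mem' {a b} := by
    classical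
    rintro ⟨F, hF⟩ ⟨F', hF'⟩
    refine ⟨F ∪ F'.image (fun x => x + a.right.toAdd), ?_⟩
    rw [SemidirectProduct.mul_left]
    refine mul_mem (Q_mono (by intro x hx; simp; left; exact hx) hF) ?_
    refine shift_mem_Q _ ?_ hF'
    intro b hb
    simp only [Finset.coe_union, Finset.coe_image, Set.mem_union, Set.mem_image]
    right
    exact ⟨b, hb, rfl⟩
  one_mem' := ⟨∅, by rw [SemidirectProduct.one_left]; exact one_mem _⟩
  inv_mem' {a} := by
    classical
    rintro ⟨F, hF⟩
    refine ⟨F.image (fun x => x + (a.right⁻¹).toAdd), ?_⟩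
    rw [SemidirectProduct.inv_left]
    refine shift_mem_Q _ ?_ (inv_mem hF)
    intro b hb
    simp only [Finset.coe_image, Set.mem_image]
    exact ⟨b, hb, rfl⟩

/-- The three generators. -/
def gens : Set W := {SemidirectProduct.inl (u 0), SemidirectProduct.inr (Multiplicative.ofAdd (1, 0)),
  SemidirectProduct.inr (Multiplicative.ofAdd (0, 1))}

/-- The finitely generated group. -/
def G : Subgroup W := Subgroup.closure gens

lemma G_le_WFin : G ≤ WFin := by
  rw [G, Subgroup.closure_le]
  intro w hw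
  rcases hw with rfl | rfl | rfl
  · refine ⟨{0}, ?_⟩
    rw [SemidirectProduct.left_inl]
    simpa using u_mem_Q 0
  · refine ⟨∅, ?_⟩
    rw [SemidirectProduct.left_inr]
    exact one_mem _
  · refine ⟨∅, ?_⟩
    rw [SemidirectProduct.left_inr]
    exact one_mem _

lemma inr_mem_G (c : L) : (SemidirectProduct.inr (Multiplicative.ofAdd c) : W) ∈ G := by
  have h1 : (SemidirectProduct.inr (Multiplicative.ofAdd (1, 0)) : W) ∈ G :=
    Subgroup.subset_closure (by simp [gens])
  have h2 : (SemidirectProduct.inr (Multiplicative.ofAdd (0, 1)) : W) ∈ G :=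
    Subgroup.subset_closure (by simp [gens])
  have e : (SemidirectProduct.inr (Multiplicative.ofAdd c) : W) =
      (SemidirectProduct.inr (Multiplicative.ofAdd (1, 0))) ^ c.1 *
      (SemidirectProduct.inr (Multiplicative.ofAdd (0, 1))) ^ c.2 := by
    rw [← map_zpow (SemidirectProduct.inr : Multiplicative L →* W),
      ← map_zpow (SemidirectProduct.inr : Multiplicative L →* W), ← map_mul]
    congr 1
    rw [show (Multiplicative.ofAdd ((1 : ℤ), (0 : ℤ))) ^ c.1 =
      Multiplicative.ofAdd (c.1 • ((1 : ℤ), (0 : ℤ))) from (ofAdd_zsmul _ _).symm,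
      show (Multiplicative.ofAdd ((0 : ℤ), (1 : ℤ))) ^ c.2 =
      Multiplicative.ofAdd (c.2 • ((0 : ℤ), (1 : ℤ))) from (ofAdd_zsmul _ _).symm, ← ofAdd_add]
    congr 1
    ext <;> simp
  rw [e]
  exact mul_mem (zpow_mem h1 _) (zpow_mem h2 _)

lemma conj_u (c h : L) : (SemidirectProduct.inr (Multiplicative.ofAdd c) : W) *
    SemidirectProduct.inl (u h) * (SemidirectProduct.inr (Multiplicative.ofAdd c))⁻¹ =
    SemidirectProduct.inl (u (h + c)) := by
  rw [← map_inv, ← SemidirectProduct.inl_aut]
  rw [shift_u]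
  rfl

lemma u_mem_G (h : L) : (SemidirectProduct.inl (u h) : W) ∈ G := by
  have h0 : (SemidirectProduct.inl (u 0) : W) ∈ G :=
    Subgroup.subset_closure (by simp [gens])
  have := mul_mem (mul_mem (inr_mem_G h) h0) (inv_mem (inr_mem_G h))
  rwa [conj_u, zero_add] at this

instance : Group.FG G := by
  rw [Group.fg_iff_subgroup_fg]
  refine (Subgroup.fg_iff _).2 ⟨gens, rfl, ?_⟩
  unfold gens
  exact Set.toFinite _

/-- the sign of an element of the dihedral group -/
def sgn (m : ℕ) : DihedralGroup m →* Multiplicative (ZMod 2) where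
  toFun x := match x with
    | r _ => 1
    | sr _ => Multiplicative.ofAdd 1
  map_one' := rfl
  map_mul' x y := by
    cases x <;> cases y <;> first | rfl | (show (1 : Multiplicative (ZMod 2)) = Multiplicative.ofAdd 1 * Multiplicative.ofAdd 1; decide)

lemma sgn_ker {m : ℕ} (x : DihedralGroup m) (h : sgn m x = 1) : ∃ i, x = r i := by
  cases x with
  | r i => exact ⟨i, rfl⟩
  | sr i =>
    exfalso
    have : (1 : ZMod 2) = 0 := h
    exact absurd this (by decide)

instance : Group.IsSolvable P := by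
  let f : P →* ((n : ℕ) → L → Multiplicative (ZMod 2)) :=
    { toFun := fun f n g => sgn _ (f n g)
      map_one' := by funext n g; simp
      map_mul' := by intro a b; funext n g; simp }
  have hk : Group.IsSolvable f.ker := by
    apply Group.isSolvable_of_comm
    rintro ⟨a, ha⟩ ⟨b, hb⟩
    apply Subtype.ext
    funext n g
    have ha' : sgn _ (a n g) = 1 := congrFun (congrFun (MonoidHom.mem_ker.1 ha) n) g
    have hb' : sgn _ (b n g) = 1 := congrFun (congrFun (MonoidHom.mem_ker.1 hb) n) g
    obtain ⟨i, hi⟩ := sgn_ker _ ha'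
    obtain ⟨j, hj⟩ := sgn_ker _ hb'
    show a n g * b n g = b n g * a n g
    rw [hi, hj, r_mul_r, r_mul_r, add_comm]
  exact Group.isSolvable_of_ker_le_range f.ker.subtype f (by rw [Subgroup.range_subtype])

instance : Group.IsSolvable W :=
  Group.isSolvable_of_ker_le_range (SemidirectProduct.inl : P →* W) SemidirectProduct.rightHom
    (by rw [SemidirectProduct.range_inl_eq_ker_rightHom])

instance : Group.IsSolvable G := inferInstance

end Q23.Line
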