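import Pool.Agent.Q23.LineGroupB

namespace Q23.Line

open DihedralGroup
open scoped commutatorElement

lemma dih_nilp (n : ℕ) : ∃ k, (⊤ : Subgroup (DihedralGroup (2 ^ n))).lowerCentralSeries k = ⊥ := by
  rw [← Subgroup.nilpotent_iff_lowerCentralSeries]
  have : Fact (Nat.Prime 2) := ⟨Nat.prime_two⟩
  apply IsPGroup.isNilpotent (p := 2)
  apply IsPGroup.of_card (n := n + 1)
  rw [DihedralGroup.nat_card]
  ring

lemma zpowers_lcs {H : Type*} [Group H] (a : H) (k : ℕ) :
    (Subgroup.zpowers a).lowerCentralSeries (k + 1) = ⊥ := by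
  rw [← le_bot_iff]
  refine (Subgroup.lowerCentralSeries_antitone _ (Nat.succ_le_succ (Nat.zero_le k))).trans ?_
  rw [Subgroup.lowerCentralSeries_succ, Subgroup.lowerCentralSeries_zero, le_bot_iff,
    Subgroup.commutator_eq_bot_iff_le_centralizer]
  rintro x ⟨i, rfl⟩
  rw [Subgroup.mem_centralizer_iff]
  rintro y ⟨j, rfl⟩
  show a ^ j * a ^ i = a ^ i * a ^ j
  rw [← zpow_add, ← zpow_add, add_comm]

lemma Q_lcs {B : Set L} {M : ℕ} (hB : Narrow B M) : ∃ k, (Q B).lowerCentralSeries k = ⊥ := by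
  choose c hc using dih_nilp
  refine ⟨(∑ n ∈ Finset.range (M + 1), c n) + 1, ?_⟩
  rw [eq_bot_iff]
  intro f hf
  rw [Subgroup.mem_bot]
  funext n g
  show ev n g f = 1
  have h1 : ev n g f ∈ ((Q B).map (ev n g)).lowerCentralSeries
      ((∑ n ∈ Finset.range (M + 1), c n) + 1) := by
    rw [← Subgroup.map_lowerCentralSeries]
    exact ⟨f, hf, rfl⟩
  rw [← Subgroup.mem_bot]
  by_cases hn : n ≤ M
  · have h2 : ((Q B).map (ev n g)).lowerCentralSeries ((∑ n ∈ Finset.range (M + 1), c n) + 1) ≤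
        (⊤ : Subgroup (DihedralGroup (2 ^ n))).lowerCentralSeries
          ((∑ n ∈ Finset.range (M + 1), c n) + 1) :=
      Subgroup.lowerCentralSeries_mono _ le_top
    have h3 : c n ≤ (∑ n ∈ Finset.range (M + 1), c n) + 1 := by
      have h5 : n ∈ Finset.range (M + 1) := Finset.mem_range.2 (Nat.lt_succ_of_le hn)
      have := Finset.single_le_sum (f := c) (fun i _ => Nat.zero_le _) h5
      omega
    have h4 := Subgroup.lowerCentralSeries_antitone (⊤ : Subgroup (DihedralGroup (2 ^ n))) h3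
    rw [hc n] at h4
    exact h4 (h2 h1)
  · have : ∃ i : ZMod (2 ^ n), (Q B).map (ev n g) ≤ Subgroup.zpowers (sr i) := by
      by_cases h1 : g ∈ B
      · have h2 : g + d n ∉ B := fun h2 => hn (hB n g h1 h2)
        refine ⟨0, ?_⟩
        rintro _ ⟨f, hf, rfl⟩
        exact (hf n g).2 h2
      · refine ⟨1, ?_⟩
        rintro _ ⟨f, hf, rfl⟩
        exact (hf n g).1 h1
    obtain ⟨i, hi⟩ := this
    have h2 : ((Q B).map (ev n g)).lowerCentralSeries ((∑ n ∈ Finset.range (M + 1), c n) + 1) ≤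
        (Subgroup.zpowers (sr i)).lowerCentralSeries
          ((∑ n ∈ Finset.range (M + 1), c n) + 1) :=
      Subgroup.lowerCentralSeries_mono _ hi
    rw [zpowers_lcs] at h2
    exact h2 h1

lemma Q_nilp {B : Set L} {M : ℕ} (hB : Narrow B M) : Group.IsNilpotent (Q B) :=
  (Subgroup.isNilpotent_iff_lowerCentralSeries _).2 (Q_lcs hB)

/-- a group is finite if it has a homomorphism with finite kernel and finite range -/
lemma finite_of_ker_range {A Q : Type*} [Group A] [Group Q] (f : A →* Q) (h1 : Finite f.ker)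
    (h2 : Finite f.range) : Finite A := by
  have : Finite (A ⧸ f.ker) := Finite.of_equiv _ (QuotientGroup.quotientKerEquivRange f).toEquiv.symm
  exact Finite.of_equiv _ (Subgroup.groupEquivQuotientProdSubgroup (s := f.ker)).symm

lemma finite_cyclic_torsion {A : Type*} [Group A] [IsCyclic A] (h : ∀ x : A, IsOfFinOrder x) :
    Finite A := by
  obtain ⟨g, hg⟩ := IsCyclic.exists_generator (α := A)
  have h1 : (Subgroup.zpowers g : Set A).Finite := finite_zpowers.2 (h g)
  have h2 : (Set.univ : Set A).Finite := h1.subset (fun x _ => hg x)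
  exact Set.finite_univ_iff.1 h2

end Q23.Line
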