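import Mathlib

/-!
# The absorbing-element extension of a finitely based semiring is finitely based

An identity holds in `S^∞` if and only if it is regular and holds in `S`. Let `E` be a finite
basis of the identities of `S`. If `(l, r) ∈ E` is irregular, then at least one of the two terms
`T = l, r` contains a variable `y` (a slot) which does not influence the value of `T` in `S`. The
finite basis of `S^∞` consists of the semiring axioms, the regular identities in `E`, and, for every
irregular `(l, r) ∈ E`, finitely many regular identities which describe that the slots can be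
changed as long as the content of the whole term does not change.

Let `Z` be the content of the two sides `u`, `v` of a regular identity of `S`. The proof uses that
`T(y + w) = T(y) + ρ`, where `ρ` contains all variables of `w`: a term `u` which contains an
irregular pattern can be replaced by `u + ρ` where `ρ` has the content `Z`, and in the presence of
such an additive summand `ρ` also the irregular identities can be applied.
-/

namespace Pool.Agent.Q23.SemiringExt

universe u

/-- The algebra `S` is a semiring: the addition is commutative and associative, the multiplication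
is associative, and both distributive laws hold. -/
structure IsSemiring (S : Type u) [Add S] [Mul S] : Prop where
  add_comm : ∀ x y : S, x + y = y + x
  add_assoc : ∀ x y z : S, x + y + z = x + (y + z)
  mul_assoc : ∀ x y z : S, x * y * z = x * (y * z)
  add_mul : ∀ x y z : S, (x + y) * z = x * z + y * z
  mul_add : ∀ x y z : S, x * (y + z) = x * y + x * z

/-- Terms in the variables `x_0, x_1, …` and the two binary operations. -/
inductive Term : Type
  | var : ℕ → Term
  | add : Term → Term → Term
  | mul : Term → Term → Term
deriving DecidableEq

/-- The value of a term. -/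
def Term.eval {A : Type u} [Add A] [Mul A] (v : ℕ → A) : Term → A
  | .var n => v n
  | .add s t => s.eval v + t.eval v
  | .mul s t => s.eval v * t.eval v

/-- The identity `e.1 ≈ e.2` holds in the algebra `A`. -/
def Holds (A : Type u) [Add A] [Mul A] (e : Term × Term) : Prop :=
  ∀ v : ℕ → A, e.1.eval v = e.2.eval v

/-- The algebra `S` is finitely based: there is a finite set of identities of `S` such that all
algebras satisfying them satisfy all identities of `S`. -/
def FinitelyBased (S : Type u) [Add S] [Mul S] : Prop :=
  ∃ E : Finset (Term × Term), (∀ e ∈ E, Holds S e) ∧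
    ∀ (A : Type) [Add A] [Mul A], (∀ e ∈ E, Holds A e) → ∀ e, Holds S e → Holds A e

/-- The extension `S^∞` of `S` by an absorbing element. -/
inductive Ext (S : Type u) : Type u
  | of : S → Ext S
  | inf : Ext S

instance {S : Type u} [Add S] : Add (Ext S) where
  add
    | .of a, .of b => .of (a + b)
    | _, _ => .inf

instance {S : Type u} [Mul S] : Mul (Ext S) where
  mul
    | .of a, .of b => .of (a * b)
    | _, _ => .inf

/-! ### Terms -/

namespace Term

/-- The variables of a term. -/
def content : Term → Finset ℕ
  | .var n => {n}
  | .add s t => s.content ∪ t.content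
  | .mul s t => s.content ∪ t.content

/-- Substitution. -/
def subst (σ : ℕ → Term) : Term → Term
  | .var n => σ n
  | .add s t => .add (s.subst σ) (t.subst σ)
  | .mul s t => .mul (s.subst σ) (t.subst σ)

theorem eval_subst {A : Type u} [Add A] [Mul A] (v : ℕ → A) (σ : ℕ → Term) (t : Term) :
    (t.subst σ).eval v = t.eval (fun n => (σ n).eval v) := by
  induction t with
  | var n => rfl
  | add s t hs ht => simp only [subst, eval, hs, ht]
  | mul s t hs ht => simp only [subst, eval, hs, ht]

theorem eval_congr {A : Type u} [Add A] [Mul A] {v w : ℕ → A} {t : Term}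
    (h : ∀ n ∈ t.content, v n = w n) : t.eval v = t.eval w := by
  induction t with
  | var n => exact h n (Finset.mem_singleton_self n)
  | add s t hs ht =>
    simp only [eval, hs fun n hn => h n (Finset.mem_union_left _ hn),
      ht fun n hn => h n (Finset.mem_union_right _ hn)]
  | mul s t hs ht =>
    simp only [eval, hs fun n hn => h n (Finset.mem_union_left _ hn),
      ht fun n hn => h n (Finset.mem_union_right _ hn)]

theorem content_subst (σ : ℕ → Term) (t : Term) :
    (t.subst σ).content = t.content.biUnion (fun n => (σ n).content) := by
  induction t with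
  | var n => simp [subst, content]
  | add s t hs ht => simp only [subst, content, hs, ht, Finset.union_biUnion]
  | mul s t hs ht => simp only [subst, content, hs, ht, Finset.union_biUnion]

theorem content_nonempty (t : Term) : t.content.Nonempty := by
  induction t with
  | var n => exact ⟨n, Finset.mem_singleton_self n⟩
  | add s t hs ht => exact hs.mono Finset.subset_union_left
  | mul s t hs ht => exact hs.mono Finset.subset_union_left

end Term

open Term

/-! ### The identities of the extension -/

section Ext

variable {S : Type u}

theorem ext_add [Add S] (a b : S) : (Ext.of a + Ext.of b : Ext S) = Ext.of (a + b) := rfl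
theorem ext_mul [Mul S] (a b : S) : (Ext.of a * Ext.of b : Ext S) = Ext.of (a * b) := rfl
theorem inf_add [Add S] (a : Ext S) : (Ext.inf + a : Ext S) = Ext.inf := by cases a <;> rfl
theorem add_inf [Add S] (a : Ext S) : (a + Ext.inf : Ext S) = Ext.inf := by cases a <;> rfl
theorem inf_mul [Mul S] (a : Ext S) : (Ext.inf * a : Ext S) = Ext.inf := by cases a <;> rfl
theorem mul_inf [Mul S] (a : Ext S) : (a * Ext.inf : Ext S) = Ext.inf := by cases a <;> rfl

variable [Add S] [Mul S]

theorem eval_of (v : ℕ → S) (t : Term) : t.eval (fun n => Ext.of (v n)) = Ext.of (t.eval v) := by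
  induction t with
  | var n => rfl
  | add s t hs ht => simp only [eval, hs, ht, ext_add]
  | mul s t hs ht => simp only [eval, hs, ht, ext_mul]

theorem eval_inf (v : ℕ → Ext S) (t : Term) (n : ℕ) (hn : n ∈ t.content) (h : v n = Ext.inf) :
    t.eval v = Ext.inf := by
  induction t with
  | var m =>
    rw [content, Finset.mem_singleton] at hn
    subst hn
    exact h
  | add s t hs ht =>
    rw [content, Finset.mem_union] at hn
    rcases hn with hn | hn
    · rw [eval, hs hn, inf_add]
    · rw [eval, ht hn, add_inf]
  | mul s t hs ht =>
    rw [content, Finset.mem_union] at hn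
    rcases hn with hn | hn
    · rw [eval, hs hn, inf_mul]
    · rw [eval, ht hn, mul_inf]

theorem holds_ext_of_regular {e : Term × Term} (h : Holds S e) (hc : e.1.content = e.2.content) :
    Holds (Ext S) e := by
  classical
  intro v
  by_cases hv : ∃ n ∈ e.1.content, v n = Ext.inf
  · obtain ⟨n, hn, hv⟩ := hv
    rw [eval_inf v _ n hn hv, eval_inf v _ n (hc ▸ hn) hv]
  · push Not at hv
    have h1 : ∀ n ∈ e.1.content, ∃ s, v n = Ext.of s := by
      intro n hn
      have := hv n hn
      cases h2 : v n with
      | of s => exact ⟨s, rfl⟩
      | inf => exact absurd h2 this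
    have hne : Nonempty S := by
      obtain ⟨n, hn⟩ := content_nonempty e.1
      obtain ⟨s, _⟩ := h1 n hn
      exact ⟨s⟩
    choose! w hw using h1
    rw [eval_congr (w := fun n => Ext.of (w n)) (fun n hn => hw n hn),
      eval_congr (t := e.2) (w := fun n => Ext.of (w n)) (fun n hn => hw n (hc ▸ hn)),
      eval_of, eval_of, h w]

theorem holds_of_ext {e : Term × Term} (h : Holds (Ext S) e) : Holds S e := by
  intro v
  have h1 := h (fun n => Ext.of (v n))
  rw [eval_of, eval_of] at h1
  exact Ext.of.inj h1

theorem content_subset_of_ext [Nonempty S] {e : Term × Term} (h : Holds (Ext S) e) :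
    e.1.content ⊆ e.2.content := by
  classical
  intro n hn
  by_contra hn2
  obtain ⟨s⟩ := ‹Nonempty S›
  have h1 := h (fun m => if m = n then Ext.inf else Ext.of s)
  rw [eval_inf _ _ n hn (if_pos rfl)] at h1
  have h2 : e.2.eval (fun m => if m = n then Ext.inf else Ext.of s) =
      e.2.eval (fun _ => Ext.of s) := by
    apply eval_congr
    intro m hm
    rw [if_neg]
    rintro rfl
    exact hn2 hm
  rw [h2, eval_of] at h1
  cases h1

theorem content_eq_of_ext [Nonempty S] {e : Term × Term} (h : Holds (Ext S) e) :
    e.1.content = e.2.content :=
  Finset.Subset.antisymm (content_subset_of_ext h)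
    (content_subset_of_ext (e := (e.2, e.1)) fun v => (h v).symm)

end Ext

/-! ### The finite basis -/

instance : Add Term := ⟨Term.add⟩
instance : Mul Term := ⟨Term.mul⟩

theorem eval_add {A : Type u} [Add A] [Mul A] (v : ℕ → A) (s t : Term) :
    (s + t).eval v = s.eval v + t.eval v := rfl
theorem eval_mul {A : Type u} [Add A] [Mul A] (v : ℕ → A) (s t : Term) :
    (s * t).eval v = s.eval v * t.eval v := rfl
theorem eval_var {A : Type u} [Add A] [Mul A] (v : ℕ → A) (n : ℕ) : (var n).eval v = v n := rfl
theorem content_add (s t : Term) : (s + t).content = s.content ∪ t.content := rfl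
theorem content_mul (s t : Term) : (s * t).content = s.content ∪ t.content := rfl
theorem content_var (n : ℕ) : (var n).content = {n} := rfl

/-- Substitute `s` for `y` in `T`; the other variables are moved away from `0, …, 4`. -/
def sub (T : Term) (y : ℕ) (s : Term) : Term := T.subst (fun n => if n = y then s else var (n + 5))

theorem content_sub {T : Term} {y : ℕ} (hy : y ∈ T.content) (s : Term) :
    (sub T y s).content = s.content ∪ (T.content.erase y).image (· + 5) := by
  unfold sub
  rw [content_subst]
  ext n
  simp only [Finset.mem_biUnion, Finset.mem_union, Finset.mem_image, Finset.mem_erase]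
  constructor
  · rintro ⟨m, hm, hn⟩
    by_cases h : m = y
    · rw [if_pos h] at hn
      exact Or.inl hn
    · rw [if_neg h, content_var, Finset.mem_singleton] at hn
      exact Or.inr ⟨m, ⟨h, hm⟩, hn.symm⟩
  · rintro (hn | ⟨m, ⟨h, hm⟩, hn⟩)
    · exact ⟨y, hy, by rw [if_pos rfl]; exact hn⟩
    · exact ⟨m, hm, by rw [if_neg h, content_var, Finset.mem_singleton]; exact hn.symm⟩

/-- The identities for the slot `y` in the term `T`. -/
def slotIds (T : Term) (y : ℕ) : Finset (Term × Term) :=
  {(sub T y (var (y + 5) + var (y + 5)), sub T y (var (y + 5))),
    (sub T y (var (y + 5) + var (y + 5) + var 4), sub T y (var (y + 5) + var 4)),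
    (sub T y (var (y + 5) * var 3), sub T y (var (y + 5) + var 3)),
    (sub T y (var (y + 5) * var 3 + var 4), sub T y (var (y + 5) + var 3 + var 4)),
    (var 0 * sub T y (var (y + 5)), var 0 * sub T y (var (y + 5) + var 0)),
    (sub T y (var (y + 5)) * var 1, sub T y (var (y + 5) + var 1) * var 1),
    (sub T y (var (y + 5)) + var 2, sub T y (var (y + 5) + var 2) + var 2),
    (var 0 * sub T y (var (y + 5)) + var 2, var 0 * sub T y (var (y + 5) + var 2) + var 2),
    (sub T y (var (y + 5)) * var 1 + var 2, sub T y (var (y + 5) + var 2) * var 1 + var 2),
    (var 0 * sub T y (var (y + 5)) * var 1 + var 2,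
      var 0 * sub T y (var (y + 5) + var 2) * var 1 + var 2)} ∪
  T.content.image (fun x => (sub T y (var (y + 5)), sub T y (var (y + 5) + var (x + 5))))

theorem slotIds_regular {T : Term} {y : ℕ} (hy : y ∈ T.content) :
    ∀ e ∈ slotIds T y, e.1.content = e.2.content := by
  intro e he
  unfold slotIds at he
  rw [Finset.mem_union] at he
  rcases he with he | he
  · simp only [Finset.mem_insert, Finset.mem_singleton] at he
    rcases he with rfl | rfl | rfl | rfl | rfl | rfl | rfl | rfl | rfl | rfl <;>
      simp only [content_sub hy, content_add, content_mul, content_var] <;> ext n <;>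
      simp only [Finset.mem_union, Finset.mem_singleton] <;> tauto
  · rw [Finset.mem_image] at he
    obtain ⟨x, hx, rfl⟩ := he
    simp only [content_sub hy, content_add, content_var]
    ext n
    simp only [Finset.mem_union, Finset.mem_singleton, Finset.mem_image, Finset.mem_erase]
    constructor
    · tauto
    · rintro ((h | h) | h)
      · exact Or.inl h
      · by_cases hxy : x = y
        · subst hxy; exact Or.inl h
        · exact Or.inr ⟨x, ⟨hxy, hx⟩, h.symm⟩
      · exact Or.inr h

/-- The valuation which extends `v` to the new variables. -/
def ext5 {A : Type u} (a b c z w : A) (v : ℕ → A) : ℕ → A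
  | 0 => a
  | 1 => b
  | 2 => c
  | 3 => z
  | 4 => w
  | n + 5 => v n

theorem eval_sub {A : Type u} [Add A] [Mul A] (a b c z w : A) (v : ℕ → A) (T : Term) (y : ℕ)
    (s : A) (t : Term) : (sub T y t).eval (ext5 a b c z w (Function.update v y s)) =
      T.eval (Function.update v y (t.eval (ext5 a b c z w (Function.update v y s)))) := by
  unfold sub
  rw [eval_subst]
  apply eval_congr
  intro n _
  by_cases h : n = y
  · subst h
    rw [if_pos rfl, Function.update_self]
  · rw [if_neg h, Function.update_of_ne h]
    change Function.update v y s n = v n
    rw [Function.update_of_ne h]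

/-- The properties of a slot. -/
structure Slot (A : Type u) [Add A] [Mul A] (T : Term) (y : ℕ) : Prop where
  mem : y ∈ T.content
  c1 : ∀ (v : ℕ → A) (s : A), T.eval (Function.update v y (s + s)) =
    T.eval (Function.update v y s)
  c1' : ∀ (v : ℕ → A) (s w : A), T.eval (Function.update v y (s + s + w)) =
    T.eval (Function.update v y (s + w))
  c2 : ∀ (v : ℕ → A) (s z : A), T.eval (Function.update v y (s * z)) =
    T.eval (Function.update v y (s + z))
  c2' : ∀ (v : ℕ → A) (s z w : A), T.eval (Function.update v y (s * z + w)) =
    T.eval (Function.update v y (s + z + w))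
  da : ∀ (v : ℕ → A) (s a : A), a * T.eval (Function.update v y s) =
    a * T.eval (Function.update v y (s + a))
  db : ∀ (v : ℕ → A) (s b : A), T.eval (Function.update v y s) * b =
    T.eval (Function.update v y (s + b)) * b
  b1 : ∀ (v : ℕ → A) (s c : A), T.eval (Function.update v y s) + c =
    T.eval (Function.update v y (s + c)) + c
  b2 : ∀ (v : ℕ → A) (s a c : A), a * T.eval (Function.update v y s) + c =
    a * T.eval (Function.update v y (s + c)) + c
  b3 : ∀ (v : ℕ → A) (s b c : A), T.eval (Function.update v y s) * b + c =
    T.eval (Function.update v y (s + c)) * b + c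
  b4 : ∀ (v : ℕ → A) (s a b c : A), a * T.eval (Function.update v y s) * b + c =
    a * T.eval (Function.update v y (s + c)) * b + c
  d0 : ∀ (v : ℕ → A) (s : A) (x : ℕ), x ∈ T.content → T.eval (Function.update v y s) =
    T.eval (Function.update v y (s + Function.update v y s x))

theorem slot_of_holds {A : Type u} [Add A] [Mul A] {T : Term} {y : ℕ} (hy : y ∈ T.content)
    (h : ∀ e ∈ slotIds T y, Holds A e) : Slot A T y := by
  have hY : ∀ (a b c z w : A) (v : ℕ → A) (s : A),
      (var (y + 5)).eval (ext5 a b c z w (Function.update v y s)) = s := by
    intro a b c z w v s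
    change Function.update v y s y = s
    rw [Function.update_self]
  have key : ∀ e ∈ slotIds T y, ∀ (a b c z w : A) (v : ℕ → A) (s : A),
      e.1.eval (ext5 a b c z w (Function.update v y s)) =
      e.2.eval (ext5 a b c z w (Function.update v y s)) := fun e he a b c z w v s => h e he _
  refine ⟨hy, ?_, ?_, ?_, ?_, ?_, ?_, ?_, ?_, ?_, ?_, ?_⟩
  · intro v s
    have := key (sub T y (var (y + 5) + var (y + 5)), sub T y (var (y + 5)))
      (by simp [slotIds]) s s s s s v s
    rw [eval_sub, eval_sub, eval_add, hY] at this
    exact this
  · intro v s w
    have := key (sub T y (var (y + 5) + var (y + 5) + var 4), sub T y (var (y + 5) + var 4))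
      (by simp [slotIds]) s s s s w v s
    rw [eval_sub, eval_sub, eval_add, eval_add, eval_add, hY] at this
    exact this
  · intro v s z
    have := key (sub T y (var (y + 5) * var 3), sub T y (var (y + 5) + var 3))
      (by simp [slotIds]) s s s z s v s
    rw [eval_sub, eval_sub, eval_mul, eval_add, hY] at this
    exact this
  · intro v s z w
    have := key (sub T y (var (y + 5) * var 3 + var 4), sub T y (var (y + 5) + var 3 + var 4))
      (by simp [slotIds]) s s s z w v s
    rw [eval_sub, eval_sub, eval_add, eval_mul, eval_add, eval_add, hY] at this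
    exact this
  · intro v s a
    have := key (var 0 * sub T y (var (y + 5)), var 0 * sub T y (var (y + 5) + var 0))
      (by simp [slotIds]) a s s s s v s
    rw [eval_mul, eval_mul, eval_sub, eval_sub, eval_add, hY] at this
    exact this
  · intro v s b
    have := key (sub T y (var (y + 5)) * var 1, sub T y (var (y + 5) + var 1) * var 1)
      (by simp [slotIds]) s b s s s v s
    rw [eval_mul, eval_mul, eval_sub, eval_sub, eval_add, hY] at this
    exact this
  · intro v s c
    have := key (sub T y (var (y + 5)) + var 2, sub T y (var (y + 5) + var 2) + var 2)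
      (by simp [slotIds]) s s c s s v s
    rw [eval_add, eval_add, eval_sub, eval_sub, eval_add, hY] at this
    exact this
  · intro v s a c
    have := key (var 0 * sub T y (var (y + 5)) + var 2,
      var 0 * sub T y (var (y + 5) + var 2) + var 2) (by simp [slotIds]) a s c s s v s
    rw [eval_add, eval_add, eval_mul, eval_mul, eval_sub, eval_sub, eval_add, hY] at this
    exact this
  · intro v s b c
    have := key (sub T y (var (y + 5)) * var 1 + var 2,
      sub T y (var (y + 5) + var 2) * var 1 + var 2) (by simp [slotIds]) s b c s s v s
    rw [eval_add, eval_add, eval_mul, eval_mul, eval_sub, eval_sub, eval_add, hY] at this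
    exact this
  · intro v s a b c
    have := key (var 0 * sub T y (var (y + 5)) * var 1 + var 2,
      var 0 * sub T y (var (y + 5) + var 2) * var 1 + var 2) (by simp [slotIds]) a b c s s v s
    rw [eval_add, eval_add, eval_mul, eval_mul, eval_mul, eval_mul, eval_sub, eval_sub, eval_add,
      hY] at this
    exact this
  · intro v s x hx
    have := key (sub T y (var (y + 5)), sub T y (var (y + 5) + var (x + 5)))
      (by
        unfold slotIds
        rw [Finset.mem_union]
        exact Or.inr (Finset.mem_image_of_mem _ hx)) s s s s s v s
    rw [eval_sub, eval_sub, eval_add, hY] at this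
    exact this

/-- If the value of `T` in `S` does not depend on the variable `y`, then the slot identities hold
in `S`. -/
theorem slotIds_holds {S : Type u} [Add S] [Mul S] {T : Term} {y : ℕ}
    (h : ∀ (v : ℕ → S) (s s' : S), T.eval (Function.update v y s) =
      T.eval (Function.update v y s')) : ∀ e ∈ slotIds T y, Holds S e := by
  have key : ∀ (v : ℕ → S) (t t' : Term), (sub T y t).eval v = (sub T y t').eval v := by
    intro v t t'
    unfold sub
    rw [eval_subst, eval_subst]
    have h1 : ∀ t : Term, (fun n => (if n = y then t else var (n + 5)).eval v) =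
        Function.update (fun n => v (n + 5)) y (t.eval v) := by
      intro t
      funext n
      by_cases h : n = y
      · subst h; rw [if_pos rfl, Function.update_self]
      · rw [if_neg h, Function.update_of_ne h]; rfl
    rw [h1, h1]
    exact h _ _ _
  intro e he v
  unfold slotIds at he
  rw [Finset.mem_union] at he
  rcases he with he | he
  · simp only [Finset.mem_insert, Finset.mem_singleton] at he
    rcases he with rfl | rfl | rfl | rfl | rfl | rfl | rfl | rfl | rfl | rfl <;>
      simp only [eval_add, eval_mul] <;> rw [key]
  · rw [Finset.mem_image] at he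
    obtain ⟨x, _, rfl⟩ := he
    exact key _ _ _

/-- The semiring axioms. -/
def axioms : Finset (Term × Term) :=
  {(var 0 + var 1, var 1 + var 0), (var 0 + var 1 + var 2, var 0 + (var 1 + var 2)),
    (var 0 * var 1 * var 2, var 0 * (var 1 * var 2)),
    ((var 0 + var 1) * var 2, var 0 * var 2 + var 1 * var 2),
    (var 0 * (var 1 + var 2), var 0 * var 1 + var 0 * var 2)}

theorem axioms_regular : ∀ e ∈ axioms, e.1.content = e.2.content := by decide

theorem isSemiring_iff {A : Type u} [Add A] [Mul A] :
    IsSemiring A ↔ ∀ e ∈ axioms, Holds A e := by
  constructor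
  · intro h e he v
    simp only [axioms, Finset.mem_insert, Finset.mem_singleton] at he
    rcases he with rfl | rfl | rfl | rfl | rfl
    · exact h.add_comm _ _
    · exact h.add_assoc _ _ _
    · exact h.mul_assoc _ _ _
    · exact h.add_mul _ _ _
    · exact h.mul_add _ _ _
  · intro h
    refine ⟨fun x y => ?_, fun x y z => ?_, fun x y z => ?_, fun x y z => ?_, fun x y z => ?_⟩
    · exact h (var 0 + var 1, var 1 + var 0) (by simp [axioms]) (ext5 x y y y y (fun _ => y))
    · exact h (var 0 + var 1 + var 2, var 0 + (var 1 + var 2)) (by simp [axioms])
        (ext5 x y z y y (fun _ => y))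
    · exact h (var 0 * var 1 * var 2, var 0 * (var 1 * var 2)) (by simp [axioms])
        (ext5 x y z y y (fun _ => y))
    · exact h ((var 0 + var 1) * var 2, var 0 * var 2 + var 1 * var 2) (by simp [axioms])
        (ext5 x y z y y (fun _ => y))
    · exact h (var 0 * (var 1 + var 2), var 0 * var 1 + var 0 * var 2) (by simp [axioms])
        (ext5 x y z y y (fun _ => y))

/-- The filling of the slots of an irregular identity. -/
def fill (l r : Term) : Term :=
  if l.content ⊆ r.content then l else if r.content ⊆ l.content then r else l + r

/-- The identity `(l, r)` with all slots filled. -/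
def cross (l r : Term) : Term × Term :=
  (l.subst (fun n => if n ∈ r.content then var n else fill l r),
    r.subst (fun n => if n ∈ l.content then var n else fill l r))

theorem cross_regular (l r : Term) : (cross l r).1.content = (cross l r).2.content := by
  have key : ∀ (l r e : Term), (l.subst (fun n => if n ∈ r.content then var n else e)).content =
      (l.content ∩ r.content) ∪ (if l.content ⊆ r.content then ∅ else e.content) := by
    intro l r e
    rw [content_subst]
    ext n
    simp only [Finset.mem_biUnion, Finset.mem_union, Finset.mem_inter]
    constructor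
    · rintro ⟨m, hm, hn⟩
      by_cases h : m ∈ r.content
      · rw [if_pos h, content_var, Finset.mem_singleton] at hn
        subst hn
        exact Or.inl ⟨hm, h⟩
      · rw [if_neg h] at hn
        rw [if_neg (fun hs => h (hs hm))]
        exact Or.inr hn
    · rintro (⟨h1, h2⟩ | h)
      · exact ⟨n, h1, by rw [if_pos h2, content_var]; exact Finset.mem_singleton_self n⟩
      · split_ifs at h with hs
        · exact absurd h (Finset.notMem_empty _)
        · rw [Finset.not_subset] at hs
          obtain ⟨m, hm, hm2⟩ := hs
          exact ⟨m, hm, by rw [if_neg hm2]; exact h⟩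
  unfold cross
  rw [key, key]
  unfold fill
  by_cases h1 : l.content ⊆ r.content
  · by_cases h2 : r.content ⊆ l.content
    · rw [if_pos h1, if_pos h2, Finset.inter_comm]
    · rw [if_pos h1, if_neg h2, if_pos h1, Finset.inter_comm]
      ext n
      simp only [Finset.mem_union, Finset.mem_inter, Finset.notMem_empty, or_false]
      constructor
      · rintro ⟨a, b⟩; exact Or.inr b
      · rintro (h | h)
        · exact h
        · exact ⟨h1 h, h⟩
  · by_cases h2 : r.content ⊆ l.content
    · rw [if_neg h1, if_neg h1, if_pos h2, if_pos h2]
      ext n
      simp only [Finset.mem_union, Finset.mem_inter, Finset.notMem_empty, or_false]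
      constructor
      · rintro (h | h)
        · exact ⟨h.2, h.1⟩
        · exact ⟨h, h2 h⟩
      · rintro ⟨a, b⟩; exact Or.inr a
    · rw [if_neg h1, if_neg h1, if_neg h2, if_neg h2, Finset.inter_comm]

/-- The slots of `l` in the identity `(l, r)`. -/
def slots (l r : Term) : Finset ℕ := l.content \ r.content

/-- The basis of the extension. -/
def basis (E : Finset (Term × Term)) : Finset (Term × Term) :=
  axioms ∪ E.filter (fun e => e.1.content = e.2.content) ∪
    E.biUnion (fun e => {cross e.1 e.2} ∪ (slots e.1 e.2).biUnion (slotIds e.1) ∪
      (slots e.2 e.1).biUnion (slotIds e.2))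

theorem basis_regular (E : Finset (Term × Term)) : ∀ e ∈ basis E, e.1.content = e.2.content := by
  intro e he
  unfold basis at he
  rw [Finset.mem_union, Finset.mem_union, Finset.mem_filter, Finset.mem_biUnion] at he
  rcases he with (he | he) | ⟨e', _, he⟩
  · exact axioms_regular e he
  · exact he.2
  · rw [Finset.mem_union, Finset.mem_union, Finset.mem_singleton, Finset.mem_biUnion,
      Finset.mem_biUnion] at he
    rcases he with (rfl | ⟨y, hy, he⟩) | ⟨y, hy, he⟩
    · exact cross_regular _ _
    · exact slotIds_regular (Finset.mem_sdiff.1 hy).1 e he
    · exact slotIds_regular (Finset.mem_sdiff.1 hy).1 e he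

theorem indep {S : Type u} [Add S] [Mul S] {l r : Term} (h : Holds S (l, r)) {y : ℕ}
    (hy : y ∈ slots l r) (v : ℕ → S) (s s' : S) : l.eval (Function.update v y s) =
      l.eval (Function.update v y s') := by
  have h1 := h (Function.update v y s)
  have h2 := h (Function.update v y s')
  dsimp only at h1 h2
  rw [h1, h2]
  apply eval_congr
  intro n hn
  have : n ≠ y := by
    rintro rfl
    exact (Finset.mem_sdiff.1 hy).2 hn
  rw [Function.update_of_ne this, Function.update_of_ne this]

theorem cross_holds {S : Type u} [Add S] [Mul S] {l r : Term} (h : Holds S (l, r)) :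
    Holds S (cross l r) := by
  intro v
  unfold cross
  dsimp only
  rw [eval_subst, eval_subst]
  set w : ℕ → S := fun n => if n ∈ l.content then (if n ∈ r.content then v n else (fill l r).eval v)
    else (fill l r).eval v with hw
  have h1 := h w
  dsimp only at h1
  have e1 : l.eval (fun n => (if n ∈ r.content then var n else fill l r).eval v) = l.eval w := by
    apply eval_congr
    intro n hn
    rw [hw]
    dsimp only
    rw [if_pos hn]
    split_ifs <;> rfl
  have e2 : r.eval (fun n => (if n ∈ l.content then var n else fill l r).eval v) = r.eval w := by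
    apply eval_congr
    intro n hn
    rw [hw]
    dsimp only
    rw [if_pos hn]
    split_ifs <;> rfl
  rw [e1, e2, h1]

theorem basis_holds {S : Type u} [Add S] [Mul S] (hS : IsSemiring S) {E : Finset (Term × Term)}
    (hE : ∀ e ∈ E, Holds S e) : ∀ e ∈ basis E, Holds S e := by
  intro e he
  unfold basis at he
  rw [Finset.mem_union, Finset.mem_union, Finset.mem_filter, Finset.mem_biUnion] at he
  rcases he with (he | he) | ⟨e', he', he⟩
  · exact isSemiring_iff.1 hS e he
  · exact hE e he.1
  · rw [Finset.mem_union, Finset.mem_union, Finset.mem_singleton, Finset.mem_biUnion,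
      Finset.mem_biUnion] at he
    rcases he with (rfl | ⟨y, hy, he⟩) | ⟨y, hy, he⟩
    · exact cross_holds (hE e' he')
    · exact slotIds_holds (indep (hE e' he') hy) e he
    · exact slotIds_holds (indep (l := e'.2) (r := e'.1) (fun v => (hE e' he' v).symm) hy) e he

/-! ### Contexts -/

section Contexts

variable {A : Type u} [Add A] [Mul A]

/-- Optional multiplication from the left. -/
def mulL : Option A → A → A
  | none, x => x
  | some a, x => a * x

/-- Optional multiplication from the right. -/
def mulR : Option A → A → A
  | none, x => x
  | some b, x => x * b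

/-- Optional addition. -/
def addR : Option A → A → A
  | none, x => x
  | some c, x => x + c

/-- The context `a x b + c`; all of `a`, `b`, `c` may be absent. -/
def cx (a b c : Option A) (x : A) : A := addR c (mulR b (mulL a x))

theorem mulL_add (h : IsSemiring A) (a : Option A) (x y : A) :
    mulL a (x + y) = mulL a x + mulL a y := by
  cases a
  · rfl
  · exact h.mul_add _ _ _

theorem mulR_add (h : IsSemiring A) (a : Option A) (x y : A) :
    mulR a (x + y) = mulR a x + mulR a y := by
  cases a
  · rfl
  · exact h.add_mul _ _ _

theorem mulL_mul (h : IsSemiring A) (a : Option A) (x y : A) : mulL a (x * y) = mulL a x * y := by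
  cases a
  · rfl
  · exact (h.mul_assoc _ _ _).symm

theorem mulR_mul (h : IsSemiring A) (a : Option A) (x y : A) : mulR a (x * y) = x * mulR a y := by
  cases a
  · rfl
  · exact h.mul_assoc _ _ _

theorem mulR_mulL (h : IsSemiring A) (a b : Option A) (x : A) :
    mulR b (mulL a x) = mulL a (mulR b x) := by
  cases a <;> cases b
  · rfl
  · rfl
  · rfl
  · exact h.mul_assoc _ _ _

theorem cx_add_left (h : IsSemiring A) (a b : Option A) (c w x : A) :
    cx a b (some c) (x + w) = cx a b (some (cx a b (some c) w)) x := by
  unfold cx
  rw [mulL_add h, mulR_add h]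
  exact h.add_assoc _ _ _

theorem cx_mul_right (h : IsSemiring A) (a b c : Option A) (w x : A) :
    cx a b c (x * w) = cx a (some (mulR b w)) c x := by
  unfold cx
  rw [mulL_mul h, mulR_mul h]
  rfl

theorem cx_mul_left (h : IsSemiring A) (a b c : Option A) (w x : A) :
    cx a b c (w * x) = cx (some (mulL a w)) b c x := by
  unfold cx
  rw [mulL_mul h]
  rfl

theorem add_cx (h : IsSemiring A) (a b c : Option A) (w x : A) :
    cx a b c x + w = cx a b (some (addR (some w) (c.getD w))) x ∨
    cx a b c x + w = cx a b (some w) x := by
  cases c with
  | none => exact Or.inr rfl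
  | some c => exact Or.inl (h.add_assoc _ _ _)

end Contexts

/-! ### The product with the contents -/

/-- The product of the algebra `A` with the semilattice of the finite sets of variables. -/
structure PP (A : Type) where
  /-- the component in the algebra -/
  val : A
  /-- the content -/
  con : Finset ℕ

section PP

variable {A : Type}

theorem PP.ext {x y : PP A} (h1 : x.val = y.val) (h2 : x.con = y.con) : x = y := by
  cases x; cases y; cases h1; cases h2; rfl

instance [Add A] : Add (PP A) := ⟨fun x y => ⟨x.val + y.val, x.con ∪ y.con⟩⟩
instance [Mul A] : Mul (PP A) := ⟨fun x y => ⟨x.val * y.val, x.con ∪ y.con⟩⟩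

theorem val_add [Add A] (x y : PP A) : (x + y).val = x.val + y.val := rfl
theorem val_mul [Mul A] (x y : PP A) : (x * y).val = x.val * y.val := rfl
theorem con_add [Add A] (x y : PP A) : (x + y).con = x.con ∪ y.con := rfl
theorem con_mul [Mul A] (x y : PP A) : (x * y).con = x.con ∪ y.con := rfl

variable [Add A] [Mul A]

theorem eval_PP (v : ℕ → PP A) (t : Term) : t.eval v =
    ⟨t.eval (fun n => (v n).val), t.content.biUnion (fun n => (v n).con)⟩ := by
  induction t with
  | var n => simp [eval, content]
  | add s t hs ht =>
    apply PP.ext
    · simp only [eval, val_add, hs, ht]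
    · simp only [eval, con_add, hs, ht, content, Finset.union_biUnion]
  | mul s t hs ht =>
    apply PP.ext
    · simp only [eval, val_mul, hs, ht]
    · simp only [eval, con_mul, hs, ht, content, Finset.union_biUnion]

theorem holds_PP {e : Term × Term} (h : Holds A e) (hc : e.1.content = e.2.content) :
    Holds (PP A) e := by
  intro v
  rw [eval_PP, eval_PP, h, hc]

end PP

end Pool.Agent.Q23.SemiringExt
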