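import Pool.Agent.Q23.SemiringExt

namespace Pool.Agent.Q23.SemiringExt

open Term

universe u

section Main

variable {P : Type} [Add P] [Mul P]

/-- The slot equivalence. -/
def SlotEq (T : Term) (y : ℕ) (x x' : P) : Prop :=
  ∀ v : ℕ → P, T.eval (Function.update v y x) = T.eval (Function.update v y x') ∧
    ∀ w, T.eval (Function.update v y (x + w)) = T.eval (Function.update v y (x' + w))

theorem SlotEq.symm {T : Term} {y : ℕ} {x x' : P} (h : SlotEq T y x x') : SlotEq T y x' x :=
  fun v => ⟨(h v).1.symm, fun w => ((h v).2 w).symm⟩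

theorem SlotEq.trans {T : Term} {y : ℕ} {x x' x'' : P} (h : SlotEq T y x x')
    (h' : SlotEq T y x' x'') : SlotEq T y x x'' :=
  fun v => ⟨(h v).1.trans (h' v).1, fun w => ((h v).2 w).trans ((h' v).2 w)⟩

theorem SlotEq.add (hP : IsSemiring P) {T : Term} {y : ℕ} {x x' : P} (h : SlotEq T y x x')
    (w : P) : SlotEq T y (x + w) (x' + w) := by
  intro v
  refine ⟨(h v).2 w, fun w' => ?_⟩
  rw [hP.add_assoc, hP.add_assoc]
  exact (h v).2 _

theorem Slot.idem {T : Term} {y : ℕ} (hT : Slot P T y) (x : P) : SlotEq T y (x + x) x :=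
  fun v => ⟨hT.c1 v x, fun w => hT.c1' v x w⟩

theorem Slot.mul {T : Term} {y : ℕ} (hT : Slot P T y) (x z : P) : SlotEq T y (x * z) (x + z) :=
  fun v => ⟨hT.c2 v x z, fun w => hT.c2' v x z w⟩

theorem absorb_add (hP : IsSemiring P) {T : Term} {y : ℕ} {a b d : P} (h1 : SlotEq T y (a + d) d)
    (h2 : SlotEq T y (b + d) d) : SlotEq T y (a + b + d) d := by
  have h3 := h2.add hP a
  have e1 : b + d + a = a + b + d := by rw [hP.add_comm, hP.add_assoc]
  have e2 : d + a = a + d := hP.add_comm _ _
  rw [e1, e2] at h3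
  exact h3.trans h1

/-- A letter is absorbed in a slot by every term containing it. -/
theorem absorb_letter (hP : IsSemiring P) {T : Term} {y : ℕ} (hT : Slot P T y) (v : ℕ → P) (m : ℕ)
    (t : Term) (hm : m ∈ t.content) : SlotEq T y (v m + t.eval v) (t.eval v) := by
  induction t with
  | var n =>
    rw [content, Finset.mem_singleton] at hm
    subst hm
    exact hT.idem _
  | add s t hs ht =>
    rw [content, Finset.mem_union] at hm
    change SlotEq T y (v m + (s.eval v + t.eval v)) (s.eval v + t.eval v)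
    rcases hm with hm | hm
    · rw [← hP.add_assoc]
      exact (hs hm).add hP _
    · rw [hP.add_comm (s.eval v), ← hP.add_assoc]
      exact (ht hm).add hP _
  | mul s t hs ht =>
    rw [content, Finset.mem_union] at hm
    change SlotEq T y (v m + (s.eval v * t.eval v)) (s.eval v * t.eval v)
    have h1 : SlotEq T y (v m + (s.eval v * t.eval v)) (v m + (s.eval v + t.eval v)) := by
      rw [hP.add_comm, hP.add_comm (v m)]
      exact (hT.mul _ _).add hP _
    have h2 : SlotEq T y (v m + (s.eval v + t.eval v)) (s.eval v + t.eval v) := by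
      rcases hm with hm | hm
      · rw [← hP.add_assoc]
        exact (hs hm).add hP _
      · rw [hP.add_comm (s.eval v), ← hP.add_assoc]
        exact (ht hm).add hP _
    exact (h1.trans h2).trans (hT.mul _ _).symm

/-- A term is absorbed in a slot by every term whose letters include its letters. -/
theorem absorb (hP : IsSemiring P) {T : Term} {y : ℕ} (hT : Slot P T y) (v : ℕ → P)
    (t t' : Term) (h : ∀ n ∈ t.content, ∃ m ∈ t'.content, v m = v n) :
    SlotEq T y (t.eval v + t'.eval v) (t'.eval v) := by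
  induction t with
  | var n =>
    obtain ⟨m, hm, hmn⟩ := h n (Finset.mem_singleton_self n)
    change SlotEq T y (v n + t'.eval v) (t'.eval v)
    rw [← hmn]
    exact absorb_letter hP hT v m t' hm
  | add s t hs ht =>
    exact absorb_add hP (hs fun n hn => h n (Finset.mem_union_left _ hn))
      (ht fun n hn => h n (Finset.mem_union_right _ hn))
  | mul s t hs ht =>
    exact ((hT.mul _ _).add hP _).trans
      (absorb_add hP (hs fun n hn => h n (Finset.mem_union_left _ hn))
        (ht fun n hn => h n (Finset.mem_union_right _ hn)))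

/-- In a slot of a term inside a context with an additive summand `c`, `c` may be added. -/
theorem Slot.ctx {T : Term} {y : ℕ} (hT : Slot P T y) (v : ℕ → P) (a b : Option P) (c s : P) :
    cx a b (some c) (T.eval (Function.update v y s)) =
      cx a b (some c) (T.eval (Function.update v y (s + c))) := by
  cases a <;> cases b
  · exact hT.b1 v s c
  · exact hT.b3 v s _ c
  · exact hT.b2 v s _ c
  · exact hT.b4 v s _ _ c

end Main

/-! ### Evaluation of terms with content -/

theorem isSemiring_PP {A : Type} [Add A] [Mul A] (h : IsSemiring A) : IsSemiring (PP A) :=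
  isSemiring_iff.2 fun e he => holds_PP (isSemiring_iff.1 h e he) (axioms_regular e he)

theorem eval_cx {P : Type} [Add P] [Mul P] (v : ℕ → P) (a b c : Option Term) (t : Term) :
    (cx a b c t).eval v = cx (a.map (Term.eval v)) (b.map (Term.eval v)) (c.map (Term.eval v))
      (t.eval v) := by
  cases a <;> cases b <;> cases c <;> rfl

/-- The data of the main argument. -/
structure Data (A : Type) [Add A] [Mul A] where
  /-- a finite basis of the original algebra -/
  E : Finset (Term × Term)
  /-- a valuation -/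
  φ : ℕ → A
  /-- the content of the identity -/
  Z : Finset ℕ
  /-- a letter -/
  z₀ : ℕ
  mem : z₀ ∈ Z
  semi : IsSemiring A
  basis : ∀ e ∈ basis E, Holds A e

namespace Data

variable {A : Type} [Add A] [Mul A] (D : Data A)

/-- Letters outside `Z` are replaced by `z₀`. -/
def π (n : ℕ) : ℕ := if n ∈ D.Z then n else D.z₀

theorem π_mem (n : ℕ) : D.π n ∈ D.Z := by
  unfold π
  split_ifs with h
  · exact h
  · exact D.mem

/-- The valuation in the product. -/
def v (n : ℕ) : PP A := ⟨D.φ (D.π n), {D.π n}⟩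

/-- The evaluation. -/
def ev (t : Term) : PP A := t.eval D.v

theorem ev_add (s t : Term) : D.ev (s + t) = D.ev s + D.ev t := rfl
theorem ev_mul (s t : Term) : D.ev (s * t) = D.ev s * D.ev t := rfl

theorem con_ev (t : Term) : (D.ev t).con = t.content.image D.π := by
  unfold ev
  rw [eval_PP]
  ext n
  simp only [v, Finset.mem_biUnion, Finset.mem_singleton, Finset.mem_image]
  constructor
  · rintro ⟨m, hm, rfl⟩; exact ⟨m, hm, rfl⟩
  · rintro ⟨m, hm, rfl⟩; exact ⟨m, hm, rfl⟩

theorem con_sub (t : Term) : (D.ev t).con ⊆ D.Z := by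
  rw [con_ev]
  intro n hn
  obtain ⟨m, _, rfl⟩ := Finset.mem_image.1 hn
  exact D.π_mem m

include D in
theorem semiP : IsSemiring (PP A) := isSemiring_PP D.semi

theorem ev_subst (σ : ℕ → Term) (t : Term) : D.ev (t.subst σ) = t.eval (fun n => D.ev (σ n)) :=
  eval_subst _ _ _

theorem ev_cx (a b c : Option Term) (t : Term) :
    D.ev (cx a b c t) = cx (a.map D.ev) (b.map D.ev) (c.map D.ev) (D.ev t) := eval_cx _ _ _ _ _

/-- The content of the term is `Z`. -/
def Full (c : Term) : Prop := (D.ev c).con = D.Z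

theorem full_of_sub {c : Term} (h : D.Z ⊆ (D.ev c).con) : D.Full c :=
  Finset.Subset.antisymm (D.con_sub c) h

theorem Full.cx {c : Term} (hc : D.Full c) (a b : Option Term) (w : Term) :
    D.Full (cx a b (some c) w) := by
  apply D.full_of_sub
  have : D.ev (SemiringExt.cx a b (some c) w) = D.ev (mulR b (mulL a w)) + D.ev c := rfl
  rw [this, con_add, hc]
  exact Finset.subset_union_right

/-- The pair is a slot of the basis. -/
def SlotPair (T : Term) (y : ℕ) : Prop :=
  ∃ e ∈ D.E, (T = e.1 ∧ y ∈ slots e.1 e.2) ∨ (T = e.2 ∧ y ∈ slots e.2 e.1)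

theorem slot {T : Term} {y : ℕ} (h : D.SlotPair T y) : Slot (PP A) T y := by
  obtain ⟨e, he, (⟨rfl, hy⟩ | ⟨rfl, hy⟩)⟩ := h
  · have hm := (Finset.mem_sdiff.1 hy).1
    refine slot_of_holds hm fun e' he' => holds_PP (D.basis e' ?_) (slotIds_regular hm e' he')
    unfold SemiringExt.basis
    rw [Finset.mem_union, Finset.mem_biUnion]
    refine Or.inr ⟨e, he, ?_⟩
    rw [Finset.mem_union, Finset.mem_union, Finset.mem_biUnion]
    exact Or.inl (Or.inr ⟨y, hy, he'⟩)
  · have hm := (Finset.mem_sdiff.1 hy).1
    refine slot_of_holds hm fun e' he' => holds_PP (D.basis e' ?_) (slotIds_regular hm e' he')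
    unfold SemiringExt.basis
    rw [Finset.mem_union, Finset.mem_biUnion]
    refine Or.inr ⟨e, he, ?_⟩
    rw [Finset.mem_union, Finset.mem_biUnion (s := slots e.2 e.1)]
    exact Or.inr ⟨y, hy, he'⟩

theorem cross_eval {e : Term × Term} (he : e ∈ D.E) (w : ℕ → PP A) :
    e.1.eval (fun n => if n ∈ e.2.content then w n else (fill e.1 e.2).eval w) =
      e.2.eval (fun n => if n ∈ e.1.content then w n else (fill e.1 e.2).eval w) := by
  have h1 : Holds (PP A) (cross e.1 e.2) := by
    refine holds_PP (D.basis _ ?_) (cross_regular _ _)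
    unfold SemiringExt.basis
    rw [Finset.mem_union, Finset.mem_biUnion]
    refine Or.inr ⟨e, he, ?_⟩
    rw [Finset.mem_union, Finset.mem_union, Finset.mem_singleton]
    exact Or.inl (Or.inl rfl)
  have h2 := h1 w
  unfold cross at h2
  dsimp only at h2
  rw [eval_subst, eval_subst] at h2
  have h3 : ∀ t : Term, (fun n => (if n ∈ t.content then var n else fill e.1 e.2).eval w) =
      (fun n => if n ∈ t.content then w n else (fill e.1 e.2).eval w) := by
    intro t
    funext n
    split_ifs <;> rfl
  rw [h3, h3] at h2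
  exact h2

/-- In the presence of a full summand the slots may be filled arbitrarily. -/
theorem change {T : Term} {y : ℕ} (h : D.SlotPair T y) (a b : Option (PP A)) {c : Term}
    (hc : D.Full c) (w : ℕ → PP A) (t t' : Term) :
    cx a b (some (D.ev c)) (T.eval (Function.update w y (D.ev t))) =
      cx a b (some (D.ev c)) (T.eval (Function.update w y (D.ev t'))) := by
  have key : ∀ t : Term, cx a b (some (D.ev c)) (T.eval (Function.update w y (D.ev t))) =
      cx a b (some (D.ev c)) (T.eval (Function.update w y (D.ev c))) := by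
    intro t
    rw [(D.slot h).ctx]
    have h1 := absorb D.semiP (D.slot h) D.v t c (by
      intro n _
      have h2 : D.π n ∈ (D.ev c).con := by rw [hc]; exact D.π_mem n
      rw [con_ev, Finset.mem_image] at h2
      obtain ⟨m, hm, hmn⟩ := h2
      refine ⟨m, hm, ?_⟩
      unfold v
      rw [hmn])
    congr 1
    exact (h1 w).1
  rw [key t, key t']

theorem change_all {l r : Term} (hlr : ∀ y ∈ slots l r, D.SlotPair l y) (a b : Option (PP A))
    {c : Term} (hc : D.Full c) (σ : ℕ → Term) (f : Term) (B : Finset ℕ) (hB : B ⊆ slots l r) :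
    cx a b (some (D.ev c)) (l.eval (fun n => D.ev (σ n))) =
      cx a b (some (D.ev c)) (l.eval (fun n => if n ∈ B then D.ev f else D.ev (σ n))) := by
  induction B using Finset.induction_on with
  | empty => simp
  | insert y B hy ih =>
    rw [ih ((Finset.subset_insert _ _).trans hB)]
    have e1 : (fun n => if n ∈ insert y B then D.ev f else D.ev (σ n)) =
        Function.update (fun n => if n ∈ B then D.ev f else D.ev (σ n)) y (D.ev f) := by
      funext n
      by_cases h : n = y
      · subst h; rw [Function.update_self, if_pos (Finset.mem_insert_self _ _)]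
      · rw [Function.update_of_ne h]
        simp only [Finset.mem_insert, h, false_or]
    have e2 : (fun n => if n ∈ B then D.ev f else D.ev (σ n)) =
        Function.update (fun n => if n ∈ B then D.ev f else D.ev (σ n)) y (D.ev (σ y)) := by
      funext n
      by_cases h : n = y
      · subst h; rw [Function.update_self, if_neg hy]
      · rw [Function.update_of_ne h]
    rw [e1]
    conv_lhs => rw [e2]
    exact D.change (hlr y (hB (Finset.mem_insert_self _ _))) a b hc _ _ _

theorem change_slots {l r : Term} (hlr : ∀ y ∈ slots l r, D.SlotPair l y) (a b : Option (PP A))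
    {c : Term} (hc : D.Full c) (σ : ℕ → Term) (f : Term) :
    cx a b (some (D.ev c)) (l.eval (fun n => D.ev (σ n))) =
      cx a b (some (D.ev c)) (l.eval (fun n => if n ∈ r.content then D.ev (σ n) else D.ev f)) := by
  rw [D.change_all hlr a b hc σ f _ (Finset.Subset.refl _)]
  congr 1
  apply eval_congr
  intro n hn
  by_cases h : n ∈ r.content
  · rw [if_pos h, if_neg]
    intro h2
    exact (Finset.mem_sdiff.1 h2).2 h
  · rw [if_neg h, if_pos]
    exact Finset.mem_sdiff.2 ⟨hn, h⟩

/-! ### The first congruence -/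

/-- Equality in the presence of a full summand. -/
def R (t t' : Term) : Prop := ∀ (a b : Option Term) (c : Term), D.Full c →
  cx (a.map D.ev) (b.map D.ev) (some (D.ev c)) (D.ev t) =
    cx (a.map D.ev) (b.map D.ev) (some (D.ev c)) (D.ev t')

theorem R_add {t t' w w' : Term} (h : D.R t t') (h' : D.R w w') : D.R (t + w) (t' + w') := by
  have key : ∀ {t t' : Term}, D.R t t' → ∀ w, D.R (t + w) (t' + w) := by
    intro t t' h w a b c hc
    rw [ev_add, ev_add, cx_add_left D.semiP, cx_add_left D.semiP]
    have := D.ev_cx a b (some c) w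
    rw [Option.map_some] at this
    rw [← this]
    exact h a b _ (hc.cx D a b w)
  intro a b c hc
  rw [key h w a b c hc, ev_add, ev_add, D.semiP.add_comm (D.ev t'), D.semiP.add_comm (D.ev t'),
    ← ev_add, ← ev_add]
  exact key h' t' a b c hc

theorem R_mul {t t' w w' : Term} (h : D.R t t') (h' : D.R w w') : D.R (t * w) (t' * w') := by
  intro a b c hc
  have h1 := h a (some (mulR b w)) c hc
  have h2 := h' (some (mulL a t')) b c hc
  have e1 : D.ev (mulR b w) = mulR (b.map D.ev) (D.ev w) := by cases b <;> rfl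
  have e2 : D.ev (mulL a t') = mulL (a.map D.ev) (D.ev t') := by cases a <;> rfl
  rw [Option.map_some, e1, ← cx_mul_right D.semiP, ← cx_mul_right D.semiP] at h1
  rw [Option.map_some, e2, ← cx_mul_left D.semiP, ← cx_mul_left D.semiP] at h2
  exact h1.trans h2

theorem R_basis {e : Term × Term} (he : e ∈ D.E) (σ : ℕ → Term) :
    D.R (e.1.subst σ) (e.2.subst σ) := by
  intro a b c hc
  rw [ev_subst, ev_subst, D.change_slots (r := e.2)
    (fun y hy => ⟨e, he, Or.inl ⟨rfl, hy⟩⟩) _ _ hc σ ((fill e.1 e.2).subst σ),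
    D.change_slots (l := e.2) (r := e.1)
    (fun y hy => ⟨e, he, Or.inr ⟨rfl, hy⟩⟩) _ _ hc σ ((fill e.1 e.2).subst σ)]
  have h := D.cross_eval he (fun n => D.ev (σ n))
  rw [← ev_subst] at h
  rw [h]

/-- The setoid. -/
def RS : Setoid Term where
  r := D.R
  iseqv := ⟨fun _ _ _ _ _ => rfl, fun h a b c hc => (h a b c hc).symm,
    fun h h' a b c hc => (h a b c hc).trans (h' a b c hc)⟩

instance : Add (Quotient D.RS) := ⟨Quotient.map₂ (· + ·) fun _ _ h _ _ h' => D.R_add h h'⟩
instance : Mul (Quotient D.RS) := ⟨Quotient.map₂ (· * ·) fun _ _ h _ _ h' => D.R_mul h h'⟩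

theorem eval_RS (σ : ℕ → Term) (t : Term) :
    t.eval (fun n => Quotient.mk D.RS (σ n)) = Quotient.mk D.RS (t.subst σ) := by
  induction t with
  | var n => rfl
  | add s t hs ht => rw [Term.eval, hs, ht]; rfl
  | mul s t hs ht => rw [Term.eval, hs, ht]; rfl

theorem RS_holds : ∀ e ∈ D.E, Holds (Quotient D.RS) e := by
  intro e he v
  have hv : v = fun n => Quotient.mk D.RS ((v n).out) := by
    funext n
    exact (Quotient.out_eq _).symm
  rw [hv, eval_RS, eval_RS]
  exact Quotient.sound (D.R_basis he _)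

/-! ### The second congruence -/

/-- Addition of `w` to an optional term. -/
def oAdd (c : Option Term) (w : Term) : Term := match c with
  | none => w
  | some c => c + w

/-- Multiplication of an optional term with `w`. -/
def oMulR (b : Option Term) (w : Term) : Term := match b with
  | none => w
  | some b => b * w

/-- Multiplication of `w` with an optional term. -/
def oMulL (a : Option Term) (w : Term) : Term := match a with
  | none => w
  | some a => w * a

/-- The term has the same value as a term with a slot. -/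
def Soft (t : Term) : Prop := ∃ T y, D.SlotPair T y ∧ ∃ (σ : ℕ → Term) (a b c : Option Term),
  D.ev t = D.ev (cx a b c (T.subst σ))

theorem Soft.add {t : Term} (h : D.Soft t) (w : Term) : D.Soft (t + w) := by
  obtain ⟨T, y, hT, σ, a, b, c, h⟩ := h
  refine ⟨T, y, hT, σ, a, b, some (oAdd c w), ?_⟩
  rw [ev_add, h]
  cases c with
  | none => rfl
  | some c => exact D.semiP.add_assoc _ _ _

theorem Soft.add' {t : Term} (h : D.Soft t) (w : Term) : D.Soft (w + t) := by
  obtain ⟨T, y, hT, σ, a, b, c, h⟩ := h.add D w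
  exact ⟨T, y, hT, σ, a, b, c, by rw [← h, ev_add, ev_add, D.semiP.add_comm]⟩

theorem Soft.mul {t : Term} (h : D.Soft t) (w : Term) : D.Soft (t * w) := by
  obtain ⟨T, y, hT, σ, a, b, c, h⟩ := h
  refine ⟨T, y, hT, σ, a, some (oMulR b w), c.map (· * w), ?_⟩
  rw [ev_mul, h]
  have h1 : ∀ X : Term, D.ev (mulR b X) * D.ev w =
      D.ev (mulR (some (oMulR b w)) X) := by
    intro X
    cases b with
    | none => rfl
    | some b => exact D.semiP.mul_assoc _ _ _
  cases c with
  | none => exact h1 _
  | some c =>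
    have h2 : D.ev (cx a b (some c) (T.subst σ)) = D.ev (mulR b (mulL a (T.subst σ))) + D.ev c :=
      rfl
    rw [h2, D.semiP.add_mul, h1]
    rfl

theorem Soft.mul' {t : Term} (h : D.Soft t) (w : Term) : D.Soft (w * t) := by
  obtain ⟨T, y, hT, σ, a, b, c, h⟩ := h
  refine ⟨T, y, hT, σ, some (oMulL a w), b, c.map (w * ·), ?_⟩
  rw [ev_mul, h]
  have h0 : ∀ X : Term, D.ev w * D.ev (mulL a X) =
      D.ev (mulL (some (oMulL a w)) X) := by
    intro X
    cases a with
    | none => rfl
    | some a => exact (D.semiP.mul_assoc _ _ _).symm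
  have h1 : D.ev w * D.ev (mulR b (mulL a (T.subst σ))) =
      D.ev (mulR b (mulL (some (oMulL a w)) (T.subst σ))) := by
    cases b with
    | none => exact h0 _
    | some b =>
      have h2 : ∀ X : Term, D.ev (mulR (some b) X) = D.ev X * D.ev b := fun X => rfl
      rw [h2, h2, ← h0, D.semiP.mul_assoc]
  cases c with
  | none => exact h1
  | some c =>
    have h2 : D.ev (cx a b (some c) (T.subst σ)) = D.ev (mulR b (mulL a (T.subst σ))) + D.ev c :=
      rfl
    rw [h2, D.semiP.mul_add, h1]
    rfl

/-- The Rees relation. -/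
def I (t t' : Term) : Prop := D.ev t = D.ev t' ∨ (D.Soft t ∧ D.Soft t')

theorem soft_congr {t t' : Term} (h : D.ev t = D.ev t') (hs : D.Soft t) : D.Soft t' := by
  obtain ⟨T, y, hT, σ, a, b, c, h1⟩ := hs
  exact ⟨T, y, hT, σ, a, b, c, h ▸ h1⟩

/-- The setoid. -/
def IS : Setoid Term where
  r := D.I
  iseqv := by
    refine ⟨fun _ => Or.inl rfl, ?_, ?_⟩
    · rintro t t' (h | h)
      · exact Or.inl h.symm
      · exact Or.inr ⟨h.2, h.1⟩
    · rintro t t' t'' (h | h) (h' | h')
      · exact Or.inl (h.trans h')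
      · exact Or.inr ⟨D.soft_congr h.symm h'.1, h'.2⟩
      · exact Or.inr ⟨h.1, D.soft_congr h' h.2⟩
      · exact Or.inr ⟨h.1, h'.2⟩

theorem I_add {t t' w w' : Term} (h : D.I t t') (h' : D.I w w') : D.I (t + w) (t' + w') := by
  rcases h with h | h
  · rcases h' with h' | h'
    · exact Or.inl (by rw [ev_add, ev_add, h, h'])
    · exact Or.inr ⟨h'.1.add' D t, h'.2.add' D t'⟩
  · exact Or.inr ⟨h.1.add D w, h.2.add D w'⟩

theorem I_mul {t t' w w' : Term} (h : D.I t t') (h' : D.I w w') : D.I (t * w) (t' * w') := by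
  rcases h with h | h
  · rcases h' with h' | h'
    · exact Or.inl (by rw [ev_mul, ev_mul, h, h'])
    · exact Or.inr ⟨h'.1.mul' D t, h'.2.mul' D t'⟩
  · exact Or.inr ⟨h.1.mul D w, h.2.mul D w'⟩

instance : Add (Quotient D.IS) := ⟨Quotient.map₂ (· + ·) fun _ _ h _ _ h' => D.I_add h h'⟩
instance : Mul (Quotient D.IS) := ⟨Quotient.map₂ (· * ·) fun _ _ h _ _ h' => D.I_mul h h'⟩

theorem eval_IS (σ : ℕ → Term) (t : Term) :
    t.eval (fun n => Quotient.mk D.IS (σ n)) = Quotient.mk D.IS (t.subst σ) := by
  induction t with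
  | var n => rfl
  | add s t hs ht => rw [Term.eval, hs, ht]; rfl
  | mul s t hs ht => rw [Term.eval, hs, ht]; rfl

theorem I_basis {e : Term × Term} (he : e ∈ D.E) (σ : ℕ → Term) :
    D.I (e.1.subst σ) (e.2.subst σ) := by
  have hc := D.cross_eval he (fun n => D.ev (σ n))
  by_cases h1 : e.1.content ⊆ e.2.content
  · by_cases h2 : e.2.content ⊆ e.1.content
    · left
      rw [ev_subst, ev_subst]
      have h3 : Holds A e := by
        apply D.basis
        unfold SemiringExt.basis
        rw [Finset.mem_union, Finset.mem_union, Finset.mem_filter]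
        exact Or.inl (Or.inr ⟨he, Finset.Subset.antisymm h1 h2⟩)
      exact holds_PP h3 (Finset.Subset.antisymm h1 h2) _
    · right
      have h3 := h2
      rw [Finset.not_subset] at h3
      obtain ⟨y, hy, hy'⟩ := h3
      have hp : D.SlotPair e.2 y := ⟨e, he, Or.inr ⟨rfl, Finset.mem_sdiff.2 ⟨hy, hy'⟩⟩⟩
      refine ⟨⟨e.2, y, hp, fun n => if n ∈ e.1.content then σ n else e.1.subst σ, none, none, none,
        ?_⟩, ⟨e.2, y, hp, σ, none, none, none, rfl⟩⟩
      change D.ev (e.1.subst σ) = D.ev (e.2.subst _)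
      rw [ev_subst, ev_subst]
      unfold fill at hc
      rw [if_pos h1] at hc
      have e1 : e.1.eval (fun n => if n ∈ e.2.content then D.ev (σ n) else
          e.1.eval (fun n => D.ev (σ n))) = e.1.eval (fun n => D.ev (σ n)) := by
        apply eval_congr
        intro n hn
        rw [if_pos (h1 hn)]
      rw [e1] at hc
      rw [hc]
      apply eval_congr
      intro n _
      rw [apply_ite D.ev, ev_subst]
  · by_cases h2 : e.2.content ⊆ e.1.content
    · right
      have h3 := h1
      rw [Finset.not_subset] at h3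
      obtain ⟨y, hy, hy'⟩ := h3
      have hp : D.SlotPair e.1 y := ⟨e, he, Or.inl ⟨rfl, Finset.mem_sdiff.2 ⟨hy, hy'⟩⟩⟩
      refine ⟨⟨e.1, y, hp, σ, none, none, none, rfl⟩,
        ⟨e.1, y, hp, fun n => if n ∈ e.2.content then σ n else e.2.subst σ, none, none, none, ?_⟩⟩
      change D.ev (e.2.subst σ) = D.ev (e.1.subst _)
      rw [ev_subst, ev_subst]
      unfold fill at hc
      rw [if_neg h1, if_pos h2] at hc
      have e1 : e.2.eval (fun n => if n ∈ e.1.content then D.ev (σ n) else
          e.2.eval (fun n => D.ev (σ n))) = e.2.eval (fun n => D.ev (σ n)) := by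
        apply eval_congr
        intro n hn
        rw [if_pos (h2 hn)]
      rw [e1] at hc
      rw [← hc]
      apply eval_congr
      intro n _
      rw [apply_ite D.ev, ev_subst]
    · right
      rw [Finset.not_subset] at h1 h2
      obtain ⟨y, hy, hy'⟩ := h1
      obtain ⟨x, hx, hx'⟩ := h2
      exact ⟨⟨e.1, y, ⟨e, he, Or.inl ⟨rfl, Finset.mem_sdiff.2 ⟨hy, hy'⟩⟩⟩, σ, none, none, none,
        rfl⟩, ⟨e.2, x, ⟨e, he, Or.inr ⟨rfl, Finset.mem_sdiff.2 ⟨hx, hx'⟩⟩⟩, σ, none, none, none,
        rfl⟩⟩

theorem IS_holds : ∀ e ∈ D.E, Holds (Quotient D.IS) e := by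
  intro e he v
  have hv : v = fun n => Quotient.mk D.IS ((v n).out) := by
    funext n
    exact (Quotient.out_eq _).symm
  rw [hv, eval_IS, eval_IS]
  exact Quotient.sound (D.I_basis he _)

/-! ### Padding -/

theorem subst_update_of_notMem {T : Term} {y : ℕ} (hy : y ∉ T.content) (σ : ℕ → Term)
    (s s' : Term) : D.ev (T.subst (Function.update σ y s)) =
      D.ev (T.subst (Function.update σ y s')) := by
  rw [ev_subst, ev_subst]
  apply eval_congr
  intro n hn
  have : n ≠ y := by rintro rfl; exact hy hn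
  rw [Function.update_of_ne this, Function.update_of_ne this]

/-- Expansion of a sum in a slot. -/
theorem expand (T : Term) (y : ℕ) (hy : y ∈ T.content) (σ : ℕ → Term) (s w : Term) :
    ∃ ρ : Term, (D.ev w).con ⊆ (D.ev ρ).con ∧ D.ev (T.subst (Function.update σ y (s + w))) =
      D.ev (T.subst (Function.update σ y s)) + D.ev ρ := by
  have hP := D.semiP
  induction T with
  | var n =>
    rw [content, Finset.mem_singleton] at hy
    subst hy
    refine ⟨w, Finset.Subset.refl _, ?_⟩
    rw [Term.subst, Term.subst, Function.update_self, Function.update_self, ev_add]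
  | add t₁ t₂ h₁ h₂ =>
    have e : ∀ σ : ℕ → Term, D.ev ((t₁.add t₂).subst σ) = D.ev (t₁.subst σ) + D.ev (t₂.subst σ) :=
      fun _ => rfl
    rw [e, e]
    by_cases hy1 : y ∈ t₁.content
    · obtain ⟨ρ₁, hρ₁, e₁⟩ := h₁ hy1
      by_cases hy2 : y ∈ t₂.content
      · obtain ⟨ρ₂, hρ₂, e₂⟩ := h₂ hy2
        refine ⟨ρ₁ + ρ₂, hρ₁.trans Finset.subset_union_left, ?_⟩
        rw [e₁, e₂, ev_add, hP.add_assoc, hP.add_assoc, ← hP.add_assoc (D.ev ρ₁),
          hP.add_comm (D.ev ρ₁) (D.ev (t₂.subst _)), hP.add_assoc]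
      · refine ⟨ρ₁, hρ₁, ?_⟩
        rw [e₁, D.subst_update_of_notMem hy2 σ (s + w) s, hP.add_assoc, hP.add_assoc,
          hP.add_comm (D.ev ρ₁)]
    · have hy2 : y ∈ t₂.content := (Finset.mem_union.1 hy).resolve_left hy1
      obtain ⟨ρ₂, hρ₂, e₂⟩ := h₂ hy2
      refine ⟨ρ₂, hρ₂, ?_⟩
      rw [e₂, D.subst_update_of_notMem hy1 σ (s + w) s, hP.add_assoc]
  | mul t₁ t₂ h₁ h₂ =>
    have e : ∀ σ : ℕ → Term, D.ev ((t₁.mul t₂).subst σ) = D.ev (t₁.subst σ) * D.ev (t₂.subst σ) :=
      fun _ => rfl
    rw [e, e]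
    by_cases hy1 : y ∈ t₁.content
    · obtain ⟨ρ₁, hρ₁, e₁⟩ := h₁ hy1
      by_cases hy2 : y ∈ t₂.content
      · obtain ⟨ρ₂, hρ₂, e₂⟩ := h₂ hy2
        refine ⟨t₁.subst (Function.update σ y s) * ρ₂ + ρ₁ * (t₂.subst (Function.update σ y s) + ρ₂),
          ?_, ?_⟩
        · rw [ev_add, con_add, ev_mul, ev_mul, con_mul, con_mul]
          exact hρ₁.trans (Finset.subset_union_left.trans Finset.subset_union_right)
        · rw [e₁, e₂, ev_add, ev_mul, ev_mul, ev_add, hP.add_mul, hP.mul_add (D.ev (t₁.subst _)),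
            hP.add_assoc]
      · refine ⟨ρ₁ * t₂.subst (Function.update σ y s), ?_, ?_⟩
        · rw [ev_mul, con_mul]
          exact hρ₁.trans Finset.subset_union_left
        · rw [e₁, D.subst_update_of_notMem hy2 σ (s + w) s, hP.add_mul, ev_mul]
    · have hy2 : y ∈ t₂.content := (Finset.mem_union.1 hy).resolve_left hy1
      obtain ⟨ρ₂, hρ₂, e₂⟩ := h₂ hy2
      refine ⟨t₁.subst (Function.update σ y s) * ρ₂, ?_, ?_⟩
      · rw [ev_mul, con_mul]
        exact hρ₂.trans Finset.subset_union_right
      · rw [e₂, D.subst_update_of_notMem hy1 σ (s + w) s, hP.mul_add, ev_mul]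

/-- The variables of `T` can be added in the slot. -/
theorem pad_vars {T : Term} {y : ℕ} (h : D.SlotPair T y) (σ : ℕ → Term) (B : Finset ℕ)
    (hB : B ⊆ T.content) : ∃ W : Term,
      (D.ev W).con = (D.ev (σ y)).con ∪ B.biUnion (fun x => (D.ev (σ x)).con) ∧
      T.eval (fun n => D.ev (σ n)) =
        T.eval (Function.update (fun n => D.ev (σ n)) y (D.ev (σ y) + D.ev W)) := by
  have hT := D.slot h
  induction B using Finset.induction_on with
  | empty =>
    refine ⟨σ y, by simp, ?_⟩
    rw [hT.c1]
    congr 1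
    exact (Function.update_eq_self y _).symm
  | insert x B hx ih =>
    obtain ⟨W, hW, hWe⟩ := ih ((Finset.subset_insert _ _).trans hB)
    by_cases hxy : x = y
    · subst hxy
      refine ⟨W, ?_, hWe⟩
      rw [hW, Finset.biUnion_insert, ← Finset.union_assoc, Finset.union_self]
    · refine ⟨W + σ x, ?_, ?_⟩
      · rw [ev_add, con_add, hW, Finset.biUnion_insert, Finset.union_assoc,
          Finset.union_comm (B.biUnion _)]
      · rw [hWe, hT.d0 _ _ x (hB (Finset.mem_insert_self _ _)), Function.update_of_ne hxy, ev_add,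
          D.semiP.add_assoc]

theorem soft_pad {t : Term} (h : D.Soft t) (ht : D.Full t) : ∃ ρ : Term, D.Full ρ ∧
    D.ev t = D.ev t + D.ev ρ := by
  have hP := D.semiP
  obtain ⟨T, y, hTy, σ, a, b, c, h⟩ := h
  have hT := D.slot hTy
  set w : ℕ → PP A := fun n => D.ev (σ n) with hw
  obtain ⟨W, hW, hWe⟩ := D.pad_vars hTy σ T.content (Finset.Subset.refl _)
  -- add the letters of `a`
  obtain ⟨W1, hW1, hW1e⟩ : ∃ W1 : Term,
      (D.ev W).con ∪ ((a.map D.ev).elim ∅ PP.con) ⊆ (D.ev W1).con ∧
      mulL (a.map D.ev) (T.eval w) =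
        mulL (a.map D.ev) (T.eval (Function.update w y (D.ev (σ y) + D.ev W1))) := by
    cases a with
    | none =>
      refine ⟨W, by simp, ?_⟩
      exact hWe
    | some a =>
      refine ⟨W + a, ?_, ?_⟩
      · rw [ev_add, con_add]
        exact Finset.Subset.refl _
      · change D.ev a * _ = D.ev a * _
        rw [hWe, hT.da, ev_add, hP.add_assoc]
  obtain ⟨W2, hW2, hW2e⟩ : ∃ W2 : Term,
      (D.ev W1).con ∪ ((b.map D.ev).elim ∅ PP.con) ⊆ (D.ev W2).con ∧
      mulR (b.map D.ev) (mulL (a.map D.ev) (T.eval w)) =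
        mulR (b.map D.ev) (mulL (a.map D.ev)
          (T.eval (Function.update w y (D.ev (σ y) + D.ev W2)))) := by
    cases b with
    | none =>
      refine ⟨W1, by simp, ?_⟩
      exact hW1e
    | some b =>
      refine ⟨W1 + b, ?_, ?_⟩
      · rw [ev_add, con_add]
        exact Finset.Subset.refl _
      · rw [hW1e, mulR_mulL hP, mulR_mulL hP]
        change mulL _ (_ * D.ev b) = mulL _ (_ * D.ev b)
        rw [hT.db, ev_add, hP.add_assoc]
  obtain ⟨W3, hW3, hW3e⟩ : ∃ W3 : Term,
      (D.ev W2).con ∪ ((c.map D.ev).elim ∅ PP.con) ⊆ (D.ev W3).con ∧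
      cx (a.map D.ev) (b.map D.ev) (c.map D.ev) (T.eval w) =
        cx (a.map D.ev) (b.map D.ev) (c.map D.ev)
          (T.eval (Function.update w y (D.ev (σ y) + D.ev W3))) := by
    cases c with
    | none =>
      refine ⟨W2, by simp, ?_⟩
      exact hW2e
    | some c =>
      refine ⟨W2 + c, ?_, ?_⟩
      · rw [ev_add, con_add]
        exact Finset.Subset.refl _
      · have h1 : cx (a.map D.ev) (b.map D.ev) (some (D.ev c)) (T.eval w) =
            cx (a.map D.ev) (b.map D.ev) (some (D.ev c))
              (T.eval (Function.update w y (D.ev (σ y) + D.ev W2))) := by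
          unfold cx
          rw [hW2e]
        change cx (a.map D.ev) (b.map D.ev) (some (D.ev c)) (T.eval w) =
          cx (a.map D.ev) (b.map D.ev) (some (D.ev c)) _
        rw [h1, hT.ctx, ev_add, hP.add_assoc]
  -- the content of `W3`
  have hfull : D.Full W3 := by
    apply D.full_of_sub
    rw [← ht, h, ev_cx]
    have h1 : (D.ev (T.subst σ)).con ⊆ (D.ev W).con := by
      rw [hW, ev_subst, eval_PP]
      exact Finset.subset_union_right
    have h2 : ∀ (a b c : Option (PP A)) (x : PP A), (cx a b c x).con ⊆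
        x.con ∪ a.elim ∅ PP.con ∪ b.elim ∅ PP.con ∪ c.elim ∅ PP.con := by
      intro a b c x
      cases a <;> cases b <;> cases c <;> intro n hn <;>
        simp only [cx, addR, mulR, mulL, con_add, con_mul, Option.elim, Finset.mem_union,
          Finset.notMem_empty, or_false] at hn ⊢ <;> tauto
    refine (h2 _ _ _ _).trans ?_
    refine (Finset.union_subset_union (Finset.union_subset_union (Finset.union_subset_union h1
      (Finset.Subset.refl _)) (Finset.Subset.refl _)) (Finset.Subset.refl _)).trans ?_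
    refine (Finset.union_subset_union (Finset.union_subset_union hW1
      (Finset.Subset.refl _)) (Finset.Subset.refl _)).trans ?_
    exact (Finset.union_subset_union hW2 (Finset.Subset.refl _)).trans hW3
  obtain ⟨ρ₀, hρ₀, hρe⟩ := D.expand T y hT.mem σ (σ y) W3
  have e1 : T.eval (Function.update w y (D.ev (σ y) + D.ev W3)) = T.eval w + D.ev ρ₀ := by
    rw [ev_subst, ev_subst] at hρe
    have e2 : (fun n => D.ev (Function.update σ y (σ y + W3) n)) =
        Function.update w y (D.ev (σ y) + D.ev W3) := by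
      funext n
      by_cases hn : n = y
      · subst hn; rw [Function.update_self, Function.update_self, ev_add]
      · rw [Function.update_of_ne hn, Function.update_of_ne hn]
    have e3 : (fun n => D.ev (Function.update σ y (σ y) n)) = w := by
      rw [Function.update_eq_self]
    rw [e2, e3] at hρe
    exact hρe
  refine ⟨mulR b (mulL a ρ₀), ?_, ?_⟩
  · apply D.full_of_sub
    have h1 : D.Z ⊆ (D.ev ρ₀).con := by
      rw [← hfull]; exact hρ₀
    refine h1.trans ?_
    cases a <;> cases b <;> intro n hn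
    · exact hn
    · exact Finset.mem_union_left _ hn
    · exact Finset.mem_union_right _ hn
    · exact Finset.mem_union_left _ (Finset.mem_union_right _ hn)
  · have e4 : D.ev (mulR b (mulL a ρ₀)) = mulR (b.map D.ev) (mulL (a.map D.ev) (D.ev ρ₀)) := by
      cases a <;> cases b <;> rfl
    have e5 : D.ev t = cx (a.map D.ev) (b.map D.ev) (c.map D.ev) (T.eval w) := by
      rw [h, ev_cx, ev_subst]
    rw [e4, e5]
    conv_lhs => rw [hW3e, e1]
    unfold cx
    rw [mulL_add hP, mulR_add hP]
    cases c with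
    | none => rfl
    | some c =>
      change _ + _ + D.ev c = _ + D.ev c + _
      rw [hP.add_assoc, hP.add_assoc, hP.add_comm (D.ev c)]

end Data

/-- The main theorem about the identities of `S`. -/
theorem main {S : Type u} [Add S] [Mul S] {E : Finset (Term × Term)}
    (hE : ∀ (A : Type) [Add A] [Mul A], (∀ e ∈ E, Holds A e) → ∀ e, Holds S e → Holds A e)
    (A : Type) [Add A] [Mul A] (hA : ∀ e ∈ basis E, Holds A e) (e : Term × Term) (h : Holds S e)
    (hc : e.1.content = e.2.content) : Holds A e := by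
  intro φ
  obtain ⟨z₀, hz₀⟩ := content_nonempty e.1
  let D : Data A :=
    { E := E
      φ := φ
      Z := e.1.content
      z₀ := z₀
      mem := hz₀
      semi := isSemiring_iff.2 fun e he => hA e (by
        unfold basis
        rw [Finset.mem_union, Finset.mem_union]
        exact Or.inl (Or.inl he))
      basis := hA }
  have hval : ∀ t : Term, t.content ⊆ e.1.content → (D.ev t).val = t.eval φ := by
    intro t ht
    unfold Data.ev
    rw [eval_PP]
    apply eval_congr
    intro n hn
    change φ (D.π n) = φ n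
    unfold Data.π
    rw [if_pos (ht hn)]
  have hfull : ∀ t : Term, t.content = e.1.content → D.Full t := by
    intro t ht
    unfold Data.Full
    rw [D.con_ev]
    change t.content.image D.π = e.1.content
    rw [ht]
    ext n
    rw [Finset.mem_image]
    constructor
    · rintro ⟨m, hm, rfl⟩
      exact D.π_mem m
    · intro hn
      refine ⟨n, hn, ?_⟩
      unfold Data.π
      rw [if_pos hn]
  have hP := D.semiP
  have hid : ∀ t : Term, t.subst var = t := by
    intro t
    induction t with
    | var n => rfl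
    | add s t hs ht => rw [Term.subst, hs, ht]
    | mul s t hs ht => rw [Term.subst, hs, ht]
  have h1 := hE (Quotient D.IS) D.IS_holds e h (fun n => Quotient.mk D.IS (var n))
  rw [D.eval_IS, D.eval_IS, hid, hid] at h1
  have h2 : D.I e.1 e.2 := Quotient.exact h1
  have key : D.ev e.1 = D.ev e.2 := by
    rcases h2 with h2 | ⟨hs1, hs2⟩
    · exact h2
    · have h3 := hE (Quotient D.RS) D.RS_holds e h (fun n => Quotient.mk D.RS (var n))
      rw [D.eval_RS, D.eval_RS, hid, hid] at h3
      have h4 : D.R e.1 e.2 := Quotient.exact h3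
      have h5 : ∀ c : Term, D.Full c → D.ev e.1 + D.ev c = D.ev e.2 + D.ev c :=
        fun c hc => h4 none none c hc
      obtain ⟨ρ, hρ, e1⟩ := D.soft_pad hs1 (hfull _ rfl)
      obtain ⟨ρ', hρ', e2⟩ := D.soft_pad hs2 (hfull _ hc.symm)
      calc D.ev e.1 = D.ev e.1 + D.ev ρ := e1
        _ = D.ev e.2 + D.ev ρ := h5 ρ hρ
        _ = D.ev e.2 + D.ev ρ' + D.ev ρ := by rw [← e2]
        _ = D.ev e.2 + D.ev ρ + D.ev ρ' := by
          rw [hP.add_assoc, hP.add_comm (D.ev ρ'), hP.add_assoc]
        _ = D.ev e.1 + D.ev ρ + D.ev ρ' := by rw [h5 ρ hρ]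
        _ = D.ev e.1 + D.ev ρ' := by rw [← e1]
        _ = D.ev e.2 + D.ev ρ' := h5 ρ' hρ'
        _ = D.ev e.2 := e2.symm
  rw [← hval e.1 (Finset.Subset.refl _), ← hval e.2 (by rw [hc]), key]

end Pool.Agent.Q23.SemiringExt
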